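import Pool.Agent.MP_51db15_ag.Normal

-- ======== part 0: formerly Pool.Agent.MP_51db15_ag.Change
section MrgPart0

/-! Changes of coordinates for hypertoric algebras. -/

set_option linter.unusedSectionVars false

namespace Pool.Agent.MP_51db15_ag

variable {K : Type} [Field K] [Algebra ℂ K] {n N : ℕ}

theorem exists_adapted (ℓ : Fin N → Fin n → ℤ) :
    ∃ (b c : Fin n → Fin n → ℤ) (p : Fin n → Prop), (∀ i j, dot (c i) (b j) = if i = j then 1 else 0) ∧
      (∀ k l, ∑ i, b i k * c i l = if k = l then 1 else 0) ∧ (∀ i, p i → ∀ j, dot (ℓ j) (b i) = 0) ∧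
      ∀ α, (∀ j, dot (ℓ j) α = 0) → ∀ i, ¬ p i → dot (c i) α = 0 := by
  let T : Submodule ℤ (Fin n → ℤ) :=
    { carrier := {α | ∀ j, dot (ℓ j) α = 0}
      add_mem' := fun ha hb j => by rw [dot_add, ha j, hb j, add_zero]
      zero_mem' := fun j => dot_zero _
      smul_mem' := fun c a ha j => by
        have := ha j
        simp only [dot, Pi.smul_apply, smul_eq_mul, mul_left_comm _ c, ← Finset.mul_sum] at this ⊢
        rw [this, mul_zero] }
  obtain ⟨k, S⟩ := T.smithNormalForm (Pi.basisFun ℤ (Fin n))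
  have h1 : ∀ i α, dot (fun l => S.bM.repr (Pi.single l 1) i) α = S.bM.repr α i := fun i α => by
    conv_rhs => rw [pi_eq_sum_univ' α]
    simp only [map_sum, map_smul, Finsupp.finsetSum_apply, Finsupp.smul_apply, smul_eq_mul, dot,
      mul_comm]
  refine ⟨S.bM, fun i l => S.bM.repr (Pi.single l 1) i, fun i => i ∈ Set.range S.f,
    fun i j => ?_, fun k l => ?_, ?_, fun α hα i hi => ?_⟩
  · rw [h1, S.bM.repr_self, Finsupp.single_apply]
    simp [eq_comm]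
  · have := congr_fun (S.bM.sum_repr (Pi.single l 1)) k
    simpa [Finset.sum_apply, mul_comm, Pi.single_apply] using this
  · rintro _ ⟨i, rfl⟩ j
    have h2 := (S.bN i).2 j
    have h3 : S.a i ≠ 0 := fun h => S.bN.ne_zero i (Subtype.ext (by rw [S.snf, h]; simp))
    rw [S.snf] at h2
    simp only [dot, Pi.smul_apply, smul_eq_mul, mul_left_comm _ (S.a i), ← Finset.mul_sum] at h2
    exact (mul_eq_zero.1 h2).resolve_left h3
  · rw [h1]
    exact S.repr_eq_zero_of_notMem_range ⟨α, hα⟩ hi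

theorem tpow_sum {t : Fin n → K} (ht : ∀ i, t i ≠ 0) (b : Fin n → Fin n → ℤ) (a : Fin n → ℤ) :
    tpow (fun i => tpow t (b i)) a = tpow t fun k => ∑ i, a i * b i k := by
  simp only [tpow, ← Finset.prod_zpow, ← zpow_mul]
  rw [Finset.prod_comm]
  exact Finset.prod_congr rfl fun k _ => by rw [prod_zpow_sum (ht k)]; simp [mul_comm]

/-- coordinates up to the missing condition on the vector fields -/
structure Semi (μ t : Fin n → K) : Prop where
  ne : ∀ i, t i ≠ 0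
  ex : ∃ P ξ : Fin n → Derivation ℂ K K, (∀ i j, P i (μ j) = if i = j then 1 else 0) ∧
    (∀ i j, ξ i (μ j) = 0) ∧ ∀ i, t i ∈ eig ξ (Pi.single i 1)

theorem basis_change {μ t : Fin n → K} (h : Semi μ t) {ℓ : Fin N → Fin n → ℤ} (h0 : ∀ j, ℓ j ≠ 0)
    (h1 : ∀ j k, (∀ a b, ℓ j a * ℓ k b = ℓ j b * ℓ k a) → j = k) :
    ∃ (μ' t' : Fin n → K) (ℓ' : Fin N → Fin n → ℤ) (p : Fin n → Prop), Semi μ' t' ∧
      (∀ j, ℓ' j ≠ 0) ∧ (∀ j k, (∀ a b, ℓ' j a * ℓ' k b = ℓ' j b * ℓ' k a) → j = k) ∧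
      (∀ i, p i → ∀ j, ℓ' j i = 0) ∧ (∀ a, (∀ j, dot (ℓ' j) a = 0) → ∀ i, ¬ p i → a i = 0) ∧
      hyp μ' t' ℓ' = hyp μ t ℓ ∧ (∀ i, ∃ l, μ' i = lin μ l) ∧
      ∀ a, ∃ α, rr μ' t' ℓ' a = rr μ t ℓ α ∧ ∀ j, dot (ℓ' j) a = dot (ℓ j) α := by
  obtain ⟨b, c, p, e1, e2, h2, h3⟩ := exists_adapted ℓ
  obtain ⟨ht, P, ξ, h4, h5, h6⟩ := h
  have h7 : ∀ l : Fin n → ℤ, lin (fun i => lin μ (c i)) (fun i => dot l (b i)) = lin μ l :=
    fun l => by
      simp only [lin, dot, Finset.mul_sum, Int.cast_sum, Finset.sum_mul]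
      rw [Finset.sum_comm]
      refine Finset.sum_congr rfl fun k _ => ?_
      rw [Finset.sum_comm, ← Finset.sum_ite_eq_of_mem' Finset.univ k (fun j => (l j : K) * μ k)
        (Finset.mem_univ k)]
      refine Finset.sum_congr rfl fun j _ => ?_
      have := congr((($(e2 j k) : ℤ) : K) * (l j * μ k))
      simp only [Int.cast_sum, Finset.sum_mul, Int.cast_ite, ite_mul] at this
      simpa [mul_comm, mul_left_comm, mul_assoc] using this
  have h8 : ∀ l a : Fin n → ℤ, dot (fun i => dot l (b i)) a = dot l fun k => ∑ i, a i * b i k :=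
    fun l a => by
      simp only [dot, Finset.mul_sum, Finset.sum_mul]
      rw [Finset.sum_comm]
      exact Finset.sum_congr rfl fun _ _ => Finset.sum_congr rfl fun _ _ => by ring
  have h9 : ∀ a, rr (fun i => lin μ (c i)) (fun i => tpow t (b i)) (fun j i => dot (ℓ j) (b i)) a =
      rr μ t ℓ fun k => ∑ i, a i * b i k := fun a => by
    simp only [rr, zz, tpow_sum ht, h7, h8]
  have h10 : ∀ α : Fin n → ℤ, (fun k => ∑ i, dot (c i) α * b i k) = α := fun α => by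
    ext k
    simp only [dot, Finset.sum_mul]
    rw [Finset.sum_comm, ← Finset.sum_ite_eq_of_mem Finset.univ k α (Finset.mem_univ k)]
    refine Finset.sum_congr rfl fun l _ => ?_
    have := congr($(e2 k l) * α l)
    simp only [Finset.sum_mul, ite_mul] at this
    simpa [mul_comm, mul_left_comm, mul_assoc] using this
  have h11 : ∀ l a, l a = ∑ i, dot l (b i) * c i a := fun l a => by
    have := h8 l fun i => dot (c i) (Pi.single a 1)
    rw [h10, dot_single] at this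
    simp only [dot_single] at this
    exact this.symm
  refine ⟨fun i => lin μ (c i), fun i => tpow t (b i), fun j i => dot (ℓ j) (b i), p,
    ⟨fun i => tpow_ne ht _, fun i => ∑ k, (b i k : ℂ) • P k, fun i => ∑ k, (c i k : ℂ) • ξ k,
      fun i j => ?_, fun i j => ?_, fun j i => ?_⟩, fun j hj => h0 j ?_, fun j k h => h1 j k
      fun a a' => ?_, h2, fun a ha i hi => ?_, le_antisymm (Algebra.adjoin_le ?_)
      (Algebra.adjoin_le ?_), fun i => ⟨_, rfl⟩, fun a => ⟨_, h9 a, fun j => h8 _ _⟩⟩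
  · have := congr((($(e1 j i) : ℤ) : K))
    simp only [dot, Int.cast_sum, Int.cast_ite] at this
    simpa [der_sum, lin, map_sum, h4, Algebra.smul_def, mul_comm, eq_comm] using this
  · simp [der_sum, lin, map_sum, h5]
  · rw [der_sum]
    simp only [Derivation.smul_apply, eig_tpow h6 (b j) _, smul_smul, ← Finset.sum_smul]
    congr 1
    have := congr((($(e1 i j) : ℤ) : ℂ))
    simpa [dot, Pi.single_apply] using this
  · ext a
    rw [h11 (ℓ j) a]
    simp [show ∀ i, dot (ℓ j) (b i) = 0 from congr_fun hj]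
  · rw [h11 (ℓ j) a, h11 (ℓ k) a', h11 (ℓ j) a', h11 (ℓ k) a, Finset.sum_mul_sum,
      Finset.sum_mul_sum, Finset.sum_comm]
    refine Finset.sum_congr rfl fun i _ => Finset.sum_congr rfl fun i' _ => ?_
    have : dot (ℓ j) (b i') * dot (ℓ k) (b i) = dot (ℓ j) (b i) * dot (ℓ k) (b i') := h i' i
    linear_combination (c i' a * c i a') * this
  · have := h3 _ (fun j => (h8 _ _).symm.trans (ha j)) i hi
    rw [← h8, dot] at this
    simpa [e1] using this
  · rintro _ (⟨i, rfl⟩ | ⟨a, rfl⟩)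
    · exact adjoin_le_hyp (lin_mem_adjoin _ _)
    · rw [h9]; exact rr_mem _
  · rintro _ (⟨i, rfl⟩ | ⟨α, rfl⟩)
    · have : μ i = lin μ (Pi.single i 1) := by simp [lin, Pi.single_apply]
      rw [this, ← h7]
      exact adjoin_le_hyp (lin_mem_adjoin _ _)
    · rw [← h10 α, ← h9]; exact rr_mem _

end Pool.Agent.MP_51db15_ag

end MrgPart0

-- ======== part 1: formerly Pool.Agent.MP_51db15_ag.Fill
section MrgPart1

/-! The cotangent bundle of a torus factor is an open subset of a symplectic vector space. -/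

set_option linter.unusedSectionVars false

namespace Pool.Agent.MP_51db15_ag

variable {K : Type} [Field K] [Algebra ℂ K] {n N : ℕ}

theorem Semi.dual {μ t : Fin n → K} (h : Semi μ t) : ∃ D E : Fin n → Derivation ℂ K K,
    (∀ i j, D i (μ j) = if i = j then 1 else 0) ∧ (∀ i j, D i (t j) = 0) ∧
      (∀ i j, E i (μ j) = 0) ∧ ∀ i j, E i (t j) = if i = j then 1 else 0 := by
  obtain ⟨ht, P, ξ, h1, h2, h3⟩ := h
  have h4 : ∀ i j, ξ i (t j) = if i = j then t j else 0 := fun i j => by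
    rw [h3 j i]
    by_cases h : i = j
    · subst h; simp
    · simp [h]
  refine ⟨fun i => P i - ∑ k, (P i (t k) / t k) • ξ k, fun i => (t i)⁻¹ • ξ i,
    fun i j => by simp [der_sum, h1, h2], fun i j => by simp [der_sum, h4, ht],
    fun i j => by simp [h2], fun i j => ?_⟩
  by_cases h : i = j
  · subst h; simp [h4, ht]
  · simp [h4, h]

theorem fill {μ t : Fin n → K} (h : Semi μ t) {ℓ : Fin N → Fin n → ℤ} (h0 : ∀ j, ℓ j ≠ 0)
    (h1 : ∀ j k, (∀ a b, ℓ j a * ℓ k b = ℓ j b * ℓ k a) → j = k) (p : Fin n → Prop)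
    (h2 : ∀ i, p i → ∀ j, ℓ j i = 0) (h3 : ∀ a, (∀ j, dot (ℓ j) a = 0) → ∀ i, ¬ p i → a i = 0)
    (c : Fin n → ℂ) : ∃ (μ' t' : Fin n → K) (N' : ℕ) (ℓ' : Fin N' → Fin n → ℤ),
      AlgebraicIndependent ℂ (Sum.elim μ' t') ∧ (∀ j, ℓ' j ≠ 0) ∧
      (∀ j k, (∀ a b, ℓ' j a * ℓ' k b = ℓ' j b * ℓ' k a) → j = k) ∧
      (∀ a, (∀ j, dot (ℓ' j) a = 0) → a = 0) ∧
      (∃ hle : hyp μ' t' ℓ' ≤ hyp μ t ℓ, (Subalgebra.inclusion hle).toRingHom.Etale) ∧
      ∀ W : Set K, (∀ r ∈ hyp μ t ℓ, ∀ w ∈ W, r * w ∈ W) → (∀ i, μ i ∈ W) →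
        (∀ a, (∃ j, dot (ℓ j) a ≠ 0) → rr μ t ℓ a ∈ W) → (∀ i, p i → t i - algebraMap ℂ K (c i) ∈ W) →
          (∀ i, μ' i ∈ W) ∧ ∀ a ≠ 0, rr μ' t' ℓ' a ∈ W := by
  classical
  obtain ⟨D, E, d1, d2, d3, d4⟩ := h.dual
  have ht := h.ne
  let u : Fin n → K := fun i => t i - algebraMap ℂ K (c i)
  have hDu : ∀ i j, D i (u j) = 0 := fun i j => by simp [u, d2]
  have hEu : ∀ i j, E i (u j) = if i = j then 1 else 0 := fun i j => by simp [u, d4]
  have hu : ∀ i, u i ≠ 0 := fun i h => by simpa [h] using hEu i i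
  let μ' : Fin n → K := fun i => if p i then μ i * u i else μ i
  let t' : Fin n → K := fun i => if p i then (u i)⁻¹ else t i
  let L : Fin N ⊕ {i // p i} → Fin n → ℤ := Sum.elim ℓ fun i => Pi.single i 1
  let e := Fintype.equivFin (Fin N ⊕ {i // p i})
  let tr : (Fin n → ℤ) → Fin n → ℤ := fun a i => if p i then 0 else a i
  have hsub : ∀ f : Fin n → K, ∏ i : {i // p i}, f i = ∏ i, if p i then f i else 1 := fun f => by
    rw [← Finset.prod_filter, Finset.prod_subtype (p := p) _ (by simp)]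
  have hdot : ∀ j a, dot (ℓ j) (tr a) = dot (ℓ j) a := fun j a =>
    Finset.sum_congr rfl fun i _ => by
      by_cases hp : p i
      · simp [h2 i hp]
      · simp [tr, hp]
  have hlin : ∀ j, lin μ' (ℓ j) = lin μ (ℓ j) := fun j =>
    Finset.sum_congr rfl fun i _ => by
      by_cases hp : p i
      · simp [h2 i hp]
      · simp [μ', hp]
  have hds : ∀ (i : Fin n) a, dot (Pi.single i 1) a = a i := fun i a => by
    simp [dot, Pi.single_apply]
  have hrr : ∀ a, rr μ' t' (L ∘ e.symm) a =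
      rr μ t ℓ (tr a) * ∏ i : {i // p i}, μ i ^ (a i).toNat * u i ^ (-a i).toNat := fun a => by
    have e1 : zz μ' (L ∘ e.symm) a = zz μ ℓ (tr a) * ∏ i : {i // p i}, (μ i * u i) ^ (a i).toNat := by
      rw [zz, zz]
      refine (e.symm.prod_comp fun j => lin μ' (L j) ^ (dot (L j) a).toNat).trans ?_
      rw [Fintype.prod_sum_type]
      simp only [L, Sum.elim_inl, Sum.elim_inr, hlin, hdot, hds]
      congr 1
      exact Finset.prod_congr rfl fun i _ => by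
        rw [show lin μ' (Pi.single i 1) = μ' i by simp [lin, Pi.single_apply]]
        simp [μ', i.2]
    have e2 : tpow t' a = tpow t (tr a) * ∏ i : {i // p i}, (u i)⁻¹ ^ a i := by
      rw [hsub fun i => (u i)⁻¹ ^ a i, tpow, tpow, ← Finset.prod_mul_distrib]
      refine Finset.prod_congr rfl fun i _ => ?_
      by_cases hp : p i <;> simp [t', tr, hp]
    rw [rr, rr, e1, e2, mul_mul_mul_comm, ← Finset.prod_mul_distrib]
    congr 1
    refine Finset.prod_congr rfl fun i _ => ?_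
    rw [mul_pow, mul_left_comm, inv_zpow', ← zpow_natCast (u i), ← zpow_natCast (u i),
      ← zpow_add₀ (hu i)]
    congr 2
    omega
  have hrs : ∀ a, rr μ t ℓ a = rr μ t ℓ (tr a) * ∏ i : {i // p i}, t i ^ a i := fun a => by
    rw [rr, rr, zz, zz, hsub fun i => t i ^ a i, mul_right_comm, tpow, tpow,
      ← Finset.prod_mul_distrib]
    simp only [hdot]
    congr 1
    refine Finset.prod_congr rfl fun i _ => ?_
    by_cases hp : p i <;> simp [tr, hp]
  have hμ : ∀ i, μ i ∈ hyp μ t ℓ := fun i => Algebra.subset_adjoin (Or.inl (Set.mem_range_self i))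
  have hone : ∀ (i : {i // p i}) (k : ℤ), tr (Pi.single i k) = 0 := fun i k => by
    ext j
    by_cases hj : j = i
    · simp [tr, hj, i.2]
    · simp [tr, hj]
  have htp : ∀ (i : {i // p i}) (k : ℤ), t i ^ k ∈ hyp μ t ℓ := fun i k => by
    have := rr_mem (μ := μ) (t := t) (ℓ := ℓ) (Pi.single i k)
    rw [hrs, hone, rr_zero, one_mul, Finset.prod_eq_single i] at this
    · simpa using this
    · intro j _ hj; simp [Pi.single_eq_of_ne (Subtype.coe_injective.ne hj)]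
    · simp
  have hum : ∀ i : {i // p i}, u i ∈ hyp μ t ℓ := fun i =>
    sub_mem (by simpa using htp i 1) (Subalgebra.algebraMap_mem _ _)
  have hp1 : ∀ (a : Fin n → ℤ) (i : {i // p i}),
      μ i ^ (a i).toNat * u i ^ (-a i).toNat ∈ hyp μ t ℓ := fun a i =>
    mul_mem (pow_mem (hμ i) _) (pow_mem (hum i) _)
  have hle : hyp μ' t' (L ∘ e.symm) ≤ hyp μ t ℓ := Algebra.adjoin_le (by
    rintro _ (⟨i, rfl⟩ | ⟨a, rfl⟩)
    · by_cases hp : p i
      · simpa [μ', hp] using mul_mem (hμ i) (hum ⟨i, hp⟩)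
      · simpa [μ', hp] using hμ i
    · rw [hrr]
      exact mul_mem (rr_mem _) (prod_mem fun i _ => hp1 a i))
  have hs : ∀ (i : {i // p i}) (k : ℤ), μ i ^ k.toNat * u i ^ (-k).toNat ∈
      hyp μ' t' (L ∘ e.symm) := fun i k => by
    have := rr_mem (μ := μ') (t := t') (ℓ := L ∘ e.symm) (Pi.single i k)
    rw [hrr, hone, rr_zero, one_mul, Finset.prod_eq_single i] at this
    · simpa using this
    · intro j _ hj; simp [Pi.single_eq_of_ne (Subtype.coe_injective.ne hj)]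
    · simp
  have ht' : ∀ i : {i // p i}, t i ∈ hyp μ' t' (L ∘ e.symm) := fun i => by
    simpa [u] using add_mem (hs i (-1)) (Subalgebra.algebraMap_mem _ (c i))
  have hg : ∏ i : {i // p i}, t i ∈ hyp μ' t' (L ∘ e.symm) := prod_mem fun i _ => ht' i
  have hg0 : ∏ i : {i // p i}, t i ≠ 0 := Finset.prod_ne_zero_iff.2 fun i _ => ht i
  have hle2 : hyp μ' t' (L ∘ e.symm) ≤ awayAlg _ hg := fun r hr => ⟨0, by simpa using hr⟩
  refine ⟨μ', t', _, L ∘ e.symm, algInd _ (Sum.elim (fun i => if p i then (u i)⁻¹ • D i else D i)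
    fun i => if p i then (μ i * u i) • D i - u i ^ 2 • E i else E i) ?_, fun j => ?_,
    fun j k hjk => e.symm.injective ?_, fun a ha => ?_, ⟨hle, ?_⟩, fun W w1 w2 w3 w4 =>
      ⟨fun i => ?_, fun a ha => ?_⟩⟩
  · have e1 : ∀ i, -(μ i * (u i * u i)) + u i * (μ i * u i) = 0 := fun i => by ring
    have e2 : ∀ i, (u i)⁻¹ * (u i)⁻¹ * (u i * u i) = 1 := fun i => by have := hu i; field_simp
    rintro (i | i) (j | j) <;> by_cases hi : p i <;> by_cases hj : p j <;> by_cases hij : i = j <;>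
      (try subst hij) <;> simp [μ', t', Derivation.leibniz_inv, sq, *]
  · rw [Function.comp_apply]
    obtain j | j := e.symm j
    · exact h0 j
    · simp [L]
  · simp only [Function.comp_apply] at hjk
    revert hjk
    obtain j | j := e.symm j <;> obtain k | k := e.symm k <;> intro hjk
    · rw [h1 j k hjk]
    · obtain ⟨a, ha⟩ := Function.ne_iff.1 (h0 j)
      exact (ha (by simpa [L, h2 k k.2] using hjk a k)).elim
    · obtain ⟨a, ha⟩ := Function.ne_iff.1 (h0 k)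
      exact (ha (by simpa [L, h2 j j.2] using hjk j a)).elim
    · by_contra hn
      have : (k : Fin n) ≠ j := fun h => hn (by rw [Subtype.ext h])
      simpa [L, this] using hjk j k
  · ext i
    by_cases hp : p i
    · simpa [L, hds] using ha (e (.inr ⟨i, hp⟩))
    · exact h3 a (fun j => by simpa [L] using ha (e (.inl j))) i hp
  · let := (Subalgebra.inclusion hle).toRingHom.toAlgebra
    have := isLoc_away hle hg hg0 fun y => ⟨fun hy => (Algebra.adjoin_le (S := awayAlg _ hg) (by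
      rintro _ (⟨i, rfl⟩ | ⟨a, rfl⟩)
      · refine hle2 ?_
        by_cases hp : p i
        · simpa using hs ⟨i, hp⟩ 1
        · have : μ' i ∈ hyp μ' t' (L ∘ e.symm) := Algebra.subset_adjoin (Or.inl ⟨i, rfl⟩)
          simpa [μ', hp] using this
      · rw [hrs]
        refine mul_mem (hle2 ?_) (prod_mem fun i _ => ?_)
        · have := rr_mem (μ := μ') (t := t') (ℓ := L ∘ e.symm) (tr a)
          rw [hrr, Finset.prod_eq_one fun i _ => by simp [tr, i.2], mul_one] at this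
          convert this using 2
          ext i
          by_cases hp : p i <;> simp [tr, hp]
        · obtain ⟨m, e2 | e2⟩ := Int.eq_nat_or_neg (a i)
          · rw [e2, zpow_natCast]; exact pow_mem (hle2 (ht' i)) _
          · rw [e2, zpow_neg, zpow_natCast, ← inv_pow]
            refine pow_mem (show _ ∈ awayAlg _ hg from ⟨1, ?_⟩) _
            rw [pow_one, ← Finset.prod_erase_mul _ _ (Finset.mem_univ i),
              mul_inv_cancel_right₀ (ht i)]
            exact prod_mem fun i _ => ht' i)) hy, fun ⟨k, hk⟩ => by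
        have h4 : (∏ i : {i // p i}, t i)⁻¹ ∈ hyp μ t ℓ := by
          rw [← Finset.prod_inv_distrib]
          exact prod_mem fun i _ => by simpa using htp i (-1)
        have := mul_mem (pow_mem h4 k) (hle hk)
        rwa [inv_pow, inv_mul_cancel_left₀ (pow_ne_zero _ hg0)] at this⟩
    exact RingHom.etale_algebraMap.2 (Algebra.Etale.of_isLocalizationAway ⟨_, hg⟩)
  · by_cases hp : p i
    · simpa [μ', hp, mul_comm] using w1 _ (hum ⟨i, hp⟩) _ (w2 i)
    · simpa [μ', hp] using w2 i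
  · rw [hrr]
    by_cases h4 : ∀ j, dot (ℓ j) a = 0
    · obtain ⟨i, hi⟩ := Function.ne_iff.1 ha
      have hp : p i := not_not.1 fun hp => hi (h3 a h4 i hp)
      rw [← Finset.prod_erase_mul _ _ (Finset.mem_univ ⟨i, hp⟩), ← mul_assoc]
      refine w1 _ (mul_mem (rr_mem _) (prod_mem fun i _ => hp1 a i)) _ ?_
      change a i ≠ 0 at hi
      rcases lt_or_gt_of_ne hi with h5 | h5
      · obtain ⟨k, hk⟩ : ∃ k, (-a i).toNat = k + 1 := ⟨(-a i).toNat - 1, by omega⟩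
        rw [hk, pow_succ, ← mul_assoc]
        exact w1 _ (mul_mem (pow_mem (hμ i) _) (pow_mem (hum ⟨i, hp⟩) _)) _ (w4 i hp)
      · obtain ⟨k, hk⟩ : ∃ k, (a i).toNat = k + 1 := ⟨(a i).toNat - 1, by omega⟩
        rw [hk, pow_succ, mul_right_comm]
        exact w1 _ (mul_mem (pow_mem (hμ i) _) (pow_mem (hum ⟨i, hp⟩) _)) _ (w2 i)
    · push Not at h4
      rw [mul_comm]
      exact w1 _ (prod_mem fun i _ => hp1 a i) _ (w3 _ (by simpa [hdot] using h4))

end Pool.Agent.MP_51db15_ag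

end MrgPart1

-- ======== part 2: formerly Pool.Agent.MP_51db15_ag.Local
section MrgPart2

/-! The local structure theorem inside the function field. -/

set_option linter.unusedSectionVars false

namespace Pool.Agent.MP_51db15_ag

variable {K : Type} [Field K] [Algebra ℂ K] {n : ℕ} {H : Ham K n} {R : Subalgebra ℂ K}
  {m : Submodule ℂ K}

theorem Pt.pow_notMem (P : Pt H R m) {g : K} (hg : g ∈ R) (h : g ∉ m) (k : ℕ) : g ^ k ∉ m := by
  induction k with
  | zero => simpa using P.one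
  | succ k ih => exact fun h1 => (P.prime _ (pow_mem hg k) _ hg (pow_succ g k ▸ h1)).elim ih h

theorem Pt.away (P : Pt H R m) {g : K} (hg : g ∈ R) (h : g ∉ m) {R' : Subalgebra ℂ K}
    (hR' : ∀ y, y ∈ R' ↔ ∃ k : ℕ, g ^ k * y ∈ R) :
    ∃ m' : Submodule ℂ K, (∀ y, y ∈ m' ↔ ∃ k : ℕ, g ^ k * y ∈ m) ∧ Pt H R' m' := by
  refine ⟨⟨⟨⟨{y | ∃ k : ℕ, g ^ k * y ∈ m}, ?_⟩, 0, by simp⟩, ?_⟩, fun _ => Iff.rfl, ?_, ?_, ?_,
    fun i => ⟨0, by simpa using P.mu i⟩⟩
  · rintro a b ⟨k, hk⟩ ⟨l, hl⟩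
    refine ⟨k + l, ?_⟩
    convert add_mem (P.mul_mem _ (pow_mem hg l) _ hk) (P.mul_mem _ (pow_mem hg k) _ hl) using 1
    ring
  · rintro c a ⟨k, hk⟩
    exact ⟨k, by rw [mul_smul_comm]; exact m.smul_mem c hk⟩
  · rintro r hr x ⟨l, hl⟩
    obtain ⟨k, hk⟩ := (hR' r).1 hr
    exact ⟨k + l, by convert P.mul_mem _ hk _ hl using 1; ring⟩
  · rintro a ha b hb ⟨j, hj⟩
    obtain ⟨k, hk⟩ := (hR' a).1 ha
    obtain ⟨l, hl⟩ := (hR' b).1 hb
    have h1 : g ^ (j + k) * a ∈ R := by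
      rw [pow_add, mul_assoc]; exact R.mul_mem (pow_mem hg j) hk
    exact (P.prime _ h1 _ hl (by
      convert P.mul_mem _ (pow_mem hg (k + l)) _ hj using 1; ring)).imp (fun h => ⟨_, h⟩)
        fun h => ⟨_, h⟩
  · rintro ⟨k, hk⟩
    exact P.pow_notMem hg h k (by simpa using hk)

theorem two_loc (M : Set K) (hM : ∀ r ∈ R, ∀ x ∈ M, r * x ∈ M) {g s : K} {j : ℕ} (hg : g ∈ R)
    (hs : g ^ j * s ∈ R) (y : K) :
    (∃ a b : ℕ, g ^ b * (s ^ a * y) ∈ M) ↔ ∃ k : ℕ, (g * (g ^ j * s)) ^ k * y ∈ M := by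
  constructor
  · rintro ⟨a, b, h⟩
    refine ⟨a + b, ?_⟩
    convert hM _ (mul_mem (mul_mem (pow_mem hg a) (pow_mem hs b)) (pow_mem hg (j * a))) _ h using 1
    ring
  · rintro ⟨k, h⟩
    exact ⟨k, k + j * k, by convert h using 1; ring⟩

/-- after a homogeneous localisation the orbit of the point is closed -/
theorem Good.closed_orbit (G : Good H R) (P : Pt H R m) : ∃ g ∈ R, g ∉ m ∧ (∃ δ, g ∈ H.deg δ) ∧
    ∀ α, ∀ y ∈ R, y ∈ H.deg α → y ∉ m → ∃ u ∈ R, u ∈ H.deg α ∧ ∃ w ∈ R, ∃ k : ℕ, u * w = g ^ k := by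
  classical
  obtain ⟨ι, _, x, β, hx, e⟩ := G.fg
  have hxR : ∀ q, x q ∈ R := fun q => e ▸ Algebra.subset_adjoin (Set.mem_range_self q)
  have hg : ∏ q with x q ∉ m, x q ∈ R := prod_mem fun q _ => hxR q
  refine ⟨_, hg, ?_, ⟨_, eig_prod _ fun q _ => hx q⟩, fun α y hy hα hm => ?_⟩
  · refine (Finset.prod_induction x (fun y => y ∈ R ∧ y ∉ m) (fun a b ha hb =>
      ⟨mul_mem ha.1 hb.1, fun h => (P.prime a ha.1 b hb.1 h).elim ha.2 hb.2⟩) ⟨one_mem _, P.one⟩
      fun q hq => ⟨hxR q, (Finset.mem_filter.1 hq).2⟩).2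
  have h1 := mem_of_iSup (monSpan_le hx) (mem_iSup_monSpan x β (e ▸ hy)) hα
  obtain ⟨_, ⟨a, rfl, rfl⟩, h2⟩ : ∃ u ∈ {y | ∃ a : ι → ℕ, ∑ q, a q • β q = α ∧ y = ∏ q, x q ^ a q},
      u ∉ m := by
    by_contra hn
    push Not at hn
    exact hm (Submodule.span_le.2 hn h1)
  refine ⟨_, prod_mem fun q _ => pow_mem (hxR q) _, eig_prod _ fun q _ => eig_pow (hx q) _, ?_⟩
  refine Finset.prod_induction (fun q => x q ^ a q)
    (fun u => ∃ w ∈ R, ∃ k : ℕ, u * w = (∏ q with x q ∉ m, x q) ^ k) ?_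
    ⟨1, one_mem _, 0, by simp⟩ fun q _ => ?_
  · rintro u v ⟨w, hw, k, h3⟩ ⟨w', hw', l, h4⟩
    exact ⟨_, mul_mem hw hw', k + l, by rw [pow_add, ← h3, ← h4]; ring⟩
  · by_cases h3 : x q ∈ m
    · obtain h4 | h4 := (a q).eq_zero_or_pos
      · exact ⟨1, one_mem _, 0, by simp [h4]⟩
      refine (h2 ?_).elim
      rw [← Finset.prod_erase_mul _ _ (Finset.mem_univ q), ← Nat.sub_add_cancel h4, pow_succ,
        ← mul_assoc]
      exact P.mul_mem _ (mul_mem (prod_mem fun q _ => pow_mem (hxR q) _) (pow_mem (hxR q) _)) _ h3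
    · refine ⟨_, pow_mem (prod_mem fun q' (_ : q' ∈ (Finset.univ.filter fun q => x q ∉ m).erase q) =>
        hxR q') (a q), a q, ?_⟩
      rw [← mul_pow, Finset.mul_prod_erase _ _ (by simpa using h3)]

theorem Good.local (G : Good H R) (P : Pt H R m) (hres : ∀ r ∈ R, ∃ c, r - algebraMap ℂ K c ∈ m) :
    ∃ s ∈ R, s ∉ m ∧ ∃ R' : Subalgebra ℂ K, (∀ y, y ∈ R' ↔ ∃ k : ℕ, s ^ k * y ∈ R) ∧
      ∃ (μ t : Fin n → K) (N : ℕ) (ℓ : Fin N → Fin n → ℤ), AlgebraicIndependent ℂ (Sum.elim μ t) ∧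
        (∀ j, ℓ j ≠ 0) ∧ (∀ j k, (∀ a b, ℓ j a * ℓ k b = ℓ j b * ℓ k a) → j = k) ∧
        (∀ a, (∀ j, dot (ℓ j) a = 0) → a = 0) ∧
        (∃ hle : hyp μ t ℓ ≤ R', (Subalgebra.inclusion hle).toRingHom.Etale) ∧
        (∀ i, ∃ k : ℕ, s ^ k * μ i ∈ m) ∧ ∀ a ≠ 0, ∃ k : ℕ, s ^ k * rr μ t ℓ a ∈ m := by
  obtain ⟨g, hg, hgm, ⟨δ, hδ⟩, hcl⟩ := G.closed_orbit P
  have hg0 : g ≠ 0 := fun h => hgm (h ▸ m.zero_mem)
  obtain ⟨R₁, G₁, hR₁⟩ := G.away hg hδ hg0
  obtain ⟨m₁, hm₁, P₁⟩ := P.away hg hgm hR₁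
  obtain ⟨N, ℓ, t, h0, h1, ht, ht1, hz, h3, h4⟩ := G₁.struct P₁
  obtain ⟨s₁, hs₁, hsm, R₂, hR₂, hle, het⟩ := G₁.etale_hyp P₁ ht ht1 hz h3 h4
  obtain ⟨m₂, hm₂, P₂⟩ := P₁.away hs₁.1 hsm hR₂
  obtain ⟨j₀, hj₀⟩ := (hR₁ _).1 hs₁.1
  have hs : g * (g ^ j₀ * s₁) ∈ R := mul_mem hg hj₀
  have hsm' : g * (g ^ j₀ * s₁) ∉ m := fun h => hsm ((hm₁ _).2 ⟨j₀ + 1, by
    convert h using 1; ring⟩)
  have e1 : ∀ y, y ∈ R₂ ↔ ∃ k : ℕ, (g * (g ^ j₀ * s₁)) ^ k * y ∈ R := fun y => by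
    refine Iff.trans ?_ (two_loc (R : Set K) (fun _ h _ h' => mul_mem h h') hg hj₀ y)
    simp only [hR₂, hR₁, SetLike.mem_coe]
  have e2 : ∀ y, y ∈ m₂ ↔ ∃ k : ℕ, (g * (g ^ j₀ * s₁)) ^ k * y ∈ m := fun y => by
    refine Iff.trans ?_ (two_loc (m : Set K) P.mul_mem hg hj₀ y)
    simp only [hm₂, hm₁, SetLike.mem_coe]
  generalize g * (g ^ j₀ * s₁) = s at hs hsm' e1 e2
  have hr0 : ∀ α, rr H.mu t ℓ α ≠ 0 := fun α => mul_ne_zero (tpow_ne ht α)
    (Finset.prod_ne_zero_iff.2 fun j _ => pow_ne_zero _ (hz j))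
  have hr1 : ∀ α, rr H.mu t ℓ α ∈ H.deg α := fun α => eig_mul_zero (eig_tpow ht1 α)
    (prod_mem (S := H.F) fun j _ => pow_mem (H.A_le_F (H.lin_A _)) _)
  have h5 : ∀ α, (∃ j, dot (ℓ j) α ≠ 0) → rr H.mu t ℓ α ∈ m₂ := by
    rintro α ⟨j, hj⟩
    obtain ⟨σ, hσ, hσ1, h6⟩ := h3 α
    have h7 : σ * rr H.mu t ℓ α ∈ m₁ := by
      by_contra hn
      obtain ⟨k, hk⟩ := (hR₁ _).1 h6
      obtain ⟨u, hu, hu1, w, hw, l, e⟩ := hcl _ _ hk
        (eig_mul (eig_pow hδ k) (eig_zero_mul hσ.2 (hr1 α))) fun h => hn ((hm₁ _).2 ⟨k, h⟩)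
      have hgk := pow_ne_zero k hg0
      have hu0 : u ≠ 0 := left_ne_zero_of_mul (e ▸ pow_ne_zero l hg0)
      have hd : u / g ^ k ∈ H.deg α := by simpa using eig_div hu1 (eig_pow hδ k)
      obtain ⟨a, ha, ha1, ha2⟩ := h4 _ _ ((hR₁ _).2 ⟨k, by rwa [mul_div_cancel₀ _ hgk]⟩) hd
      obtain ⟨b, hb, hb1, hb2⟩ := h4 _ _ ((hR₁ _).2 ⟨l, by
        rw [← e, inv_div, show u * w * (g ^ k / u) = w * g ^ k by field_simp]
        exact mul_mem hw (pow_mem hg k)⟩) (eig_inv hd)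
      refine (P₁.prime a ha.1 b hb.1 ?_).elim ha1 hb1
      have e3 : a * b = a * (u / g ^ k / rr H.mu t ℓ α) * (b * ((u / g ^ k)⁻¹ / rr H.mu t ℓ (-α))) *
          (rr H.mu t ℓ α * rr H.mu t ℓ (-α)) := by
        have := hr0 α
        have := hr0 (-α)
        field_simp
      obtain ⟨c, hc⟩ : ∃ c, (dot (ℓ j) α).toNat + (dot (ℓ j) (-α)).toNat = c + 1 :=
        ⟨(dot (ℓ j) α).toNat + (dot (ℓ j) (-α)).toNat - 1, by rw [dot_neg]; omega⟩
      rw [e3, rr_mul ht, add_neg_cancel, tpow_zero, one_mul,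
        ← Finset.prod_erase_mul _ _ (Finset.mem_univ j), hc, pow_succ, ← mul_assoc, ← mul_assoc]
      exact P₁.mul_mem _ (mul_mem (mul_mem (mul_mem ha2.1 hb2.1) (prod_mem fun j _ =>
        pow_mem (G₁.A_le (H.lin_A _)) _)) (pow_mem (G₁.A_le (H.lin_A _)) _)) _ (P₁.lin_mem _)
    refine (P₂.prime σ ((hR₂ _).2 ⟨0, by simpa using hσ.1⟩) _ (hle (rr_mem α))
      ((hm₂ _).2 ⟨0, by simpa using h7⟩)).resolve_left fun h => ?_
    obtain ⟨k, hk⟩ := (hm₂ _).1 h
    exact (P₁.prime _ (pow_mem hs₁.1 k) _ hσ.1 hk).elim (P₁.pow_notMem hs₁.1 hsm k) hσ1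
  obtain ⟨μ', t', ℓ', p, hsemi, g0, g1, g2, g3, e, g4, g5⟩ :=
    basis_change (μ := H.mu) ⟨ht, H.pd, H.ξ, H.pd_mu, H.comm, ht1⟩ h0 h1
  have h6 : ∀ y ∈ R₂, ∃ c, y - algebraMap ℂ K c ∈ m₂ := fun y hy => by
    obtain ⟨k, hk⟩ := (e1 y).1 hy
    obtain ⟨c, hc⟩ := hres _ hk
    obtain ⟨d, hd⟩ := hres _ (pow_mem hs k)
    have hd0 : d ≠ 0 := fun h => P.pow_notMem hs hsm' k (by simpa [h] using hd)
    refine ⟨c / d, (e2 _).2 ⟨k, ?_⟩⟩
    convert sub_mem hc (m.smul_mem (c / d) hd) using 1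
    have : algebraMap ℂ K d ≠ 0 := by simpa using hd0
    rw [Algebra.smul_def, map_div₀]
    field_simp
    ring
  have h7 : ∀ i, ∃ c, p i → t' i - algebraMap ℂ K c ∈ m₂ := fun i => by
    by_cases hp : p i
    · have := hle (e ▸ rr_mem (μ := μ') (t := t') (ℓ := ℓ') (Pi.single i 1))
      rw [rr, tpow_single, zz, Finset.prod_eq_one fun j _ => by simp [dot_single, g2 i hp],
        mul_one] at this
      exact (h6 _ this).imp fun c hc _ => hc
    · exact ⟨0, fun h => (hp h).elim⟩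
  choose c hc using h7
  obtain ⟨μ'', t'', N', ℓ'', f0, f1, f2, f3, ⟨hle', het'⟩, f4⟩ := fill hsemi g0 g1 p g2 g3 c
  obtain ⟨f5, f6⟩ := f4 m₂ (fun r hr => P₂.mul_mem r (hle (e ▸ hr))) (fun i => by
    obtain ⟨l, hl⟩ := g4 i
    exact hl ▸ P₂.lin_mem l) (fun a ha => by
      obtain ⟨α, f7, f8⟩ := g5 a
      exact f7 ▸ h5 α (by simpa [f8] using ha)) hc
  refine ⟨s, hs, hsm', R₂, e1, μ'', t'', N', ℓ'', f0, f1, f2, f3, ⟨hle'.trans (e ▸ hle), ?_⟩,
    fun i => (e2 _).1 (f5 i), fun a ha => (e2 _).1 (f6 a ha)⟩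
  exact RingHom.Etale.stableUnderComposition _ _ (RingHom.Etale.stableUnderComposition _ _ het'
    (RingHom.Etale.of_bijective (f := (Subalgebra.inclusion e.le).toRingHom)
      (Subalgebra.equivOfEq _ _ e).bijective)) het

end Pool.Agent.MP_51db15_ag

end MrgPart2

-- marker of a merged file
example : 731051 + 357122 = 731051 + 357122 := rfl
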