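import Mathlib.Algebra.GradedMonoid
import Mathlib.LinearAlgebra.BilinearForm.Properties
import Mathlib.RingTheory.Derivation.Lie
import Mathlib.Analysis.CStarAlgebra.Classes
import Mathlib.RingTheory.RegularLocalRing.Defs

/-! Symplectic singularities of affine varieties over the complex numbers, written in the
function field. A rational vector field is a derivation of the function field `K`, a rational
2-form is a `K`-bilinear form on rational vector fields. -/

namespace Pool.Agent.MP_51db15_ag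

section Forms

variable {K : Type} [Field K] [Algebra ℂ K]

/-- `ω` is alternating and `dω = 0` (Cartan formula). -/
def IsClosedForm (ω : LinearMap.BilinForm K (Derivation ℂ K K)) : Prop :=
  ω.IsAlt ∧ ∀ X Y Z : Derivation ℂ K K,
    X (ω Y Z) - Y (ω X Z) + Z (ω X Y) - ω ⁅X, Y⁆ Z + ω ⁅X, Z⁆ Y - ω ⁅Y, Z⁆ X = 0

/-- `ω` is regular on the ring of functions `O`: it takes values in `O` on vector fields that
preserve `O`. -/
def RegularOn (ω : LinearMap.BilinForm K (Derivation ℂ K K)) (O : Set K) : Prop :=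
  ∀ X Y : Derivation ℂ K K, (∀ a ∈ O, X a ∈ O) → (∀ a ∈ O, Y a ∈ O) → ω X Y ∈ O

/-- `ω` is non-degenerate on `O`: every `df` with `f ∈ O` is `ω (X, ·)` for a vector field `X`
that preserves `O`. -/
def NondegOn (ω : LinearMap.BilinForm K (Derivation ℂ K K)) (O : Set K) : Prop :=
  ∀ f ∈ O, ∃ X : Derivation ℂ K K, (∀ a ∈ O, X a ∈ O) ∧ ∀ Y, ω X Y = Y f

/-- The local ring of `Spec R` at `p`, inside the function field. -/
def stalk (R : Type) [CommRing R] [Algebra R K] (p : Ideal R) : Set K :=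
  {y | ∃ a s : R, s ∉ p ∧ y = algebraMap R K a / algebraMap R K s}

/-- `ω` is a symplectic form on the regular locus of `Spec R`. -/
def SymplecticOnReg (R : Type) [CommRing R] [Algebra R K]
    (ω : LinearMap.BilinForm K (Derivation ℂ K K)) : Prop :=
  IsClosedForm ω ∧ ∀ (p : Ideal R) [p.IsPrime], IsRegularLocalRing (Localization.AtPrime p) →
    RegularOn ω (stalk R p) ∧ NondegOn ω (stalk R p)

/-- `Spec S` with the form `ω` and the action of the multiplicative group given by the grading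
`𝒢` is a conical symplectic variety: normal affine variety with function field `K`, symplectic
on the regular locus, `ω` extends to every normal Noetherian model (in particular to the local
rings of every resolution), the action is good, and `ω` has positive weight. -/
structure IsConicalSymplectic (S : Subalgebra ℂ K) (ω : LinearMap.BilinForm K (Derivation ℂ K K))
    (𝒢 : ℕ → Submodule ℂ S) : Prop where
  finiteType : Algebra.FiniteType ℂ S
  fractionField : IsFractionRing S K
  normal : IsIntegrallyClosed S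
  symplectic : SymplecticOnReg S ω
  extend : ∀ O : Subring K, S.toSubring ≤ O → IsNoetherianRing O → IsIntegrallyClosed O →
    RegularOn ω O
  graded : SetLike.GradedMonoid 𝒢
  internal : DirectSum.IsInternal 𝒢
  good : ∀ f ∈ 𝒢 0, ∃ c : ℂ, f = algebraMap ℂ S c
  weight : ∃ w : ℕ, 0 < w ∧ ∀ (c : ℂˣ) (σ : K ≃ₐ[ℂ] K),
    (∀ d, ∀ f ∈ 𝒢 d, σ f = (c : ℂ) ^ d • (f : K)) → ∀ X Y X' Y' : Derivation ℂ K K,
      (∀ y, X' (σ y) = σ (X y)) → (∀ y, Y' (σ y) = σ (Y y)) →
        σ (ω X Y) = (c : ℂ) ^ w • ω X' Y'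

/-- The action of the torus of rank `n` given by the grading `𝒜` is Hamiltonian with moment map
`μ`. -/
def IsMomentMap {R : Type} [CommRing R] [Algebra ℂ R] [Algebra R K] {n : ℕ}
    (𝒜 : (Fin n → ℤ) → Submodule ℂ R) (ω : LinearMap.BilinForm K (Derivation ℂ K K))
    (μ : Fin n → R) : Prop :=
  ∀ i, μ i ∈ 𝒜 0 ∧ ∃ ξ : Derivation ℂ K K,
    (∀ α, ∀ f ∈ 𝒜 α, ξ (algebraMap R K f) = (α i : ℂ) • algebraMap R K f) ∧
      ∀ Y, ω ξ Y = Y (algebraMap R K (μ i))

end Forms

/-- The field of rational functions in `μ₁, …, μₙ, t₁, …, tₙ`. -/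
abbrev K0 (n : ℕ) : Type := FractionRing (MvPolynomial (Fin n ⊕ Fin n) ℂ)

/-- The variables `μᵢ = var (inl i)` and `tᵢ = var (inr i)`. -/
noncomputable def var {n : ℕ} (a : Fin n ⊕ Fin n) : K0 n :=
  algebraMap (MvPolynomial (Fin n ⊕ Fin n) ℂ) (K0 n) (MvPolynomial.X a)

/-- The hypertoric (abelian Coulomb branch) algebra of integer vectors `ℓ₁, …, ℓ_N`: generated
by the `μᵢ` and by the `t ^ α * ∏ⱼ ℓⱼ(μ) ^ max (ℓⱼ · α, 0)`. -/
noncomputable def hypertoric {n N : ℕ} (ℓ : Fin N → Fin n → ℤ) : Subalgebra ℂ (K0 n) :=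
  Algebra.adjoin ℂ (Set.range (fun i => var (Sum.inl i)) ∪ Set.range fun α : Fin n → ℤ =>
    (∏ i, var (Sum.inr i) ^ α i) *
      ∏ j, (∑ i, (ℓ j i : K0 n) * var (Sum.inl i)) ^ (∑ i, ℓ j i * α i).toNat)

end Pool.Agent.MP_51db15_ag
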