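import Mathlib.Tactic.Monotonicity.Lemmas
import Mathlib.Algebra.DualNumber
import Mathlib.Algebra.GroupWithZero.Submonoid.CancelMulZero
import Mathlib.RingTheory.Flat.TorsionFree
import Mathlib.Data.Int.ConditionallyCompleteOrder
import Mathlib.RingTheory.PicardGroup
import Mathlib.Data.Complex.Basic
import Mathlib.RingTheory.Valuation.Discrete.IsDiscreteValuationRing
import Mathlib.RingTheory.RingHom.Etale
import Mathlib.RingTheory.SimpleRing.Principal
import Mathlib.RingTheory.TotallySplit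
import Mathlib.RingTheory.Etale.Weakly
import Mathlib.RingTheory.Henselian
import Mathlib.RingTheory.MvPolynomial.IrreducibleQuadratic
import Mathlib.RingTheory.RegularLocalRing.Defs

-- ======== part 0: formerly Pool.Agent.MP_51db15_ag.Key
section MrgPart0

/-! A finitely generated algebraic extension of a differentially simple domain to which the
derivations extend is etale. -/

namespace Pool.Agent.MP_51db15_ag

open MvPolynomial Algebra

section Lift

variable {A B σ : Type} [CommRing A] [CommRing B] [Algebra A B] [Fintype σ] [DecidableEq σ]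

/-- an additive map with the Leibniz rule -/
def Leib {A : Type} [CommRing A] (d : A →+ A) : Prop := ∀ a b, d (a * b) = a * d b + b * d a

omit [Fintype σ] [DecidableEq σ] in
theorem exists_lift (d : A →+ A) (hd : Leib d) (c : σ → MvPolynomial σ A) :
    ∃ D : MvPolynomial σ A →+ MvPolynomial σ A, Leib D ∧ (∀ a, D (C a) = C (d a)) ∧
      ∀ k, D (X k) = c k := by
  have h1 : d 1 = 0 := by
    have := hd 1 1
    simp only [mul_one, one_mul] at this
    exact left_eq_add.1 this
  let φ : A →+* TrivSqZeroExt (MvPolynomial σ A) (MvPolynomial σ A) :=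
    { toFun := fun a => TrivSqZeroExt.inl (C a) + TrivSqZeroExt.inr (C (d a))
      map_one' := by ext <;> simp [h1]
      map_mul' := fun a b => by
        ext1
        · simp
        · simp [hd a b]; ring
      map_zero' := by ext <;> simp
      map_add' := fun a b => by ext1 <;> simp }
  let Ψ := eval₂Hom φ fun k => TrivSqZeroExt.inl (X k) + TrivSqZeroExt.inr (c k)
  have hfst : ∀ p, (Ψ p).fst = p := fun p => by
    induction p using MvPolynomial.induction_on with
    | C a => simp [Ψ, φ]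
    | add p q hp hq => simp [hp, hq]
    | mul_X p k hp => rw [map_mul, TrivSqZeroExt.fst_mul, hp]; simp [Ψ]
  refine ⟨⟨⟨fun p => (Ψ p).snd, by simp⟩, fun p q => by simp⟩, fun p q => ?_, fun a => ?_,
    fun k => ?_⟩
  · change (Ψ (p * q)).snd = p * (Ψ q).snd + q * (Ψ p).snd
    rw [map_mul, TrivSqZeroExt.snd_mul, hfst, hfst]
    simp [mul_comm]
  · simp [Ψ, φ]
  · simp [Ψ]

theorem lift_comm {d : A →+ A} {c : σ → MvPolynomial σ A}
    {D : MvPolynomial σ A →+ MvPolynomial σ A} (hD : Leib D) (hC : ∀ a, D (C a) = C (d a))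
    (hX : ∀ k, D (X k) = c k) (k : σ) (q : MvPolynomial σ A) :
    pderiv k (D q) = D (pderiv k q) + ∑ l, pderiv k (c l) * pderiv l q := by
  have h1 : D 1 = 0 := by
    have := hD 1 1
    simp only [mul_one, one_mul] at this
    exact left_eq_add.1 this
  induction q using MvPolynomial.induction_on with
  | C a => simp [hC]
  | add p q hp hq => simp only [map_add, hp, hq, mul_add, Finset.sum_add_distrib]; ring
  | mul_X p m hp =>
    have e : ∑ l, pderiv k (c l) * pderiv l (p * X m) =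
        p * pderiv k (c m) + X m * ∑ l, pderiv k (c l) * pderiv l p := by
      simp only [Derivation.leibniz, smul_eq_mul, pderiv_X, mul_add, Finset.sum_add_distrib,
        Finset.mul_sum]
      congr 1
      · rw [Finset.sum_eq_single m]
        · simp [mul_comm]
        · intro l _ hl; simp [Pi.single_eq_of_ne hl.symm]
        · simp
      · exact Finset.sum_congr rfl fun l _ => by ring
    have hδ : D (pderiv k (X m : MvPolynomial σ A)) = 0 := by
      by_cases h : m = k
      · subst h; simp [h1]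
      · simp [pderiv_X, Pi.single_eq_of_ne h]
    rw [e, hD, hX]
    simp only [map_add, Derivation.leibniz, smul_eq_mul, hp, hD _ _, hδ, hX]
    ring

omit [Fintype σ] [DecidableEq σ] in
theorem lift_proj {d : A →+ A} {e : B →+ B} (he : Leib e) (hc : ∀ a, e (algebraMap A B a) =
    algebraMap A B (d a)) {val : σ → B} {c : σ → MvPolynomial σ A}
    (hv : ∀ k, aeval val (c k) = e (val k))
    {D : MvPolynomial σ A →+ MvPolynomial σ A} (hD : Leib D) (hC : ∀ a, D (C a) = C (d a))
    (hX : ∀ k, D (X k) = c k) (q : MvPolynomial σ A) :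
    aeval val (D q) = e (aeval val q) := by
  induction q using MvPolynomial.induction_on with
  | C a => simp [hC, hc]
  | add p q hp hq => simp [hp, hq]
  | mul_X p m hp => rw [hD, hX, map_mul, he]; simp [hp, hv]

end Lift

theorem kill {A B M : Type} [CommRing A] [CommRing B] [IsDomain B] [Algebra A B]
    [Algebra.IsAlgebraic A B] [AddCommGroup M] [Module B M] [Module.Finite B M]
    (h : Module.IsTorsion B M) : ∃ a : A, a ≠ 0 ∧ ∀ x : M, algebraMap A B a • x = 0 := by
  obtain ⟨b, hb, hb0⟩ := Submodule.annihilator_top_inter_nonZeroDivisors h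
  obtain ⟨a, ha, c, hc⟩ := (Algebra.IsAlgebraic.isAlgebraic (R := A) b).exists_nonzero_dvd hb0
  refine ⟨a, ha, fun x => ?_⟩
  rw [hc, mul_comm, mul_smul, Submodule.mem_annihilator.1 hb x trivial, smul_zero]

theorem generic (A B : Type) [CommRing A] [CommRing B] [IsDomain A] [IsDomain B] [Algebra A B]
    [CharZero A] [FaithfulSMul A B] [Algebra.IsAlgebraic A B] :
    Algebra.FormallyEtale A (FractionRing B) := by
  let := FractionRing.liftAlgebra A (FractionRing B)
  have : Algebra.IsAlgebraic (FractionRing A) (FractionRing B) := inferInstance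
  have : Algebra.FormallyEtale A (FractionRing A) :=
    Algebra.FormallyEtale.of_isLocalization (nonZeroDivisors A)
  have : Algebra.FormallyEtale (FractionRing A) (FractionRing B) :=
    Algebra.FormallyEtale.of_isSeparable _ _
  exact Algebra.FormallyEtale.comp A (FractionRing A) (FractionRing B)

theorem key {A B ι : Type} [CommRing A] [CommRing B] [IsDomain A] [IsDomain B] [Algebra A B]
    [CharZero A] [FaithfulSMul A B] [Algebra.IsAlgebraic A B] [IsNoetherianRing A]
    [Algebra.FiniteType A B] (d : ι → A →+ A) (e : ι → B →+ B) (hd : ∀ i, Leib (d i))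
    (he : ∀ i, Leib (e i)) (hc : ∀ i a, e i (algebraMap A B a) = algebraMap A B (d i a))
    (simple : ∀ I : Ideal A, I ≠ ⊥ → (∀ i, ∀ a ∈ I, d i a ∈ I) → I = ⊤) :
    Algebra.Etale A B := by
  classical
  have hfp : Algebra.FinitePresentation A B := Algebra.FinitePresentation.of_finiteType.1 ‹_›
  have : IsNoetherianRing B := Algebra.FiniteType.isNoetherianRing A B
  obtain ⟨n, ⟨P⟩⟩ := (FiniteType.iff_exists_generators (R := A) (S := B)).mp inferInstance
  have hg := generic A B
  set π : MvPolynomial (Fin n) A →ₐ[A] B := aeval P.val with hπ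
  have hker : ∀ x, x ∈ P.toExtension.ker ↔ π x = 0 := fun x => by
    change x ∈ P.ker ↔ _
    rw [P.ker_eq_ker_aeval_val]
    exact RingHom.mem_ker
  have hrepr : ∀ (x : P.toExtension.ker) k, P.cotangentSpaceBasis.repr
      (P.toExtension.cotangentComplex (Extension.Cotangent.mk x)) k = π (pderiv k x.1) :=
    fun x k => by
      rw [Extension.cotangentComplex_mk]
      exact P.cotangentSpaceBasis_repr_one_tmul _ _
  have hlift : ∀ i, ∃ (D : MvPolynomial (Fin n) A →+ MvPolynomial (Fin n) A)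
      (γ : Fin n → Fin n → B), Leib D ∧ (∀ a, D (C a) = C (d i a)) ∧
      (∀ q, π (D q) = e i (π q)) ∧
      ∀ k q, π (pderiv k (D q)) = e i (π (pderiv k q)) + ∑ l, γ k l * π (pderiv l q) := by
    intro i
    obtain ⟨D, h1, h2, h3⟩ := exists_lift (d i) (hd i) fun k => P.σ (e i (P.val k))
    have h4 := lift_proj (he i) (hc i) (val := P.val) (fun k => P.aeval_val_σ _) h1 h2 h3
    refine ⟨D, fun k l => π (pderiv k (P.σ (e i (P.val l)))), h1, h2, h4, fun k q => ?_⟩
    rw [lift_comm h1 h2 h3, map_add, map_sum, h4]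
    simp [hπ]
  -- the differentials vanish
  have hΩ : Subsingleton Ω[B⁄A] := by
    obtain ⟨a, ha, hkill⟩ := kill (A := A) (B := B) (M := Ω[B⁄A]) fun x => by
      obtain ⟨s, hs⟩ := (IsLocalizedModule.eq_zero_iff (nonZeroDivisors B)
        (KaehlerDifferential.map A A B (FractionRing B))).1
          (Subsingleton.elim (KaehlerDifferential.map A A B (FractionRing B) x) 0)
      exact ⟨s, hs⟩
    let I : Ideal A :=
      { carrier := {a | ∀ p, ∃ x, π x = 0 ∧ ∀ k, π (pderiv k x) =
          algebraMap A B a * π (pderiv k p)}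
        add_mem' := fun {a b} ha hb p => by
          obtain ⟨x, hx, h1⟩ := ha p
          obtain ⟨y, hy, h2⟩ := hb p
          exact ⟨x + y, by simp [hx, hy], fun k => by simp [h1, h2, add_mul]⟩
        zero_mem' := fun p => ⟨0, by simp, by simp⟩
        smul_mem' := fun c a ha p => by
          obtain ⟨x, hx, h1⟩ := ha p
          exact ⟨C c * x, by simp [hx], fun k => by
            rw [pderiv_C_mul, map_mul, h1, algHom_C, smul_eq_mul, map_mul, mul_assoc]⟩ }
    have haI : a ∈ I := fun p => by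
      have h0 := (P.toExtension.exact_cotangentComplex_toKaehler
        (algebraMap A B a • (1 ⊗ₜ KaehlerDifferential.D A P.toExtension.Ring p))).1
        (by rw [map_smul, hkill])
      obtain ⟨x, hx⟩ := h0
      obtain ⟨x, rfl⟩ := Extension.Cotangent.mk_surjective x
      refine ⟨x.1, (hker _).1 x.2, fun k => ?_⟩
      rw [← hrepr, hx, map_smul, Finsupp.smul_apply, smul_eq_mul]
      congr 1
      exact P.cotangentSpaceBasis_repr_one_tmul _ _
    have hI : I = ⊤ := simple I (fun h => ha (by simpa [h] using haI)) fun i a ha p => by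
      obtain ⟨D, γ, -, -, h3, h4⟩ := hlift i
      obtain ⟨x, hx, h1⟩ := ha p
      obtain ⟨y, hy, h2⟩ := ha (D p)
      refine ⟨D x - y, by simp [h3, hx, hy], fun k => ?_⟩
      rw [map_sub, map_sub, h2, h4, h4, h1, he i, hc]
      simp only [h1, mul_add, Finset.mul_sum]
      rw [Finset.sum_congr rfl fun l _ => mul_left_comm (γ k l) _ _]
      ring
    have h1 : (1 : A) ∈ I := hI ▸ Submodule.mem_top
    have hsurj : LinearMap.range P.toExtension.cotangentComplex = ⊤ := by
      rw [_root_.eq_top_iff, ← P.cotangentSpaceBasis.span_eq, Submodule.span_le]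
      rintro _ ⟨k, rfl⟩
      obtain ⟨x, hx, h2⟩ := h1 (X k)
      refine ⟨Extension.Cotangent.mk ⟨x, (hker x).2 hx⟩, P.cotangentSpaceBasis.repr.injective ?_⟩
      ext l
      rw [hrepr, h2, Module.Basis.repr_self, pderiv_X]
      by_cases h : k = l
      · subst h; simp
      · simp [Pi.single_eq_of_ne h, Finsupp.single_eq_of_ne (Ne.symm h)]
    refine subsingleton_of_forall_eq 0 fun w => ?_
    obtain ⟨z, rfl⟩ := P.toExtension.toKaehler_surjective w
    exact (P.toExtension.exact_cotangentComplex_toKaehler z).2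
      (LinearMap.range_eq_top.1 hsurj z)
  -- the first homology vanishes
  have hH : Subsingleton (H1Cotangent A B) := by
    have : Module.Finite B P.toExtension.Cotangent :=
      Extension.Cotangent.finite (IsNoetherian.noetherian (R := MvPolynomial (Fin n) A)
        (M := MvPolynomial (Fin n) A) _)
    have : Module.Finite B P.toExtension.H1Cotangent :=
      Module.Finite.of_injective _ P.toExtension.h1Cotangentι_injective
    obtain ⟨a, ha, hkill⟩ := kill (A := A) (B := B) (M := P.toExtension.H1Cotangent) fun x => by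
      obtain ⟨s, hs⟩ := (IsLocalizedModule.eq_zero_iff (nonZeroDivisors B)
        (H1Cotangent.map A A B (FractionRing B))).1
          (Subsingleton.elim (H1Cotangent.map A A B (FractionRing B) (P.equivH1Cotangent x)) 0)
      refine ⟨s, P.equivH1Cotangent.injective ?_⟩
      rw [map_zero, ← hs, Submonoid.smul_def, Submonoid.smul_def, map_smul]
    let J : Ideal (MvPolynomial (Fin n) A) := P.toExtension.ker
    let I : Ideal A :=
      { carrier := {a | ∀ x, π x = 0 → (∀ k, π (pderiv k x) = 0) → C a * x ∈ J ^ 2}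
        add_mem' := fun {a b} ha hb x h1 h2 => by
          rw [map_add, add_mul]; exact add_mem (ha x h1 h2) (hb x h1 h2)
        zero_mem' := fun x _ _ => by simp
        smul_mem' := fun c a ha x h1 h2 => by
          rw [smul_eq_mul, map_mul, mul_assoc]; exact Ideal.mul_mem_left _ _ (ha x h1 h2) }
    have hmem : ∀ (x : P.toExtension.ker), (∀ k, π (pderiv k x.1) = 0) →
        Extension.Cotangent.mk x ∈ LinearMap.ker P.toExtension.cotangentComplex := fun x h => by
      refine P.cotangentSpaceBasis.repr.injective ?_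
      ext k
      rw [hrepr, h]; simp
    have haI : a ∈ I := fun x h1 h2 => by
      have := congr(($(hkill ⟨_, hmem ⟨x, (hker x).2 h1⟩ h2⟩)).1)
      rw [Extension.H1Cotangent.val_smul, Extension.H1Cotangent.val_zero] at this
      have h3 : Extension.Cotangent.mk (P := P.toExtension)
          ((show P.toExtension.Ring from (C a : MvPolynomial (Fin n) A)) •
            ⟨x, (hker x).2 h1⟩) = 0 := by
        rw [map_smul, ← this, ← algebraMap_smul B]
        congr 1
        change algebraMap P.Ring B (C a) = _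
        rw [P.algebraMap_apply]; simp
      exact (Extension.Cotangent.mk_eq_zero_iff _).1 h3
    have hI : I = ⊤ := simple I (fun h => ha (by simpa [h] using haI)) fun i a ha x h1 h2 => by
      obtain ⟨D, γ, hD, hC, h3, h4⟩ := hlift i
      have hJ : ∀ y ∈ J, D y ∈ J := fun y hy => (hker _).2 (by rw [h3, (hker y).1 hy, map_zero])
      have hJ2 : ∀ y ∈ J ^ 2, D y ∈ J ^ 2 := fun y hy => by
        rw [pow_two] at hy ⊢
        refine Submodule.mul_induction_on hy (fun u hu w hw => ?_) fun u w hu hw => ?_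
        · rw [hD]
          exact add_mem (Ideal.mul_mem_mul hu (hJ w hw)) (Ideal.mul_mem_mul hw (hJ u hu))
        · rw [map_add]; exact add_mem hu hw
      have h5 := hJ2 _ (ha x h1 h2)
      rw [hD, hC] at h5
      have h6 := ha (D x) (by rw [h3, h1, map_zero]) fun k => by simp [h4, h2]
      simpa [mul_comm] using sub_mem h5 h6
    have h1 : (1 : A) ∈ I := hI ▸ Submodule.mem_top
    have : Subsingleton P.toExtension.H1Cotangent := by
      refine subsingleton_of_forall_eq 0 fun w => Subtype.ext ?_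
      obtain ⟨w, hw⟩ := w
      obtain ⟨x, rfl⟩ := Extension.Cotangent.mk_surjective w
      refine (Extension.Cotangent.mk_eq_zero_iff _).2 ?_
      have h2 := h1 x.1 ((hker _).1 x.2) fun k => by
        rw [← hrepr, LinearMap.mem_ker.1 hw]; simp
      rw [map_one, one_mul] at h2
      exact h2
    exact P.equivH1Cotangent.symm.injective.subsingleton
  exact ⟨⟨hΩ, hH⟩, hfp⟩

end Pool.Agent.MP_51db15_ag

end MrgPart0

-- ======== part 1: formerly Pool.Agent.MP_51db15_ag.Poly
section MrgPart1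

/-! Polynomials in coordinates with dual derivations; etale inclusions of subalgebras. -/

namespace Pool.Agent.MP_51db15_ag

open MvPolynomial

variable {K : Type} [Field K] [Algebra ℂ K]

theorem chain {k σ : Type} [CommRing k] [DecidableEq σ] (φ : k →+* K) (y : σ → K)
    (Y : Derivation ℂ K K) (a : σ) (hφ : ∀ c, Y (φ c) = 0)
    (hy : ∀ b, Y (y b) = if a = b then 1 else 0) (p : MvPolynomial σ k) :
    Y (eval₂ φ y p) = eval₂ φ y (pderiv a p) := by
  induction p using MvPolynomial.induction_on with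
  | C c => simp [hφ]
  | add p q hp hq => simp [eval₂_add, hp, hq]
  | mul_X p b hp =>
    rw [eval₂_mul, Y.leibniz, Derivation.leibniz, eval₂_X, hy, hp, smul_eq_mul, smul_eq_mul,
      smul_eq_mul, smul_eq_mul, eval₂_add, eval₂_mul, eval₂_mul, eval₂_X, pderiv_X]
    by_cases h : a = b
    · subst h; simp
    · simp [h]

theorem poly {k σ : Type} [CommRing k] [IsDomain k] [CharZero k] [DecidableEq σ] (φ : k →+* K)
    (y : σ → K) (Y : σ → Derivation ℂ K K) (hφ : ∀ a c, Y a (φ c) = 0)
    (hy : ∀ a b, Y a (y b) = if a = b then 1 else 0) (W : Set K) (hW : ∀ a, ∀ w ∈ W, Y a w ∈ W)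
    (p : MvPolynomial σ k) (hp : p ≠ 0) (h : eval₂ φ y p ∈ W) : ∃ c ≠ 0, φ c ∈ W := by
  induction hN : p.totalDegree using Nat.strong_induction_on generalizing p with
  | _ N ih =>
  by_cases h0 : N = 0
  · rw [h0, totalDegree_eq_zero_iff_eq_C] at hN
    refine ⟨coeff 0 p, fun hc => hp (by rw [hN, hc, map_zero]), ?_⟩
    rwa [hN, eval₂_C] at h
  obtain ⟨m, hm, hmN⟩ := Finset.exists_mem_eq_sup p.support (support_nonempty.2 hp)
    fun s => s.sum fun _ e => e
  change p.totalDegree = _ at hmN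
  obtain ⟨a, ha⟩ : ∃ a, m a ≠ 0 := by
    by_contra hc
    push Not at hc
    rw [show m = 0 from Finsupp.ext hc] at hmN
    simp [hN, h0] at hmN
  have e : m - Finsupp.single a 1 + Finsupp.single a 1 = m :=
    tsub_add_cancel_of_le (Finsupp.single_le_iff.2 (Nat.one_le_iff_ne_zero.2 ha))
  have hne : pderiv a p ≠ 0 := fun hz => by
    have := coeff_pderiv (i := a) p (m - Finsupp.single a 1)
    rw [hz, e, coeff_zero, eq_comm, mul_eq_zero] at this
    rcases this with h1 | h1
    · exact mem_support_iff.1 hm h1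
    · exact Nat.cast_add_one_ne_zero _ h1
  refine ih (pderiv a p).totalDegree ?_ _ hne (chain φ y (Y a) a (hφ a) (hy a) p ▸ hW a _ h) rfl
  rw [totalDegree, Finset.sup_lt_iff (Nat.pos_of_ne_zero h0)]
  intro s hs
  have h1 : s + Finsupp.single a 1 ∈ p.support := by
    rw [mem_support_iff] at hs ⊢
    intro hz
    exact hs (by rw [coeff_pderiv, hz, zero_mul])
  have h2 := le_totalDegree h1
  rw [Finsupp.sum_add_index' (fun _ => rfl) (fun _ _ _ => rfl), Finsupp.sum_single_index rfl] at h2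
  omega

theorem poly_adjoin {σ : Type} [DecidableEq σ] (y : σ → K) (Y : σ → Derivation ℂ K K)
    (hy : ∀ a b, Y a (y b) = if a = b then 1 else 0) (W : Set K) (hW : ∀ a, ∀ w ∈ W, Y a w ∈ W)
    {w : K} (hw : w ∈ Algebra.adjoin ℂ (Set.range y)) (h0 : w ≠ 0) (h : w ∈ W) :
    ∃ c ≠ 0, algebraMap ℂ K c ∈ W := by
  rw [Algebra.adjoin_range_eq_range_aeval] at hw
  obtain ⟨p, rfl⟩ := hw
  exact poly (algebraMap ℂ K) y Y (fun a c => (Y a).map_algebraMap c) hy W hW p
    (fun hp => h0 (by simp [hp])) h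

theorem algInd {σ : Type} [DecidableEq σ] (y : σ → K) (Y : σ → Derivation ℂ K K)
    (hy : ∀ a b, Y a (y b) = if a = b then 1 else 0) : AlgebraicIndependent ℂ y := by
  rw [algebraicIndependent_iff]
  intro p hp
  by_contra h0
  obtain ⟨c, hc, h⟩ := poly (algebraMap ℂ K) y Y (fun a c => (Y a).map_algebraMap c) hy {0}
    (fun a w hw => by rw [Set.mem_singleton_iff.1 hw]; simp) p h0 hp
  exact hc (by simpa using h)

/-- a derivation that kills a subalgebra kills what is algebraic over it -/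
theorem der_alg (Y : Derivation ℂ K K) (A : Subalgebra ℂ K) (hA : ∀ a ∈ A, Y a = 0) {y : K}
    (hy : IsAlgebraic A y) : Y y = 0 := by
  have : CharZero A := charZero_of_injective_algebraMap (algebraMap ℂ A).injective
  obtain ⟨p, hp, h⟩ := hy
  induction hN : p.natDegree using Nat.strong_induction_on generalizing p with
  | _ N ih =>
  have hc : ∀ q : Polynomial A, Y (Polynomial.aeval y q) =
      Polynomial.aeval y q.derivative * Y y := fun q => by
    induction q using Polynomial.induction_on' with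
    | add p q hp hq => simp [hp, hq, add_mul]
    | monomial m a =>
      simp [Polynomial.derivative_monomial, hA a a.2, mul_assoc]
  have h1 := hc p
  rw [h, map_zero, eq_comm, mul_eq_zero] at h1
  rcases h1 with h2 | h2
  swap
  · exact h2
  by_cases h0 : N = 0
  · rw [h0, Polynomial.natDegree_eq_zero] at hN
    obtain ⟨c, rfl⟩ := hN
    rw [Polynomial.aeval_C] at h
    exact (hp (by rw [show c = 0 from Subtype.ext h, map_zero])).elim
  · refine ih _ (hN ▸ Polynomial.natDegree_derivative_lt (hN ▸ h0)) _ (fun hz => h0 ?_) h2 rfl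
    rw [← hN]
    exact Polynomial.derivative_eq_zero.1 hz

theorem etale_sub {ι : Type} {A B : Subalgebra ℂ K} (h : A ≤ B) (hA : A.FG) (hB : B.FG)
    (halg : ∀ b ∈ B, IsAlgebraic A b) (X : ι → Derivation ℂ K K)
    (hXA : ∀ i, ∀ a ∈ A, X i a ∈ A) (hXB : ∀ i, ∀ a ∈ B, X i a ∈ B)
    (simple : ∀ W : Set K, (∀ a ∈ A, ∀ w ∈ W, a * w ∈ W) → (∀ i, ∀ w ∈ W, X i w ∈ W) →
      ∀ w ∈ W, w ∈ A → w ≠ 0 → (1 : K) ∈ W) :
    (Subalgebra.inclusion h).toRingHom.Etale := by
  let := (Subalgebra.inclusion h).toRingHom.toAlgebra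
  have : IsScalarTower ℂ A B := IsScalarTower.of_algebraMap_eq fun _ => rfl
  have : IsScalarTower A B K := IsScalarTower.of_algebraMap_eq fun _ => rfl
  have : Algebra.FiniteType ℂ A := (Subalgebra.fg_iff_finiteType A).1 hA
  have : Algebra.FiniteType ℂ B := (Subalgebra.fg_iff_finiteType B).1 hB
  have : IsNoetherianRing A := Algebra.FiniteType.isNoetherianRing ℂ A
  have : Algebra.FiniteType A B := Algebra.FiniteType.of_restrictScalars_finiteType ℂ A B
  have : CharZero A := charZero_of_injective_algebraMap (algebraMap ℂ A).injective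
  have : FaithfulSMul A B := (faithfulSMul_iff_algebraMap_injective A B).2
    (Subalgebra.inclusion_injective h)
  have : Algebra.IsAlgebraic A B := ⟨fun b =>
    (isAlgebraic_algebraMap_iff (R := A) (S := B) (A := K) Subtype.val_injective).1 (halg b b.2)⟩
  let r : ∀ (C : Subalgebra ℂ K), (∀ i, ∀ a ∈ C, X i a ∈ C) → ι → C →+ C := fun C hC i =>
    ⟨⟨fun a => ⟨X i a, hC i a a.2⟩, Subtype.ext (by simp)⟩, fun a b => Subtype.ext (by simp)⟩
  refine key (A := A) (B := B) (r A hXA) (r B hXB) (fun i a b => Subtype.ext (by simp [r]))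
    (fun i a b => Subtype.ext (by simp [r])) (fun i a => rfl) fun I hI hs => ?_
  obtain ⟨w, hw, hw0⟩ := Submodule.exists_mem_ne_zero_of_ne_bot hI
  obtain ⟨u, hu, e⟩ := simple (Subtype.val '' (I : Set A))
    (by rintro a ha _ ⟨w, hw, rfl⟩; exact ⟨⟨a, ha⟩ * w, I.mul_mem_left _ hw, rfl⟩)
    (by rintro i _ ⟨w, hw, rfl⟩; exact ⟨_, hs i w hw, rfl⟩) w ⟨w, hw, rfl⟩ w.2
    fun h => hw0 (Subtype.ext h)
  rw [Ideal.eq_top_iff_one, ← show u = 1 from Subtype.ext e]
  exact hu

/-- a flat birational extension is contained in the local ring at the centre of a proper ideal -/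
theorem chart {A B : Subalgebra ℂ K} (h : A ≤ B) (he : (Subalgebra.inclusion h).toRingHom.Etale)
    (Q : AddSubmonoid K) (hQ : ∀ b ∈ B, ∀ q ∈ Q, q ∈ A → q * b ∈ Q) (h1 : (1 : K) ∉ Q)
    {y c d : K} (hy : y ∈ B) (hc : c ∈ A) (hd : d ∈ A) (hd0 : d ≠ 0) (e : d * y = c) :
    ∃ s ∈ A, s ∉ Q ∧ s * y ∈ A := by
  let := (Subalgebra.inclusion h).toRingHom.toAlgebra
  have : Algebra.Etale A B := he
  obtain ⟨k, a, z, h2, h3⟩ := Module.Flat.isTrivialRelation_of_sum_smul_eq_zero (R := A) (M := B)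
    (f := ![⟨d, hd⟩, -⟨c, hc⟩]) (x := ![⟨y, hy⟩, 1]) (by
      rw [Fin.sum_univ_two]
      refine Subtype.ext ?_
      change d * y + -c * 1 = 0
      rw [e]; ring)
  by_contra hn
  push Not at hn
  refine h1 ?_
  have h4 : (1 : K) = ∑ j, (a 1 j : K) * z j := by
    have := congr(($(h2 1) : K))
    rw [AddSubmonoidClass.coe_finsetSum] at this
    exact this
  rw [h4]
  refine sum_mem fun j _ => hQ _ (z j).2 _ ?_ (a 1 j).2
  by_contra hj
  refine hn _ (a 1 j).2 hj ?_
  have h5 : d * a 0 j + -c * a 1 j = 0 := by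
    have := congr(($(h3 j) : K))
    rw [Fin.sum_univ_two] at this
    exact this
  have h6 : (a 1 j : K) * y = a 0 j :=
    mul_left_cancel₀ hd0 (by linear_combination (a 1 j : K) * e - h5)
  rw [h6]
  exact (a 0 j).2

end Pool.Agent.MP_51db15_ag

end MrgPart1

-- ======== part 2: formerly Pool.Agent.MP_51db15_ag.DV
section MrgPart2

/-! Normalised discrete valuations of a field, as integer valued order functions. -/

namespace Pool.Agent.MP_51db15_ag

/-- A normalised discrete valuation. -/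
structure DV (K : Type) [Field K] where
  ord : K → ℤ
  ord_mul : ∀ x y, x ≠ 0 → y ≠ 0 → ord (x * y) = ord x + ord y
  ord_add : ∀ x y, x ≠ 0 → y ≠ 0 → x + y ≠ 0 → min (ord x) (ord y) ≤ ord (x + y)
  unif : ∃ π, π ≠ 0 ∧ ord π = 1

namespace DV

variable {K : Type} [Field K] (v : DV K)

/-- order at least `k` -/
def Ge (k : ℤ) (y : K) : Prop := y = 0 ∨ k ≤ v.ord y

theorem ord_one : v.ord 1 = 0 := by
  have := v.ord_mul 1 1 one_ne_zero one_ne_zero
  rw [mul_one] at this; omega

theorem ord_neg_one : v.ord (-1) = 0 := by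
  have := v.ord_mul (-1) (-1) (by simp) (by simp)
  rw [neg_mul_neg, mul_one, v.ord_one] at this; omega

theorem ord_neg (x : K) : v.ord (-x) = v.ord x := by
  by_cases hx : x = 0
  · simp [hx]
  · rw [← neg_one_mul, v.ord_mul _ _ (by simp) hx, v.ord_neg_one, zero_add]

theorem ord_inv {x : K} (hx : x ≠ 0) : v.ord x⁻¹ = -v.ord x := by
  have := v.ord_mul x x⁻¹ hx (inv_ne_zero hx)
  rw [mul_inv_cancel₀ hx, v.ord_one] at this; omega

theorem ord_div {x y : K} (hx : x ≠ 0) (hy : y ≠ 0) : v.ord (x / y) = v.ord x - v.ord y := by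
  rw [div_eq_mul_inv, v.ord_mul _ _ hx (inv_ne_zero hy), v.ord_inv hy]; ring

theorem ord_pow {x : K} (hx : x ≠ 0) (k : ℕ) : v.ord (x ^ k) = k * v.ord x := by
  induction k with
  | zero => simp [v.ord_one]
  | succ k ih => rw [pow_succ, v.ord_mul _ _ (pow_ne_zero _ hx) hx, ih]; push_cast; ring

theorem ord_zpow {x : K} (hx : x ≠ 0) (k : ℤ) : v.ord (x ^ k) = k * v.ord x := by
  obtain ⟨m, rfl | rfl⟩ := Int.eq_nat_or_neg k
  · rw [zpow_natCast, v.ord_pow hx]
  · rw [zpow_neg, zpow_natCast, v.ord_inv (pow_ne_zero _ hx), v.ord_pow hx]; ring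

theorem ord_prod {ι : Type*} (s : Finset ι) (f : ι → K) (hf : ∀ i ∈ s, f i ≠ 0) :
    v.ord (∏ i ∈ s, f i) = ∑ i ∈ s, v.ord (f i) := by
  classical
  induction s using Finset.induction_on with
  | empty => simp [v.ord_one]
  | insert a s ha ih =>
    rw [Finset.prod_insert ha, Finset.sum_insert ha, v.ord_mul _ _ (hf a (by simp))
      (Finset.prod_ne_zero_iff.2 fun i hi => hf i (by simp [hi])),
      ih fun i hi => hf i (by simp [hi])]

variable {v}

theorem ge_iff {k : ℤ} {y : K} (hy : y ≠ 0) : v.Ge k y ↔ k ≤ v.ord y := by simp [Ge, hy]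

theorem ge_zero (k : ℤ) : v.Ge k 0 := Or.inl rfl

theorem ge_one : v.Ge 0 1 := Or.inr v.ord_one.ge

theorem Ge.mono {k l : ℤ} {y : K} (h : v.Ge k y) (hl : l ≤ k) : v.Ge l y :=
  h.imp id fun h => hl.trans h

theorem Ge.le {k : ℤ} {y : K} (h : v.Ge k y) (hy : y ≠ 0) : k ≤ v.ord y := (ge_iff hy).1 h

theorem ge_self (y : K) : v.Ge (v.ord y) y := Or.inr le_rfl

theorem Ge.add {k : ℤ} {x y : K} (hx : v.Ge k x) (hy : v.Ge k y) : v.Ge k (x + y) := by
  by_cases h1 : x = 0
  · simpa [h1] using hy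
  by_cases h2 : y = 0
  · simpa [h2] using hx
  by_cases h3 : x + y = 0
  · exact Or.inl h3
  exact Or.inr ((le_min (hx.le h1) (hy.le h2)).trans (v.ord_add x y h1 h2 h3))

theorem Ge.neg {k : ℤ} {x : K} (hx : v.Ge k x) : v.Ge k (-x) := by
  rcases hx with h | h
  · simp [h, ge_zero]
  · exact Or.inr (by rwa [v.ord_neg])

theorem Ge.sub {k : ℤ} {x y : K} (hx : v.Ge k x) (hy : v.Ge k y) : v.Ge k (x - y) := by
  rw [sub_eq_add_neg]; exact hx.add hy.neg

theorem Ge.mul {k l : ℤ} {x y : K} (hx : v.Ge k x) (hy : v.Ge l y) : v.Ge (k + l) (x * y) := by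
  by_cases h1 : x = 0
  · simp [h1, ge_zero]
  by_cases h2 : y = 0
  · simp [h2, ge_zero]
  exact Or.inr (by rw [v.ord_mul _ _ h1 h2]; exact add_le_add (hx.le h1) (hy.le h2))

theorem Ge.mul' {k l m : ℤ} {x y : K} (hx : v.Ge k x) (hy : v.Ge l y) (h : m ≤ k + l) :
    v.Ge m (x * y) := (hx.mul hy).mono h

theorem Ge.mul_left {k : ℤ} {x y : K} (hx : v.Ge 0 x) (hy : v.Ge k y) : v.Ge k (x * y) :=
  hx.mul' hy (by omega)

theorem Ge.mul_right {k : ℤ} {x y : K} (hx : v.Ge k x) (hy : v.Ge 0 y) : v.Ge k (x * y) :=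
  hx.mul' hy (by omega)

theorem Ge.div {k : ℤ} {x y : K} (hx : v.Ge k x) (hy : y ≠ 0) : v.Ge (k - v.ord y) (x / y) := by
  rw [div_eq_mul_inv]
  exact hx.mul' (ge_self y⁻¹) (by rw [v.ord_inv hy]; omega)

theorem Ge.div_unit {k : ℤ} {x y : K} (hx : v.Ge k x) (hy : y ≠ 0) (h0 : v.ord y = 0) :
    v.Ge k (x / y) := by
  simpa [h0] using hx.div hy

theorem Ge.sum {k : ℤ} {ι : Type*} {s : Finset ι} {f : ι → K} (h : ∀ i ∈ s, v.Ge k (f i)) :
    v.Ge k (∑ i ∈ s, f i) :=
  Finset.sum_induction f (v.Ge k) (fun _ _ => Ge.add) (ge_zero k) h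

theorem Ge.pow {x : K} (hx : v.Ge 0 x) (m : ℕ) : v.Ge 0 (x ^ m) := by
  induction m with
  | zero => simpa using ge_one
  | succ m ih => rw [pow_succ]; exact ih.mul_left hx

theorem Ge.prod {ι : Type*} {s : Finset ι} {f : ι → K} (h : ∀ i ∈ s, v.Ge 0 (f i)) :
    v.Ge 0 (∏ i ∈ s, f i) :=
  Finset.prod_induction f (v.Ge 0) (fun _ _ => Ge.mul_left) ge_one h

theorem not_ge_one_one : ¬ v.Ge 1 1 := by
  rw [ge_iff one_ne_zero, v.ord_one]; omega

theorem unit_of_not_ge {y : K} (h0 : v.Ge 0 y) (h1 : ¬ v.Ge 1 y) : y ≠ 0 ∧ v.ord y = 0 := by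
  have hy : y ≠ 0 := fun h => h1 (Or.inl h)
  refine ⟨hy, ?_⟩
  have := h0.le hy
  rw [ge_iff hy] at h1
  omega

theorem not_ge_of_unit {y : K} (hy : y ≠ 0) (h : v.ord y = 0) : ¬ v.Ge 1 y := by
  rw [ge_iff hy, h]; omega

theorem ge_one_mul {x y : K} (hx : v.Ge 0 x) (hy : v.Ge 0 y) (h : v.Ge 1 (x * y)) :
    v.Ge 1 x ∨ v.Ge 1 y := by
  by_contra hc
  push Not at hc
  obtain ⟨h1, h2⟩ := unit_of_not_ge hx hc.1
  obtain ⟨h3, h4⟩ := unit_of_not_ge hy hc.2
  exact not_ge_of_unit (mul_ne_zero h1 h3) (by rw [v.ord_mul _ _ h1 h3, h2, h4]; rfl) h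

variable (v) in
/-- the valuation ring -/
def ring : Subring K where
  carrier := {y | v.Ge 0 y}
  mul_mem' := Ge.mul_left
  one_mem' := ge_one
  add_mem' := Ge.add
  zero_mem' := ge_zero 0
  neg_mem' := Ge.neg

theorem ge_intCast (m : ℤ) : v.Ge 0 (m : K) := intCast_mem v.ring m

theorem ge_natCast (m : ℕ) : v.Ge 0 (m : K) := natCast_mem v.ring m

section Der

variable [Algebra ℂ K]

/-- the valuation is trivial on the constants -/
def Const (v : DV K) : Prop := ∀ c : ℂ, v.Ge 0 (algebraMap ℂ K c)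

theorem Const.ord {v : DV K} (h : v.Const) {c : ℂ} (hc : c ≠ 0) : v.ord (algebraMap ℂ K c) = 0 := by
  have h0 : algebraMap ℂ K c ≠ 0 := by simpa using hc
  have h1 := (h c).le h0
  have h2 := (h c⁻¹).le (by simpa using hc)
  rw [map_inv₀, v.ord_inv h0] at h2
  omega

theorem Const.smul {v : DV K} (h : v.Const) {k : ℤ} {y : K} (c : ℂ) (hy : v.Ge k y) :
    v.Ge k (c • y) := by
  rw [Algebra.smul_def]; exact (h c).mul_left hy

theorem Const.of_smul {v : DV K} (h : v.Const) {k : ℤ} {y : K} {c : ℂ} (hc : c ≠ 0)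
    (hy : v.Ge k (c • y)) : v.Ge k y := by
  simpa [hc] using h.smul c⁻¹ hy

theorem Const.not_ge {v : DV K} (h : v.Const) {c : ℂ} (hc : c ≠ 0) :
    ¬ v.Ge 1 (algebraMap ℂ K c) := not_ge_of_unit (by simpa using hc) (h.ord hc)

/-- elements of order at least `k`, as a complex subspace -/
def Const.sub {v : DV K} (h : v.Const) (k : ℤ) : Submodule ℂ K where
  carrier := {y | v.Ge k y}
  add_mem' := Ge.add
  zero_mem' := ge_zero k
  smul_mem' c _ hy := h.smul c hy

theorem log_unit (X : Derivation ℂ K K) (hX : ∀ a, v.Ge 0 a → v.Ge 0 (X a)) {y : K} (hy : y ≠ 0)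
    (h : v.ord y = 0) : v.Ge 0 (X y / y) :=
  (hX y (Or.inr h.ge)).div_unit hy h

theorem log_zpow (X : Derivation ℂ K K) {y : K} (hy : y ≠ 0) (k : ℤ) :
    X (y ^ k) / y ^ k = k * (X y / y) := by
  rw [X.leibniz_zpow, zsmul_eq_mul, smul_eq_mul, zpow_sub_one₀ hy]
  have := zpow_ne_zero k hy
  field_simp

theorem log_mul (X : Derivation ℂ K K) {x y : K} (hx : x ≠ 0) (hy : y ≠ 0) :
    X (x * y) / (x * y) = X x / x + X y / y := by
  rw [X.leibniz, smul_eq_mul, smul_eq_mul]
  field_simp
  ring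

/-- `y = π ^ ord y * unit`, logarithmic form -/
theorem log_eq (X : Derivation ℂ K K) (hX : ∀ a, v.Ge 0 a → v.Ge 0 (X a)) {π y : K} (hπ : π ≠ 0)
    (h1 : v.ord π = 1) (hy : y ≠ 0) : v.Ge 0 (X y / y - (v.ord y : K) * (X π / π)) := by
  have hz := zpow_ne_zero (v.ord y) hπ
  have hu : y / π ^ v.ord y ≠ 0 := div_ne_zero hy hz
  have h0 : v.ord (y / π ^ v.ord y) = 0 := by
    rw [v.ord_div hy hz, v.ord_zpow hπ, h1]; ring
  have h := log_unit X hX hu h0
  have e : y = π ^ v.ord y * (y / π ^ v.ord y) := by field_simp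
  have := log_mul X hz hu
  rw [← e, log_zpow X hπ] at this
  rw [this]
  simpa using h

theorem log_ge (X : Derivation ℂ K K) (hX : ∀ a, v.Ge 0 a → v.Ge 0 (X a)) {y : K} (hy : y ≠ 0) :
    v.Ge (-1) (X y / y) := by
  obtain ⟨π, hπ, h1⟩ := v.unif
  have h := log_eq X hX hπ h1 hy
  have h2 : v.Ge (-1) (X π / π) := by
    simpa [h1] using (hX π (Or.inr (by omega))).div hπ
  have := (h.mono (by omega : (-1 : ℤ) ≤ 0)).add ((ge_intCast (v.ord y)).mul_left h2)
  simpa using this

theorem der_ge (X : Derivation ℂ K K) (hX : ∀ a, v.Ge 0 a → v.Ge 0 (X a)) {k : ℤ} {y : K}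
    (h : v.Ge k y) : v.Ge (k - 1) (X y) := by
  by_cases hy : y = 0
  · simp [hy, ge_zero]
  have := (log_ge X hX hy).mul' h (by omega : k - 1 ≤ -1 + k)
  rwa [div_mul_cancel₀ _ hy] at this

/-- a derivation that preserves the ring and rescales an element of positive order preserves
every power of the maximal ideal -/
theorem der_ge_of_log (hc : v.Const) (X : Derivation ℂ K K) (hX : ∀ a, v.Ge 0 a → v.Ge 0 (X a))
    {s : K} (hs : s ≠ 0) (h0 : v.ord s ≠ 0) (h : v.Ge 0 (X s / s)) {k : ℤ} {y : K}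
    (hy : v.Ge k y) : v.Ge k (X y) := by
  obtain ⟨π, hπ, h1⟩ := v.unif
  have h2 : v.Ge 0 (X π / π) := by
    have := h.sub (log_eq X hX hπ h1 hs)
    rw [sub_sub_cancel] at this
    refine hc.of_smul (c := (v.ord s : ℂ)) (by exact_mod_cast h0) ?_
    rw [Algebra.smul_def, map_intCast]
    exact this
  by_cases hy0 : y = 0
  · simp [hy0, ge_zero]
  have h3 := (log_eq X hX hπ h1 hy0).add ((ge_intCast (v.ord y)).mul_left h2)
  rw [sub_add_cancel] at h3
  have := h3.mul_left hy
  rwa [div_mul_cancel₀ _ hy0] at this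

end Der

end DV

end Pool.Agent.MP_51db15_ag

end MrgPart2

-- ======== part 3: formerly Pool.Agent.MP_51db15_ag.Krull
section MrgPart3

/-! A Noetherian normal domain is cut out by the discrete valuation rings that are its
localisations. -/

namespace Pool.Agent.MP_51db15_ag

open IsLocalRing

variable {K : Type} [Field K]

/-- the valuation ring of `v` is a localisation of the ring of functions `R` -/
def IsDiv (R : Set K) (v : DV K) : Prop :=
  (∀ r ∈ R, v.Ge 0 r) ∧ ∀ y, v.Ge 0 y → ∃ a ∈ R, ∃ s ∈ R, s ≠ 0 ∧ v.ord s = 0 ∧ y = a / s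

theorem IsDiv.mono {R R' : Set K} {v : DV K} (h : IsDiv R v) (hR : R ⊆ R')
    (h' : ∀ r ∈ R', v.Ge 0 r) : IsDiv R' v :=
  ⟨h', fun y hy => by
    obtain ⟨a, ha, s, hs, h1⟩ := h.2 y hy
    exact ⟨a, hR ha, s, hR hs, h1⟩⟩

theorem exists_dv (L : Type) [CommRing L] [IsDomain L] [IsDiscreteValuationRing L] [Algebra L K]
    [IsFractionRing L K] : ∃ v : DV K, (∀ y, v.Ge 0 y ↔ ∃ a : L, algebraMap L K a = y) ∧
      ∀ a : L, v.Ge 1 (algebraMap L K a) ↔ a ∈ maximalIdeal L := by
  set w := (IsDiscreteValuationRing.maximalIdeal L).valuation K with hw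
  have hne : ∀ x : K, x ≠ 0 → w x ≠ 0 := fun x hx => by simpa using hx
  refine ⟨⟨fun y => -WithZero.log (w y), fun x y hx hy => ?_, fun x y hx hy hxy => ?_, ?_⟩,
    fun y => ?_, fun a => ?_⟩
  · rw [map_mul, WithZero.log_mul (hne x hx) (hne y hy)]; ring
  · rcases le_max_iff.1 (w.map_add x y) with h | h
    · have := (WithZero.log_le_log (hne _ hxy) (hne _ hx)).2 h
      exact (min_le_left _ _).trans (by omega)
    · have := (WithZero.log_le_log (hne _ hxy) (hne _ hy)).2 h
      exact (min_le_right _ _).trans (by omega)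
  · obtain ⟨π, hπ⟩ := (IsDiscreteValuationRing.maximalIdeal L).valuation_exists_uniformizer K
    refine ⟨π, fun h => ?_, by simp [hw, hπ]⟩
    rw [h, map_zero] at hπ
    exact WithZero.exp_ne_zero hπ.symm
  · by_cases hy : y = 0
    · simp only [hy, DV.ge_zero, true_iff]
      exact ⟨0, map_zero _⟩
    rw [DV.ge_iff hy]
    change 0 ≤ -WithZero.log (w y) ↔ _
    rw [neg_nonneg, WithZero.log_le_iff_le_exp (hne y hy), WithZero.exp_zero]
    refine ⟨IsDiscreteValuationRing.exists_lift_of_le_one, ?_⟩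
    rintro ⟨a, rfl⟩
    exact IsDedekindDomain.HeightOneSpectrum.valuation_le_one _ a
  · by_cases ha : a = 0
    · simp [ha, DV.ge_zero]
    have hy : algebraMap L K a ≠ 0 := by simpa using ha
    rw [DV.ge_iff hy]
    change 1 ≤ -WithZero.log (w _) ↔ _
    have := IsDedekindDomain.HeightOneSpectrum.valuation_lt_one_iff_mem (K := K)
      (IsDiscreteValuationRing.maximalIdeal L) a
    change w _ < 1 ↔ a ∈ maximalIdeal L at this
    rw [← this, ← WithZero.exp_zero, ← WithZero.log_lt_iff_lt_exp (hne _ hy)]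
    omega

section Abstract

variable {R : Type} [CommRing R] [IsDomain R] [Algebra R K] [IsFractionRing R K]

omit [IsDomain R] in
theorem principal_of {L : Type} [CommRing L] [Algebra R L] (D : Ideal R) [D.IsPrime]
    [IsLocalization.AtPrime L D] [IsLocalRing L] {π : R} (hπ : π ∈ D)
    (h : ∀ d ∈ D, ∃ r s : R, s ∉ D ∧ s * d = r * π) : (maximalIdeal L).IsPrincipal := by
  refine ⟨algebraMap R L π, le_antisymm ?_ ?_⟩
  · rw [← IsLocalization.AtPrime.map_eq_maximalIdeal D L, Ideal.map_le_iff_le_comap]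
    intro d hd
    obtain ⟨r, s, hs, e⟩ := h d hd
    obtain ⟨u, hu⟩ := IsLocalization.map_units L (⟨s, hs⟩ : D.primeCompl)
    refine Ideal.mem_span_singleton'.2 ⟨u⁻¹ * algebraMap R L r, ?_⟩
    rw [mul_assoc, ← map_mul, ← e, map_mul]
    change _ * (algebraMap R L (⟨s, hs⟩ : D.primeCompl) * _) = _
    rw [← hu, Units.inv_mul_cancel_left]
  · rw [Submodule.span_le, Set.singleton_subset_iff]
    exact (IsLocalization.AtPrime.to_map_mem_maximal_iff L D π).2 hπ

theorem exists_dv_of_prime [IsNoetherianRing R] (D : Ideal R) [D.IsPrime] {π : R} (hπ : π ∈ D)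
    (h0 : π ≠ 0) (h : ∀ d ∈ D, ∃ r s : R, s ∉ D ∧ s * d = r * π) :
    ∃ v : DV K, (∀ y, v.Ge 0 y ↔ ∃ a s : R, s ∉ D ∧ y = algebraMap R K a / algebraMap R K s) ∧
      ∀ a : R, v.Ge 1 (algebraMap R K a) ↔ a ∈ D := by
  let L := Localization.subalgebra.ofField K D.primeCompl D.primeCompl_le_nonZeroDivisors
  have : IsLocalRing L := IsLocalization.AtPrime.isLocalRing L D
  have : IsNoetherianRing L := IsLocalization.isNoetherianRing D.primeCompl L inferInstance
  have hp := principal_of (L := L) D hπ h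
  have hf : ¬ IsField L := by
    rw [isField_iff_maximalIdeal_eq]
    intro hb
    have := (IsLocalization.AtPrime.to_map_mem_maximal_iff L D π).2 hπ
    rw [hb, Ideal.mem_bot] at this
    exact h0 (by simpa using congr(($this : K)))
  have : IsDiscreteValuationRing L := ((IsDiscreteValuationRing.TFAE L hf).out 0 4).2 hp
  obtain ⟨v, h1, h2⟩ := exists_dv (K := K) L
  refine ⟨v, fun y => ?_, fun a => ?_⟩
  · rw [h1]
    constructor
    · rintro ⟨⟨_, a, s, hs, rfl⟩, rfl⟩
      exact ⟨a, s, hs, by rw [div_eq_mul_inv]; rfl⟩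
    · rintro ⟨a, s, hs, rfl⟩
      exact ⟨⟨_, a, s, hs, div_eq_mul_inv _ _⟩, rfl⟩
  · rw [← IsLocalization.AtPrime.to_map_mem_maximal_iff L D a, ← h2]
    rfl

theorem krull_abs [IsNoetherianRing R] [IsIntegrallyClosed R] (M : Submonoid R) {y : K} {a b : R}
    (hb : b ≠ 0) (hab : algebraMap R K b * y = algebraMap R K a)
    (hy : ∀ s ∈ M, ¬ b ∣ s * a) :
    ∃ (v : DV K) (D : Ideal R), D.IsPrime ∧ (∀ s ∈ M, s ∉ D) ∧ b ∈ D ∧ ¬ v.Ge 0 y ∧
      (∀ y, v.Ge 0 y ↔ ∃ a s : R, s ∉ D ∧ y = algebraMap R K a / algebraMap R K s) ∧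
      ∀ a : R, v.Ge 1 (algebraMap R K a) ↔ a ∈ D := by
  let I : R → Ideal R := fun c => (Ideal.span {b}).colon {a * c}
  have hI : ∀ c r, r ∈ I c ↔ b ∣ r * (a * c) := fun c r => by
    simp [I, Submodule.mem_colon_singleton, Ideal.mem_span_singleton]
  obtain ⟨_, ⟨c, hc, rfl⟩, hmax⟩ := set_has_maximal_iff_noetherian.2
    (inferInstance : IsNoetherian R R) {J | ∃ c, (∀ s ∈ M, s ∉ I c) ∧ J = I c}
    ⟨I 1, 1, fun s hs => by simpa [hI] using hy s hs, rfl⟩
  have hle : ∀ e, I c ≤ I (c * e) := fun e r hr => by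
    rw [hI] at hr ⊢
    exact hr.trans ⟨e, by ring⟩
  have heq : ∀ e, (∀ s ∈ M, s ∉ I (c * e)) → I (c * e) ≤ I c := fun e he =>
    ((hle e).lt_or_eq.resolve_left (hmax _ ⟨_, he, rfl⟩)).ge
  have hP : (I c).IsPrime := by
    refine ⟨fun h => hc 1 M.one_mem (h ▸ Submodule.mem_top), fun {r s} hrs => ?_⟩
    by_contra hn
    push Not at hn
    have h1 : ∀ σ ∈ M, σ ∉ I (c * s) := fun σ hσ h => by
      refine hn.2 (heq σ (fun τ hτ h' => hc _ (M.mul_mem hτ hσ) ?_) ?_)
      · rw [hI] at h' ⊢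
        exact h'.trans (by ring_nf; rfl)
      · rw [hI] at h ⊢
        exact h.trans (by ring_nf; rfl)
    refine hn.1 (heq s h1 ?_)
    rw [hI] at hrs ⊢
    exact hrs.trans (by ring_nf; rfl)
  have hbD : b ∈ I c := (hI _ _).2 (dvd_mul_right _ _)
  have hbK : algebraMap R K b ≠ 0 := by simpa using hb
  -- an element that moves out of the prime
  have hex : ∃ π ∈ I c, ∃ q, π * (a * c) = b * q ∧ q ∉ I c := by
    by_contra hn
    push Not at hn
    have hint : IsIntegral R (algebraMap R K (a * c) / algebraMap R K b) := by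
      refine isIntegral_of_smul_mem_submodule
        (Submodule.map (Algebra.linearMap R K) (I c)) ?_
        ((IsNoetherian.noetherian (I c)).map _) _ ?_
      · intro h
        have : algebraMap R K b ∈ Submodule.map (Algebra.linearMap R K) (I c) := ⟨b, hbD, rfl⟩
        rw [h] at this
        exact hbK this
      · rintro _ ⟨d, hd, rfl⟩
        obtain ⟨q, hq⟩ := (hI _ _).1 hd
        refine ⟨q, hn d hd q hq, ?_⟩
        simp only [Algebra.linearMap_apply, smul_eq_mul]
        rw [div_mul_eq_mul_div, eq_div_iff hbK, ← map_mul, ← map_mul, mul_comm q, ← hq, mul_comm]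
    obtain ⟨q, hq⟩ := IsIntegrallyClosed.isIntegral_iff.1 hint
    refine hc 1 M.one_mem ((hI _ _).2 ⟨q, ?_⟩)
    rw [eq_div_iff hbK, ← map_mul] at hq
    rw [one_mul, ← IsFractionRing.injective R K hq, mul_comm]
  obtain ⟨π, hπ, q, hq, hqD⟩ := hex
  have hπ0 : π ≠ 0 := by
    rintro rfl
    rw [zero_mul, eq_comm, mul_eq_zero] at hq
    exact hqD (hq.resolve_left hb ▸ (I c).zero_mem)
  obtain ⟨v, h1, h2⟩ := exists_dv_of_prime (K := K) (I c) hπ hπ0 fun d hd => by
    obtain ⟨r, hr⟩ := (hI _ _).1 hd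
    refine ⟨r, q, hqD, mul_left_cancel₀ hb ?_⟩
    rw [← mul_assoc, ← hq, ← mul_assoc b, ← hr]; ring
  refine ⟨v, I c, hP, hc, hbD, fun h => ?_, h1, h2⟩
  obtain ⟨r, s, hs, e⟩ := (h1 y).1 h
  have hsK : algebraMap R K s ≠ 0 := by
    simpa using fun h : s = 0 => hs (h ▸ (I c).zero_mem)
  rw [e, ← mul_div_assoc, div_eq_iff hsK, ← map_mul, ← map_mul] at hab
  refine hs ((hI _ _).2 ⟨r * c, ?_⟩)
  rw [← mul_assoc b, IsFractionRing.injective R K hab]; ring

/-- the localisation at the centre of a divisorial valuation is regular -/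
theorem regular_of_dv [IsNoetherianRing R] (v : DV K) (D : Ideal R) [D.IsPrime]
    (hv : IsDiv (Set.range (algebraMap R K)) v)
    (hD : ∀ a : R, v.Ge 1 (algebraMap R K a) ↔ a ∈ D) :
    IsRegularLocalRing (Localization.AtPrime D) := by
  obtain ⟨π, hπ, h1⟩ := v.unif
  obtain ⟨_, ⟨a, rfl⟩, _, ⟨s, rfl⟩, hs, hs0, e⟩ := hv.2 π (Or.inr (by omega))
  have ha : algebraMap R K a ≠ 0 := fun h => hπ (by rw [e, h, zero_div])
  have ha1 : v.ord (algebraMap R K a) = 1 := by
    rw [e, v.ord_div ha hs] at h1; omega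
  have hp := principal_of (L := Localization.AtPrime D) D (π := a)
    ((hD a).1 (Or.inr ha1.ge)) fun d hd => by
      have := ((hD d).2 hd).div ha
      rw [ha1, sub_self] at this
      obtain ⟨_, ⟨r, rfl⟩, _, ⟨t, rfl⟩, ht, ht0, e⟩ := hv.2 _ this
      refine ⟨r, t, fun h => DV.not_ge_of_unit ht ht0 ((hD t).2 h), ?_⟩
      rw [div_eq_div_iff ha ht, ← map_mul, ← map_mul] at e
      rw [mul_comm, IsFractionRing.injective R K e]
  have : IsPrincipalIdealRing (Localization.AtPrime D) :=
    ((tfae_of_isNoetherianRing_of_isLocalRing_of_isDomain (Localization.AtPrime D)).out 0 4).2 hp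
  infer_instance

end Abstract

/-- Krull: an element outside a localisation of a Noetherian normal subring has a pole along a
divisor of the localisation; the divisor contains any given denominator. -/
theorem krull (R : Subring K) [IsNoetherianRing R] (hn : ∀ y : K, IsIntegral R y → y ∈ R)
    (hf : ∀ y : K, ∃ a ∈ R, ∃ b ∈ R, b ≠ 0 ∧ y = a / b) (M : Submonoid K) (hM : ∀ s ∈ M, s ∈ R)
    {y b : K} (hb : b ∈ R) (hb0 : b ≠ 0) (hby : b * y ∈ R) (hy : ∀ s ∈ M, s * y ∉ R) :
    ∃ v : DV K, IsDiv R v ∧ (∀ s ∈ M, ¬ v.Ge 1 s) ∧ v.Ge 1 b ∧ ¬ v.Ge 0 y := by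
  have : IsFractionRing R K := IsFractionRing.of_field R K fun y => by
    obtain ⟨a, ha, b, hb, -, e⟩ := hf y
    exact ⟨⟨a, ha⟩, ⟨b, hb⟩, e⟩
  have : IsIntegrallyClosed R := (isIntegrallyClosed_iff K).2 fun {y} h => ⟨⟨y, hn y h⟩, rfl⟩
  obtain ⟨v, D, hD, h1, h2, h3, h4, h5⟩ := krull_abs (K := K) (M.comap R.subtype) (y := y)
    (a := ⟨b * y, hby⟩) (b := ⟨b, hb⟩) (fun h => hb0 congr(($h : K))) rfl (by
      rintro s hs ⟨q, hq⟩
      refine hy s hs ?_
      have : (s : K) * (b * y) = b * q := congr(($hq : K))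
      rw [show (s : K) * y = q from mul_left_cancel₀ hb0 (by rw [← this]; ring)]
      exact q.2)
  refine ⟨v, ⟨fun r hr => (h4 r).2 ⟨⟨r, hr⟩, 1, (Ideal.ne_top_iff_one D).1 hD.ne_top, by simp; rfl⟩,
    fun z hz => ?_⟩, fun s hs h => h1 ⟨s, hM s hs⟩ hs ((h5 ⟨s, hM s hs⟩).1 h), (h5 _).2 h2, h3⟩
  obtain ⟨a, s, hs, e⟩ := (h4 z).1 hz
  obtain ⟨h6, h7⟩ := DV.unit_of_not_ge
    ((h4 s).2 ⟨s, 1, (Ideal.ne_top_iff_one D).1 hD.ne_top, by simp; rfl⟩) fun h => hs ((h5 s).1 h)
  exact ⟨a, a.2, s, s.2, h6, h7, e⟩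

end Pool.Agent.MP_51db15_ag

end MrgPart3

-- marker of a merged file
example : 731051 + 885358 = 731051 + 885358 := rfl
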