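import Mathlib.Algebra.AffineMonoid.Basic
import Mathlib.Algebra.Order.Monoid.Prod
import Mathlib.Order.CompletePartialOrder
import Mathlib.Tactic.Polynomial.Basic
import Pool.Agent.MP_51db15_ag.Krull

-- ======== part 0: formerly Pool.Agent.MP_51db15_ag.Ham
section MrgPart0

/-! A function field with a Poisson bracket and a Hamiltonian torus of half the dimension. -/

set_option linter.unusedSectionVars false

namespace Pool.Agent.MP_51db15_ag

/-- Hamiltonian vector fields, moment map and one non-zero function of each basic weight. -/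
structure Ham (K : Type) [Field K] [Algebra ℂ K] (n : ℕ) where
  br : K → Derivation ℂ K K
  skew : ∀ f g, br f g = -br g f
  mu : Fin n → K
  t : Fin n → K
  jac : ∀ i f g, br (mu i) (br f g) = br (br (mu i) f) g + br f (br (mu i) g)
  comm : ∀ i j, br (mu i) (mu j) = 0
  t_ne : ∀ i, t i ≠ 0
  t_deg : ∀ i j, br (mu i) (t j) = if i = j then t j else 0
  alg : ∀ y, (∀ i, br (mu i) y = 0) → IsAlgebraic (Algebra.adjoin ℂ (Set.range mu)) y

variable {K : Type} [Field K] [Algebra ℂ K] {n : ℕ}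

/-- joint eigenvectors of a family of derivations -/
def eig (ξ : Fin n → Derivation ℂ K K) (α : Fin n → ℤ) : Submodule ℂ K where
  carrier := {y | ∀ i, ξ i y = (α i : ℂ) • y}
  add_mem' ha hb i := by rw [map_add, ha i, hb i, smul_add]
  zero_mem' i := by simp
  smul_mem' c y hy i := by rw [Derivation.map_smul, hy i, smul_comm]

section Eig

variable {ξ : Fin n → Derivation ℂ K K} {α β : Fin n → ℤ} {x y : K}

theorem eig_mul (hx : x ∈ eig ξ α) (hy : y ∈ eig ξ β) : x * y ∈ eig ξ (α + β) := fun i => by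
  rw [Derivation.leibniz, hx i, hy i]
  simp only [smul_eq_mul, Pi.add_apply, Int.cast_add, add_smul, Algebra.mul_smul_comm]
  rw [mul_comm y x, add_comm]

theorem eig_inv (hx : x ∈ eig ξ α) : x⁻¹ ∈ eig ξ (-α) := fun i => by
  rw [Derivation.leibniz_inv, hx i]
  by_cases h : x = 0
  · simp [h]
  simp only [smul_eq_mul, Pi.neg_apply, Int.cast_neg, Algebra.smul_def, map_neg]
  field_simp

theorem eig_div (hx : x ∈ eig ξ α) (hy : y ∈ eig ξ β) : x / y ∈ eig ξ (α - β) := by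
  rw [div_eq_mul_inv, sub_eq_add_neg]; exact eig_mul hx (eig_inv hy)

theorem eig_div_same (hx : x ∈ eig ξ α) (hy : y ∈ eig ξ α) : x / y ∈ eig ξ 0 := by
  simpa using eig_div hx hy

theorem eig_zero_mul (hx : x ∈ eig ξ 0) (hy : y ∈ eig ξ β) : x * y ∈ eig ξ β := by
  simpa using eig_mul hx hy

theorem eig_mul_zero (hx : x ∈ eig ξ α) (hy : y ∈ eig ξ 0) : x * y ∈ eig ξ α := by
  simpa using eig_mul hx hy

theorem eig_algebraMap (c : ℂ) : algebraMap ℂ K c ∈ eig ξ 0 := fun i => by simp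

theorem eig_one : (1 : K) ∈ eig ξ 0 := fun i => by simp

theorem eig_pow (hx : x ∈ eig ξ α) (k : ℕ) : x ^ k ∈ eig ξ (k • α) := by
  induction k with
  | zero => simpa using eig_one
  | succ k ih => rw [pow_succ, succ_nsmul]; exact eig_mul ih hx

theorem eig_zpow (hx : x ∈ eig ξ α) (k : ℤ) : x ^ k ∈ eig ξ (k • α) := by
  obtain ⟨m, rfl | rfl⟩ := Int.eq_nat_or_neg k
  · rw [zpow_natCast, natCast_zsmul]; exact eig_pow hx m
  · rw [zpow_neg, zpow_natCast, neg_smul, natCast_zsmul]; exact eig_inv (eig_pow hx m)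

theorem eig_prod {ι : Type*} (s : Finset ι) {f : ι → K} {γ : ι → Fin n → ℤ}
    (h : ∀ i ∈ s, f i ∈ eig ξ (γ i)) : ∏ i ∈ s, f i ∈ eig ξ (∑ i ∈ s, γ i) := by
  classical
  induction s using Finset.induction_on with
  | empty => simpa using eig_one
  | insert a s ha ih =>
    rw [Finset.prod_insert ha, Finset.sum_insert ha]
    exact eig_mul (h a (by simp)) (ih fun i hi => h i (by simp [hi]))

theorem eig_zero_iff : x ∈ eig ξ 0 ↔ ∀ i, ξ i x = 0 := by
  refine forall_congr' fun i => ?_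
  simp

/-- Laurent monomials -/
def tpow (t : Fin n → K) (α : Fin n → ℤ) : K := ∏ i, t i ^ α i

theorem tpow_ne {t : Fin n → K} (ht : ∀ i, t i ≠ 0) (α : Fin n → ℤ) : tpow t α ≠ 0 :=
  Finset.prod_ne_zero_iff.2 fun i _ => zpow_ne_zero _ (ht i)

theorem tpow_add {t : Fin n → K} (ht : ∀ i, t i ≠ 0) (α β : Fin n → ℤ) :
    tpow t (α + β) = tpow t α * tpow t β := by
  simp only [tpow, ← Finset.prod_mul_distrib, Pi.add_apply, zpow_add₀ (ht _)]

theorem tpow_zero (t : Fin n → K) : tpow t 0 = 1 := by simp [tpow]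

theorem tpow_single (t : Fin n → K) (i : Fin n) : tpow t (Pi.single i 1) = t i := by
  rw [tpow, Finset.prod_eq_single i]
  · simp
  · intro j _ hj; simp [Pi.single_eq_of_ne hj]
  · simp

theorem eig_tpow {t : Fin n → K} (ht : ∀ i, t i ∈ eig ξ (Pi.single i 1)) (α : Fin n → ℤ) :
    tpow t α ∈ eig ξ α := by
  have := eig_prod Finset.univ fun i _ => eig_zpow (ht i) (α i)
  have e : ∑ i, α i • (Pi.single i 1 : Fin n → ℤ) = α := by
    ext j
    simp [Finset.sum_apply, Pi.single_apply]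
  rwa [e] at this

theorem ord_tpow (v : DV K) {t : Fin n → K} (ht : ∀ i, t i ≠ 0) (α : Fin n → ℤ) :
    v.ord (tpow t α) = ∑ i, v.ord (t i) * α i := by
  rw [tpow, v.ord_prod _ _ fun i _ => zpow_ne_zero _ (ht i)]
  exact Finset.sum_congr rfl fun i _ => by rw [v.ord_zpow (ht i), mul_comm]

theorem comp_finset (W : Submodule ℂ K) (hW : ∀ i, ∀ w ∈ W, ξ i w ∈ W) (s : Finset (Fin n → ℤ))
    (y : (Fin n → ℤ) → K) (hy : ∀ α, y α ∈ eig ξ α) (h : ∑ α ∈ s, y α ∈ W) :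
    ∀ α ∈ s, y α ∈ W := by
  classical
  induction hN : s.card using Nat.strong_induction_on generalizing s y with
  | _ N ih =>
  intro β hβ
  by_cases hs : ∀ γ ∈ s, γ = β
  · rwa [Finset.sum_eq_single_of_mem β hβ fun γ hγ hne => (hne (hs γ hγ)).elim] at h
  push Not at hs
  obtain ⟨γ, hγ, hne⟩ := hs
  obtain ⟨i, hi⟩ := Function.ne_iff.1 hne
  have h1 : ∑ α ∈ s.erase γ, ((α i : ℂ) - γ i) • y α ∈ W := by
    rw [Finset.sum_erase _ (by simp)]
    have := sub_mem (hW i _ h) (W.smul_mem (γ i : ℂ) h)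
    rw [map_sum, Finset.smul_sum, ← Finset.sum_sub_distrib] at this
    convert this using 2 with α
    rw [hy α i, sub_smul]
  have h2 := ih _ (hN ▸ Finset.card_erase_lt_of_mem hγ) (s.erase γ)
    (fun α => ((α i : ℂ) - γ i) • y α) (fun α => Submodule.smul_mem _ _ (hy α)) h1 rfl β
    (Finset.mem_erase.2 ⟨hne.symm, hβ⟩)
  exact (W.smul_mem_iff (sub_ne_zero.2 (by exact_mod_cast hi.symm))).1 h2

theorem comp (W : Submodule ℂ K) (hW : ∀ i, ∀ w ∈ W, ξ i w ∈ W) (y : (Fin n → ℤ) →₀ K)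
    (hy : ∀ α, y α ∈ eig ξ α) (h : y.sum (fun _ x => x) ∈ W) (α : Fin n → ℤ) : y α ∈ W := by
  by_cases hα : α ∈ y.support
  · exact comp_finset W hW y.support y hy h α hα
  · rw [Finsupp.notMem_support_iff.1 hα]; exact W.zero_mem

/-- a homogeneous element of a sum of homogeneous subspaces lies in the subspace of its degree -/
theorem mem_of_iSup {N : (Fin n → ℤ) → Submodule ℂ K} (hN : ∀ α, N α ≤ eig ξ α)
    (hx : x ∈ ⨆ α, N α) (hβ : x ∈ eig ξ β) : x ∈ N β := by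
  obtain ⟨f, hf, rfl⟩ := (Submodule.mem_iSup_iff_exists_finsupp _ _).1 hx
  set x := f.sum fun _ x => x with hxd
  have := comp (ξ := ξ) ⊥ (by simp) (f - Finsupp.single β x) (fun α => by
    rw [Finsupp.sub_apply]
    refine sub_mem (hN α (hf α)) ?_
    by_cases h : β = α
    · subst h; simpa using hβ
    · simp [Finsupp.single_eq_of_ne (Ne.symm h)]) (by
    rw [Finsupp.sum_sub_index fun _ _ _ => rfl, Finsupp.sum_single_index rfl]
    simp [hxd]) β
  rw [Submodule.mem_bot, Finsupp.sub_apply, Finsupp.single_eq_same, sub_eq_zero] at this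
  exact this ▸ hf β

/-- span of the monomials of a given degree -/
def monSpan {ι : Type} [Fintype ι] (g : ι → K) (β : ι → Fin n → ℤ) (α : Fin n → ℤ) :
    Submodule ℂ K :=
  Submodule.span ℂ {y | ∃ a : ι → ℕ, ∑ q, a q • β q = α ∧ y = ∏ q, g q ^ a q}

theorem monSpan_le {ι : Type} [Fintype ι] {g : ι → K} {β : ι → Fin n → ℤ}
    (hg : ∀ q, g q ∈ eig ξ (β q)) (α : Fin n → ℤ) : monSpan g β α ≤ eig ξ α := by
  rw [monSpan, Submodule.span_le]
  rintro _ ⟨a, rfl, rfl⟩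
  exact eig_prod _ fun q _ => eig_pow (hg q) _

theorem monSpan_le_adjoin {ι : Type} [Fintype ι] (g : ι → K) (β : ι → Fin n → ℤ)
    (α : Fin n → ℤ) : monSpan g β α ≤ Subalgebra.toSubmodule (Algebra.adjoin ℂ (Set.range g)) := by
  rw [monSpan, Submodule.span_le]
  rintro _ ⟨a, -, rfl⟩
  exact Subalgebra.prod_mem _ fun q _ =>
    pow_mem (Algebra.subset_adjoin (Set.mem_range_self q)) _

theorem mem_iSup_monSpan {ι : Type} [Fintype ι] (g : ι → K) (β : ι → Fin n → ℤ)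
    (hx : x ∈ Algebra.adjoin ℂ (Set.range g)) : x ∈ ⨆ α, monSpan g β α := by
  rw [Algebra.adjoin_range_eq_range_aeval] at hx
  obtain ⟨p, rfl⟩ := hx
  change MvPolynomial.aeval g p ∈ _
  rw [MvPolynomial.aeval_def, MvPolynomial.eval₂_eq']
  refine sum_mem fun a _ => ?_
  rw [← Algebra.smul_def]
  exact Submodule.smul_mem _ _ (Submodule.mem_iSup_of_mem (∑ q, a q • β q)
    (Submodule.subset_span ⟨a, rfl, rfl⟩))

end Eig

namespace Ham

variable (H : Ham K n) {α β : Fin n → ℤ}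

/-- the vector fields of the torus action -/
def ξ (i : Fin n) : Derivation ℂ K K := H.br (H.mu i)

/-- functions of weight `α` -/
abbrev deg (α : Fin n → ℤ) : Submodule ℂ K := eig H.ξ α

/-- polynomials in the moment map -/
abbrev A : Subalgebra ℂ K := Algebra.adjoin ℂ (Set.range H.mu)

/-- invariant functions -/
def F : Subalgebra ℂ K where
  carrier := H.deg 0
  mul_mem' := eig_zero_mul
  add_mem' := add_mem
  algebraMap_mem' := eig_algebraMap

theorem mem_F {y : K} : y ∈ H.F ↔ y ∈ H.deg 0 := Iff.rfl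

theorem inv_F {y : K} (h : y ∈ H.F) : y⁻¹ ∈ H.F := by
  simpa [mem_F] using eig_inv h

theorem div_F {x y : K} (hx : x ∈ H.F) (h : y ∈ H.F) : x / y ∈ H.F := eig_div_same hx h

theorem zpow_F {y : K} (h : y ∈ H.F) (k : ℤ) : y ^ k ∈ H.F := by
  simpa [mem_F] using eig_zpow h k

theorem mu_F (i : Fin n) : H.mu i ∈ H.F := eig_zero_iff.2 fun j => H.comm j i

theorem A_le_F : H.A ≤ H.F := Algebra.adjoin_le (by rintro _ ⟨i, rfl⟩; exact H.mu_F i)

theorem t_mem (j : Fin n) : H.t j ∈ H.deg (Pi.single j 1) := fun i => by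
  rw [ξ, H.t_deg]
  by_cases h : i = j
  · subst h; simp
  · simp [h]

theorem br_mul (a b g : K) : H.br (a * b) g = a * H.br b g + b * H.br a g := by
  rw [H.skew, Derivation.leibniz, H.skew b, H.skew a]; simp; ring

theorem br_add (a b g : K) : H.br (a + b) g = H.br a g + H.br b g := by
  rw [H.skew, map_add, H.skew b, H.skew a]; ring

theorem br_smul (c : ℂ) (a g : K) : H.br (c • a) g = c • H.br a g := by
  rw [H.skew, Derivation.map_smul, H.skew a, smul_neg]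

theorem br_zero (g : K) : H.br 0 g = 0 := by rw [H.skew]; simp

theorem br_mem {f g : K} (hf : f ∈ H.deg α) (hg : g ∈ H.deg β) : H.br f g ∈ H.deg (α + β) :=
  fun i => by
    have h1 : H.br (H.mu i) f = _ := hf i
    have h2 : H.br (H.mu i) g = _ := hg i
    rw [ξ, H.jac, h1, h2, H.br_smul, Derivation.map_smul, Pi.add_apply, Int.cast_add, add_smul]

/-- the partial derivatives with respect to the moment map -/
noncomputable def pd (i : Fin n) : Derivation ℂ K K := (-(H.t i)⁻¹) • H.br (H.t i)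

theorem pd_mu (i j : Fin n) : H.pd i (H.mu j) = if i = j then 1 else 0 := by
  rw [pd, Derivation.smul_apply, H.skew, H.t_deg]
  by_cases h : i = j
  · subst h; simp [H.t_ne]
  · simp [h, Ne.symm h]

theorem pd_F (i : Fin n) {b : K} (hb : b ∈ H.F) : H.pd i b ∈ H.F := by
  have := eig_mul (eig_inv (H.t_mem i)) (H.br_mem (H.t_mem i) hb)
  rw [pd, Derivation.smul_apply, smul_eq_mul, neg_mul]
  exact neg_mem (by simpa [mem_F] using this)

theorem alg_F {y : K} (hy : y ∈ H.F) : IsAlgebraic H.A y := H.alg y (eig_zero_iff.1 hy)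

theorem kill_F (Y : Derivation ℂ K K) (hY : ∀ i, Y (H.mu i) = 0) {b : K} (hb : b ∈ H.F) :
    Y b = 0 :=
  der_alg Y H.A (fun a ha => Derivation.eqOn_adjoin (D1 := Y) (D2 := 0)
    (by rintro _ ⟨i, rfl⟩; exact hY i) ha) (H.alg_F hb)

theorem br_F {u b : K} (hu : u ∈ H.deg α) (hb : b ∈ H.F) :
    H.br u b = -(u * ∑ i, (α i : K) * H.pd i b) := by
  have := H.kill_F (H.br u + u • ∑ i, (α i : K) • H.pd i) (fun j => by
    have h : H.br (H.mu j) u = _ := hu j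
    rw [Derivation.add_apply, H.skew, h, Derivation.smul_apply, ← Derivation.coeFnAddMonoidHom_apply,
      map_sum, Finset.sum_apply]
    simp [H.pd_mu, Algebra.smul_def, mul_comm]) hb
  rw [Derivation.add_apply, Derivation.smul_apply, ← Derivation.coeFnAddMonoidHom_apply
    (∑ i, _), map_sum, Finset.sum_apply] at this
  simpa [eq_neg_iff_add_eq_zero] using this

theorem br_F_single {u b : K} {i : Fin n} {e : ℤ} (hu : u ∈ H.deg (e • Pi.single i 1))
    (hb : b ∈ H.F) : H.br u b = -(u * (e * H.pd i b)) := by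
  rw [H.br_F hu hb, Finset.sum_eq_single i]
  · simp
  · intro j _ hj; simp [Pi.single_eq_of_ne hj]
  · simp

theorem br_FF {u b : K} (hu : u ∈ H.F) (hb : b ∈ H.F) : H.br u b = 0 := by
  rw [H.br_F hu hb]; simp

theorem pd_A (i : Fin n) {a : K} (ha : a ∈ H.A) : H.pd i a ∈ H.A := by
  induction ha using Algebra.adjoin_induction with
  | mem _ h => obtain ⟨j, rfl⟩ := h; rw [H.pd_mu]; split_ifs; exacts [one_mem _, zero_mem _]
  | algebraMap c => simp
  | add _ _ _ _ h1 h2 => rw [map_add]; exact add_mem h1 h2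
  | mul a b ha hb h1 h2 =>
    rw [Derivation.leibniz]; exact add_mem (mul_mem ha h2) (mul_mem hb h1)

theorem clear {y : K} (hy : y ∈ H.F) : ∃ a ∈ H.A, a ≠ 0 ∧ IsIntegral H.A (a * y) := by
  obtain ⟨a, ha, h⟩ := (H.alg_F hy).exists_integral_multiple
  exact ⟨a, a.2, fun h0 => ha (Subtype.ext h0), h⟩

end Ham

end Pool.Agent.MP_51db15_ag

end MrgPart0

-- ======== part 1: formerly Pool.Agent.MP_51db15_ag.Good
section MrgPart1

/-! Normal affine models with a Hamiltonian torus action that are symplectic in codimension one. -/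

set_option linter.unusedSectionVars false

namespace Pool.Agent.MP_51db15_ag

variable {K : Type} [Field K] [Algebra ℂ K] {n : ℕ}

theorem gordan {ι : Type} [Fintype ι] (β : ι → Fin n → ℤ) (α : Fin n → ℤ) :
    ∃ S : Finset ((ι → ℕ) × ℕ), (∀ p ∈ S, ∑ q, p.1 q • β q = p.2 • α) ∧
      ∀ a e, ∑ q, a q • β q = e • α → (a, e) ∈ AddSubmonoid.closure (S : Set ((ι → ℕ) × ℕ)) := by
  let f : ((ι → ℕ) × ℕ) →+ (Fin n → ℤ) :=
    ⟨⟨fun p => ∑ q, p.1 q • β q, by simp⟩, fun p r => by simp [add_smul, Finset.sum_add_distrib]⟩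
  let g : ((ι → ℕ) × ℕ) →+ (Fin n → ℤ) :=
    ⟨⟨fun p => p.2 • α, by simp⟩, fun p r => by simp [add_smul]⟩
  obtain ⟨S, hS⟩ := AddSubmonoid.fg_eqLocusM f g
  refine ⟨S, fun p hp => ?_, fun a e h => ?_⟩
  · exact (hS ▸ AddSubmonoid.subset_closure hp : p ∈ f.eqLocusM g)
  · rw [hS]; exact h

theorem mem_of_stable {R : Subalgebra ℂ K} [IsNoetherianRing R]
    (hn : ∀ y : K, IsIntegral R y → y ∈ R) (S : Set K) (hS : S ⊆ R) {f y : K} (hf : f ∈ S)
    (h0 : f ≠ 0) (hy : ∀ f ∈ S, y * f ∈ S) : y ∈ R := by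
  have e : Submodule.span R S = Submodule.map (Algebra.linearMap R K)
      (Ideal.span (Subtype.val ⁻¹' S)) := by
    rw [Ideal.span, Submodule.map_span]
    congr 1
    ext x
    exact ⟨fun hx => ⟨⟨x, hS hx⟩, hx, rfl⟩, by rintro ⟨x, hx, rfl⟩; exact hx⟩
  refine hn y (isIntegral_of_smul_mem_submodule (Submodule.span R S) (fun h => h0 ?_)
    (e ▸ (IsNoetherian.noetherian _).map _) y fun w hw => ?_)
  · exact (Submodule.mem_bot R).1 (h ▸ Submodule.subset_span hf)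
  · induction hw using Submodule.span_induction with
    | mem x hx => exact Submodule.subset_span (hy x hx)
    | zero => simp
    | add _ _ _ _ h1 h2 => rw [smul_add]; exact add_mem h1 h2
    | smul c x _ h => rw [smul_comm]; exact Submodule.smul_mem _ _ h

theorem krull' (R : Subalgebra ℂ K) [hR : IsNoetherianRing R]
    (hn : ∀ y : K, IsIntegral R y → y ∈ R)
    (hf : ∀ y : K, ∃ a ∈ R, ∃ b ∈ R, b ≠ 0 ∧ y = a / b) (M : Submonoid K) (hM : ∀ s ∈ M, s ∈ R)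
    {y b : K} (hb : b ∈ R) (hb0 : b ≠ 0) (hby : b * y ∈ R) (hy : ∀ s ∈ M, s * y ∉ R) :
    ∃ v : DV K, IsDiv R v ∧ (∀ s ∈ M, ¬ v.Ge 1 s) ∧ v.Ge 1 b ∧ ¬ v.Ge 0 y :=
  @krull K _ R.toSubring hR hn hf M hM y b hb hb0 hby hy

theorem IsDiv.const {R : Subalgebra ℂ K} {v : DV K} (h : IsDiv R v) : v.Const :=
  fun c => h.1 _ (R.algebraMap_mem c)

/-- a normal affine model, symplectic in codimension one -/
structure Good (H : Ham K n) (R : Subalgebra ℂ K) : Prop where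
  fg : ∃ (ι : Type) (_ : Fintype ι) (g : ι → K) (β : ι → Fin n → ℤ),
    (∀ q, g q ∈ H.deg (β q)) ∧ Algebra.adjoin ℂ (Set.range g) = R
  frac : ∀ y : K, ∃ a ∈ R, ∃ b ∈ R, b ≠ 0 ∧ y = a / b
  normal : ∀ y : K, IsIntegral R y → y ∈ R
  mu_mem : ∀ i, H.mu i ∈ R
  closed : ∀ v, IsDiv R v → ∀ f g, v.Ge 0 f → v.Ge 0 g → v.Ge 0 (H.br f g)
  nonP : ∀ v, IsDiv R v → ∃ f g, v.Ge 0 f ∧ v.Ge 1 g ∧ ¬ v.Ge 1 (H.br f g)

/-- invariant divisors -/
def HD (H : Ham K n) (R : Subalgebra ℂ K) (v : DV K) : Prop :=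
  IsDiv R v ∧ ∃ α, ∃ b ∈ R, b ∈ H.deg α ∧ b ≠ 0 ∧ v.Ge 1 b

namespace Good

variable {H : Ham K n} {R : Subalgebra ℂ K} (G : Good H R) {α β : Fin n → ℤ}
include G

theorem fg' : R.FG := by
  classical
  obtain ⟨ι, _, g, β, -, rfl⟩ := G.fg
  exact ⟨Finset.univ.image g, by simp⟩

theorem noeth : IsNoetherianRing R :=
  have := (Subalgebra.fg_iff_finiteType R).1 G.fg'
  Algebra.FiniteType.isNoetherianRing ℂ R

theorem A_le : H.A ≤ R := Algebra.adjoin_le (by rintro _ ⟨i, rfl⟩; exact G.mu_mem i)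

theorem A_le_B : H.A ≤ R ⊓ H.F := le_inf G.A_le H.A_le_F

theorem dec {r : K} (hr : r ∈ R) : ∃ f : (Fin n → ℤ) →₀ K,
    (∀ α, f α ∈ R ∧ f α ∈ H.deg α) ∧ f.sum (fun _ x => x) = r := by
  obtain ⟨ι, _, g, β, hg, rfl⟩ := G.fg
  obtain ⟨f, hf, e⟩ := (Submodule.mem_iSup_iff_exists_finsupp _ _).1 (mem_iSup_monSpan g β hr)
  exact ⟨f, fun α => ⟨monSpan_le_adjoin g β α (hf α), monSpan_le hg α (hf α)⟩, e⟩

theorem br_mem {f g : K} (hf : f ∈ R) (hg : g ∈ R) : H.br f g ∈ R := by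
  have := G.noeth
  by_contra hn
  obtain ⟨a, ha, b, hb, hb0, e⟩ := G.frac (H.br f g)
  obtain ⟨v, hv, -, -, h⟩ := krull' R G.normal G.frac ⊥
    (fun s hs => Submonoid.mem_bot.1 hs ▸ one_mem R) (y := H.br f g) hb hb0
    (by rwa [e, mul_div_cancel₀ _ hb0]) fun s hs => by rwa [Submonoid.mem_bot.1 hs, one_mul]
  exact h (G.closed v hv f g (hv.1 f hf) (hv.1 g hg))

theorem xi_mem (i : Fin n) {f : K} (hf : f ∈ R) : H.ξ i f ∈ R := G.br_mem (G.mu_mem i) hf

/-- homogeneous denominators -/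
theorem hom_den {y s : K} (hy : y ∈ H.deg α) (hs : s ∈ R) (hys : y * s ∈ R) (Q : Submodule ℂ K)
    (hQ : s ∉ Q) : ∃ δ, ∃ s' ∈ R, s' ∈ H.deg δ ∧ s' ∉ Q ∧ y * s' ∈ R := by
  obtain ⟨f, hf, rfl⟩ := G.dec hs
  obtain ⟨δ, hδ⟩ : ∃ δ, f δ ∉ Q := by
    by_contra hc
    push Not at hc
    exact hQ (sum_mem fun δ _ => hc δ)
  refine ⟨δ, f δ, (hf δ).1, (hf δ).2, hδ, ?_⟩
  refine comp (ξ := H.ξ) ((Subalgebra.toSubmodule R).comap (LinearMap.mulLeft ℂ y))
    (fun i w hw => ?_) f (fun α => (hf α).2) hys δ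
  have h1 := sub_mem (G.xi_mem i hw) (R.smul_mem hw (α i : ℂ))
  change H.ξ i (y * w) - (α i : ℂ) • (y * w) ∈ R at h1
  rw [Derivation.leibniz, hy i] at h1
  change y * H.ξ i w ∈ R
  convert h1 using 1
  simp [mul_comm]

theorem hom_den' {y : K} (hy : y ∈ H.deg α) :
    ∃ δ, ∃ s ∈ R, s ∈ H.deg δ ∧ s ≠ 0 ∧ y * s ∈ R := by
  obtain ⟨a, ha, b, hb, hb0, e⟩ := G.frac y
  simpa using G.hom_den hy hb (by rwa [e, div_mul_cancel₀ _ hb0]) ⊥ (by simpa using hb0)

theorem clear {y : K} (hy : y ∈ H.F) : ∃ a ∈ H.A, a ≠ 0 ∧ a * y ∈ R ⊓ H.F := by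
  obtain ⟨a, ha, h0, h⟩ := H.clear hy
  refine ⟨a, ha, h0, G.normal _ ?_, mul_mem (H.A_le_F ha) hy⟩
  let := (Subalgebra.inclusion G.A_le).toRingHom.toAlgebra
  have : IsScalarTower H.A R K := IsScalarTower.of_algebraMap_eq fun _ => rfl
  exact h.tower_top

theorem simple (W : Set K) (h1 : ∀ b ∈ R ⊓ H.F, ∀ w ∈ W, b * w ∈ W)
    (h2 : ∀ i, ∀ w ∈ W, H.pd i w ∈ W) {w : K} (hw : w ∈ W) (hF : w ∈ H.F) (h0 : w ≠ 0) :
    (1 : K) ∈ W := by
  obtain ⟨a, ha, ha0, h⟩ := G.clear (H.inv_F hF)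
  have h3 := h1 _ h w hw
  rw [inv_mul_cancel_right₀ h0] at h3
  obtain ⟨c, hc, h4⟩ := poly_adjoin H.mu H.pd H.pd_mu W h2 ha ha0 h3
  have := h1 _ (Subalgebra.algebraMap_mem _ c⁻¹) _ h4
  rwa [← map_mul, inv_mul_cancel₀ hc, map_one] at this

theorem pd_mem (i : Fin n) {b : K} (hb : b ∈ R ⊓ H.F) : H.pd i b ∈ R ⊓ H.F := by
  have := G.noeth
  have h : ∀ α, ∀ f ∈ R, f ∈ H.deg α → f ≠ 0 → ∑ i, (α i : K) * H.pd i b ∈ R := by
    intro α f hf hα h0
    refine mem_of_stable G.normal {f | f ∈ R ∧ f ∈ H.deg α} (fun _ h => h.1) ⟨hf, hα⟩ h0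
      fun g hg => ?_
    rw [mul_comm, ← neg_neg (g * _), ← H.br_F hg.2 hb.2]
    exact ⟨neg_mem (G.br_mem hg.1 hb.1), neg_mem (by simpa using H.br_mem hg.2 hb.2)⟩
  refine ⟨?_, H.pd_F i hb.2⟩
  obtain ⟨δ, s, hs, hδ, h0, h1⟩ := G.hom_den' (H.t_mem i)
  have := sub_mem (h _ _ h1 (eig_mul (H.t_mem i) hδ) (mul_ne_zero (H.t_ne i) h0)) (h _ _ hs hδ h0)
  rw [← Finset.sum_sub_distrib, Finset.sum_eq_single i] at this
  · simpa [add_mul] using this
  · intro j _ hj; simp [Pi.single_eq_of_ne hj]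
  · simp

theorem fg_B : (R ⊓ H.F).FG := by
  classical
  obtain ⟨ι, _, g, β, hg, rfl⟩ := G.fg
  obtain ⟨S, h1, h2⟩ := gordan β 0
  refine ⟨S.image fun p => ∏ q, g q ^ p.1 q, le_antisymm (Algebra.adjoin_le ?_) fun b hb => ?_⟩
  · intro x hx
    obtain ⟨p, hp, rfl⟩ := Finset.mem_image.1 hx
    refine ⟨Subalgebra.prod_mem _ fun q _ =>
      pow_mem (Algebra.subset_adjoin (Set.mem_range_self q)) _, ?_⟩
    have := eig_prod Finset.univ fun q _ => eig_pow (hg q) (p.1 q)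
    rwa [h1 p hp, smul_zero] at this
  · have hb' := mem_of_iSup (monSpan_le hg) (mem_iSup_monSpan g β hb.1) hb.2
    rw [← Subalgebra.mem_toSubmodule]
    refine Submodule.span_le.2 ?_ hb'
    rintro _ ⟨a, ha, rfl⟩
    have : ∀ p ∈ AddSubmonoid.closure (S : Set ((ι → ℕ) × ℕ)), ∏ q, g q ^ p.1 q ∈
        Algebra.adjoin ℂ (S.image (fun p => ∏ q, g q ^ p.1 q) : Set K) := fun p hp => by
      induction hp using AddSubmonoid.closure_induction with
      | mem p hp => exact Algebra.subset_adjoin (Finset.mem_coe.2 (Finset.mem_image_of_mem _ hp))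
      | zero => simp
      | add p r _ _ h1 h2 =>
        simpa [pow_add, Finset.prod_mul_distrib] using mul_mem h1 h2
    exact this _ (h2 a 0 (by simpa using ha))

/-- localisation at a homogeneous element -/
theorem away {g : K} (hg : g ∈ R) (hα : g ∈ H.deg α) (h0 : g ≠ 0) :
    ∃ R' : Subalgebra ℂ K, Good H R' ∧ ∀ y, y ∈ R' ↔ ∃ k : ℕ, g ^ k * y ∈ R := by
  let R' : Subalgebra ℂ K :=
    { carrier := {y | ∃ k : ℕ, g ^ k * y ∈ R}
      mul_mem' := by
        rintro a b ⟨k, hk⟩ ⟨l, hl⟩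
        exact ⟨k + l, by convert mul_mem hk hl using 1; ring⟩
      add_mem' := by
        rintro a b ⟨k, hk⟩ ⟨l, hl⟩
        exact ⟨k + l, by
          convert add_mem (mul_mem (pow_mem hg l) hk) (mul_mem (pow_mem hg k) hl) using 1; ring⟩
      algebraMap_mem' := fun c => ⟨0, by simp⟩ }
  have hle : R ≤ R' := fun r hr => ⟨0, by simpa using hr⟩
  have hinv : g⁻¹ ∈ R' := ⟨1, by simp [h0]⟩
  have hdiv : ∀ v : DV K, IsDiv R' v → IsDiv R v := fun v hv => by
    refine ⟨fun r hr => hv.1 r (hle hr), fun y hy => ?_⟩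
    obtain ⟨a, ⟨k, hk⟩, s, ⟨l, hl⟩, hs, hs0, rfl⟩ := hv.2 y hy
    have hg0 : v.ord g = 0 := by
      have h1 := (hv.1 g (hle hg)).le h0
      have h2 := (hv.1 _ hinv).le (inv_ne_zero h0)
      rw [v.ord_inv h0] at h2
      omega
    refine ⟨_, mul_mem (pow_mem hg l) hk, _, mul_mem (pow_mem hg k) hl,
      mul_ne_zero (pow_ne_zero _ h0) (mul_ne_zero (pow_ne_zero _ h0) hs), ?_, by field_simp⟩
    rw [v.ord_mul _ _ (pow_ne_zero _ h0) (mul_ne_zero (pow_ne_zero _ h0) hs),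
      v.ord_mul _ _ (pow_ne_zero _ h0) hs, v.ord_pow h0, v.ord_pow h0, hg0, hs0]
    simp
  refine ⟨R', ⟨?_, fun y => ?_, fun y hy => ?_, fun i => hle (G.mu_mem i),
    fun v hv => G.closed v (hdiv v hv), fun v hv => G.nonP v (hdiv v hv)⟩, fun _ => Iff.rfl⟩
  · obtain ⟨ι, _, u, β, hu, e⟩ := G.fg
    refine ⟨Option ι, inferInstance, fun q => q.elim g⁻¹ u, fun q => q.elim (-α) β, ?_,
      le_antisymm (Algebra.adjoin_le ?_) ?_⟩
    · rintro (_ | q)
      exacts [eig_inv hα, hu q]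
    · rintro _ ⟨_ | q, rfl⟩
      exacts [hinv, hle (e ▸ Algebra.subset_adjoin (Set.mem_range_self q))]
    · rintro y ⟨k, hk⟩
      have : y = g⁻¹ ^ k * (g ^ k * y) := by
        rw [inv_pow, inv_mul_cancel_left₀ (pow_ne_zero _ h0)]
      rw [this]
      refine mul_mem (pow_mem (Algebra.subset_adjoin (Set.mem_range_self none)) k) ?_
      rw [← e] at hk
      exact Algebra.adjoin_mono (by rintro _ ⟨q, rfl⟩; exact ⟨some q, rfl⟩) hk
  · obtain ⟨a, ha, b, hb, h⟩ := G.frac y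
    exact ⟨a, hle ha, b, hle hb, h⟩
  · let := (Subalgebra.inclusion hle).toRingHom.toAlgebra
    have : IsScalarTower R R' K := IsScalarTower.of_algebraMap_eq fun _ => rfl
    have : IsLocalization.Away (⟨g, hg⟩ : R) R' := by
      refine IsLocalization.Away.mk _ (IsUnit.of_mul_eq_one ⟨g⁻¹, hinv⟩
        (Subtype.ext (mul_inv_cancel₀ h0))) ?_ fun a b h => ⟨0, ?_⟩
      · rintro ⟨y, k, hk⟩
        exact ⟨k, ⟨_, hk⟩, Subtype.ext (mul_comm _ _)⟩
      · rw [Subalgebra.inclusion_injective hle h]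
    obtain ⟨⟨_, k, rfl⟩, h⟩ := IsIntegral.exists_multiple_integral_of_isLocalization
      (Submonoid.powers (⟨g, hg⟩ : R)) y hy
    exact ⟨k, G.normal _ h⟩

theorem charac (M : Submonoid K) (hM : ∀ s ∈ M, s ∈ R) {y : K} (hy : y ∈ H.deg α)
    (h : ∀ v, HD H R v → (∀ s ∈ M, ¬ v.Ge 1 s) → v.Ge 0 y) : ∃ s ∈ M, s * y ∈ R := by
  have := G.noeth
  by_contra hn
  push Not at hn
  obtain ⟨δ, b, hb, hδ, h0, h1⟩ := G.hom_den' hy
  obtain ⟨v, hv, h2, h3, h4⟩ := krull' R G.normal G.frac M hM hb h0 (mul_comm y b ▸ h1) hn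
  exact h4 (h v ⟨hv, δ, b, hb, hδ, h0, h3⟩ h2)

theorem xi_ge {v : DV K} (hv : HD H R v) (i : Fin n) {k : ℤ} {y : K} (hy : v.Ge k y) :
    v.Ge k (H.ξ i y) := by
  obtain ⟨hv, α, b, -, hα, h0, h1⟩ := hv
  refine DV.der_ge_of_log hv.const (H.ξ i)
    (fun a ha => G.closed v hv _ _ (hv.1 _ (G.mu_mem i)) ha) h0
    (by have := h1.le h0; omega) ?_ hy
  rw [hα i, smul_div_assoc, div_self h0]
  exact hv.const.smul _ DV.ge_one

/-- an invariant divisor meets the ring of invariants -/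
theorem center_ne {v : DV K} (hv : HD H R v) : ∃ b ∈ R ⊓ H.F, b ≠ 0 ∧ v.Ge 1 b := by
  by_contra hn
  push Not at hn
  have hF : ∀ y ∈ H.F, v.Ge 0 y := fun y hy => by
    obtain ⟨a, ha, h0, h1⟩ := G.clear hy
    have := (hv.1.1 _ h1.1).div_unit h0
      (DV.unit_of_not_ge (hv.1.1 a (G.A_le ha)) (hn a (G.A_le_B ha) h0)).2
    rwa [mul_div_cancel_left₀ _ h0] at this
  have h1 : ∀ r ∈ R, ∀ b ∈ R, v.Ge 1 b → v.Ge 1 (H.br r b) := fun r hr b hb h => by
    obtain ⟨f, hf, rfl⟩ := G.dec hr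
    obtain ⟨g, hg, rfl⟩ := G.dec hb
    have hg1 := comp (ξ := H.ξ) (hv.1.const.sub 1) (fun i w hw => G.xi_ge hv i hw) g
      (fun α => (hg α).2) h
    rw [Finsupp.sum, Finsupp.sum, map_sum]
    refine DV.Ge.sum fun γ _ => ?_
    rw [H.skew, map_sum]
    refine (DV.Ge.sum fun β _ => ?_).neg
    by_cases h0 : f β = 0
    · simp [h0, DV.ge_zero]
    by_cases h2 : g γ = 0
    · simp [h2, H.br_zero, DV.ge_zero]
    have := (hF _ (eig_div_same (H.br_mem (hg γ).2 (hf β).2) (eig_mul (hg γ).2 (hf β).2))).mul_left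
      (DV.Ge.mul_right (hg1 γ) (hv.1.1 _ (hf β).1))
    rwa [div_mul_cancel₀ _ (mul_ne_zero h2 h0)] at this
  obtain ⟨f, g, hf, hg, h⟩ := G.nonP v hv.1
  obtain ⟨a, ha, s, hs, hs0, hs1, rfl⟩ := hv.1.2 f hf
  obtain ⟨b, hb, u, hu, hu0, hu1, rfl⟩ := hv.1.2 g (hg.mono (by omega))
  have hb1 : v.Ge 1 b := by
    have := hg.mul_right (hv.1.1 u hu)
    rwa [div_mul_cancel₀ _ hu0] at this
  have inv : ∀ s : K, s ≠ 0 → v.ord s = 0 → v.Ge 0 (s⁻¹ ^ 2) := fun s h0 h1 =>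
    DV.Ge.pow (Or.inr (by rw [v.ord_inv h0, h1]; rfl)) 2
  have h2 : v.Ge 1 (H.br (a / s) b) := by
    rw [H.skew, Derivation.leibniz_div, H.skew b, H.skew b]
    exact ((inv s hs0 hs1).mul_left (((hv.1.1 s hs).mul_left (h1 a ha b hb hb1).neg).sub
      ((hv.1.1 a ha).mul_left (h1 s hs b hb hb1).neg))).neg
  refine h ?_
  rw [Derivation.leibniz_div]
  exact (inv u hu0 hu1).mul_left (((hv.1.1 u hu).mul_left h2).sub
    (hb1.mul_right (G.closed v hv.1 _ _ hf (hv.1.1 u hu))))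

/-- every weight occurs -/
theorem exists_deg (α : Fin n → ℤ) : ∃ r ∈ R, r ∈ H.deg α ∧ r ≠ 0 := by
  let M : Submonoid K := (R ⊓ H.F).toSubmonoid ⊓ nonZeroDivisors K
  obtain ⟨s, hs, h⟩ := G.charac M (fun s hs => hs.1.1) (eig_tpow H.t_mem α) fun v hv h => by
    obtain ⟨b, hb, h0, h1⟩ := G.center_ne hv
    exact (h b ⟨hb, mem_nonZeroDivisors_of_ne_zero h0⟩ h1).elim
  exact ⟨_, h, eig_zero_mul hs.1.2 (eig_tpow H.t_mem α),
    mul_ne_zero (nonZeroDivisors.ne_zero hs.2) (tpow_ne H.t_ne α)⟩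

theorem alg_B {y : K} (hy : y ∈ H.F) : IsAlgebraic (R ⊓ H.F : Subalgebra ℂ K) y := by
  let := (Subalgebra.inclusion G.A_le_B).toRingHom.toAlgebra
  have : IsScalarTower H.A (R ⊓ H.F : Subalgebra ℂ K) K :=
    IsScalarTower.of_algebraMap_eq fun _ => rfl
  exact (H.alg_F hy).extendScalars (Subalgebra.inclusion_injective G.A_le_B)

/-- the invariants of a homogeneous localisation lie in the local ring of the invariants -/
theorem chart' {R' : Subalgebra ℂ K} (G' : Good H R') (hle : R ≤ R') (Q : AddSubmonoid K)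
    (hQ : ∀ b ∈ R' ⊓ H.F, ∀ q ∈ Q, q ∈ R ⊓ H.F → q * b ∈ Q) (h1 : (1 : K) ∉ Q) {y : K}
    (hy : y ∈ R' ⊓ H.F) : ∃ s ∈ R ⊓ H.F, s ∉ Q ∧ s * y ∈ R ⊓ H.F := by
  have h := inf_le_inf_right H.F hle
  obtain ⟨d, hd, hd0, hc⟩ := G.clear hy.2
  exact chart h (etale_sub h G.fg_B G'.fg_B (fun b hb => G.alg_B hb.2) H.pd
    (fun i a => G.pd_mem i) (fun i a => G'.pd_mem i)
    fun W h1 h2 w hw hF h0 => G.simple W h1 h2 hw hF.2 h0) Q hQ h1 hy hc (G.A_le_B hd) hd0 rfl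

theorem etale_B : (Subalgebra.inclusion G.A_le_B).toRingHom.Etale := by
  classical
  refine etale_sub _ ⟨Finset.univ.image H.mu, by simp⟩ G.fg_B (fun b hb => H.alg_F hb.2) H.pd
    (fun i a => H.pd_A i) (fun i a => G.pd_mem i) fun W h1 h2 w hw hA h0 => ?_
  obtain ⟨c, hc, h4⟩ := poly_adjoin H.mu H.pd H.pd_mu W h2 hA h0 hw
  have := h1 _ (Subalgebra.algebraMap_mem _ c⁻¹) _ h4
  rwa [← map_mul, inv_mul_cancel₀ hc, map_one] at this

end Good

end Pool.Agent.MP_51db15_ag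

end MrgPart1

-- marker of a merged file
example : 731051 + 836705 = 731051 + 836705 := rfl
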