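import Mathlib.Topology.Sheaves.Presheaf
import Mathlib.Data.Int.Star
import Mathlib.Algebra.Order.Ring.Star
import Mathlib.Analysis.Complex.Polynomial.Basic
import Mathlib.RingTheory.Valuation.LocalSubring
import Mathlib.Analysis.CStarAlgebra.Classes
import Mathlib.Combinatorics.SimpleGraph.Basic
import Mathlib.RingTheory.PiTensorProduct
import Pool.Agent.MP_51db15_ag.Good

-- ======== part 0: formerly Pool.Agent.MP_51db15_ag.Div
section MrgPart0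

/-! Invariant divisors lie over divisors of the quotient, without ramification. -/

set_option linter.unusedSectionVars false

namespace Pool.Agent.MP_51db15_ag

variable {K : Type} [Field K] [Algebra ℂ K] {n : ℕ}

namespace Good

variable {H : Ham K n} {R : Subalgebra ℂ K} (G : Good H R) {α β : Fin n → ℤ} {v w : DV K}
include G

theorem loc_F (hv : HD H R v) {y : K} (hy : y ∈ H.F) (h : v.Ge 0 y) :
    ∃ s ∈ R ⊓ H.F, ¬ v.Ge 1 s ∧ s * y ∈ R ⊓ H.F := by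
  obtain ⟨a, ha, s, hs, hs0, hs1, e⟩ := hv.1.2 y h
  obtain ⟨δ, g, hg, hδ, hg1, hyg⟩ := G.hom_den hy hs (by rwa [e, div_mul_cancel₀ _ hs0])
    (hv.1.const.sub 1) (DV.not_ge_of_unit hs0 hs1)
  obtain ⟨hg0, hg2⟩ := DV.unit_of_not_ge (hv.1.1 g hg) hg1
  obtain ⟨R', G', hR'⟩ := G.away hg hδ hg0
  refine G.chart' G' (fun r hr => (hR' r).2 ⟨0, by simpa using hr⟩)
    (hv.1.const.sub 1).toAddSubmonoid (fun b hb q hq _ => DV.Ge.mul_right hq ?_)
    DV.not_ge_one_one ⟨(hR' y).2 ⟨1, by rwa [pow_one, mul_comm]⟩, hy⟩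
  obtain ⟨k, hk⟩ := (hR' b).1 hb.1
  have := (hv.1.1 _ hk).div_unit (pow_ne_zero k hg0) (by rw [v.ord_pow hg0, hg2, mul_zero])
  rwa [mul_div_cancel_left₀ _ (pow_ne_zero k hg0)] at this

theorem pd_ge (hv : HD H R v) (i : Fin n) {y : K} (hy : y ∈ H.F) (h : v.Ge 0 y) :
    v.Ge 0 (H.pd i y) := by
  obtain ⟨s, hs, hs1, hb⟩ := G.loc_F hv hy h
  obtain ⟨hs0, hs2⟩ := DV.unit_of_not_ge (hv.1.1 s hs.1) hs1
  have := ((hv.1.1 _ (G.pd_mem i hb).1).sub (h.mul_left (hv.1.1 _ (G.pd_mem i hs).1))).div_unit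
    hs0 hs2
  rwa [Derivation.leibniz, smul_eq_mul, smul_eq_mul, add_sub_cancel_right,
    mul_div_cancel_left₀ _ hs0] at this

theorem unif_B (hv : HD H R v) : ∃ π ∈ R ⊓ H.F, π ≠ 0 ∧ v.ord π = 1 := by
  classical
  have hex : ∃ e : ℕ, 0 < e ∧ ∃ y ∈ H.F, y ≠ 0 ∧ v.ord y = e := by
    obtain ⟨b, hb, h0, h1⟩ := G.center_ne hv
    have := h1.le h0
    exact ⟨(v.ord b).toNat, by omega, b, hb.2, h0, by omega⟩
  obtain ⟨he, y, hy, hy0, hye⟩ := Nat.find_spec hex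
  set e := Nat.find hex with hed
  have hmin : ∀ y ∈ H.F, v.Ge 1 y → v.Ge e y := fun y hy h => by
    by_cases h0 : y = 0
    · exact Or.inl h0
    have h1 := h.le h0
    have := Nat.find_min' hex (m := (v.ord y).toNat) ⟨by omega, y, hy, h0, by omega⟩
    exact Or.inr (by omega)
  obtain ⟨s, hs, hs1, hπ⟩ := G.loc_F hv hy (Or.inr (by omega))
  obtain ⟨hs0, hs2⟩ := DV.unit_of_not_ge (hv.1.1 s hs.1) hs1
  have hπ0 := mul_ne_zero hs0 hy0
  have hπe : v.ord (s * y) = e := by rw [v.ord_mul _ _ hs0 hy0, hs2, hye, zero_add]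
  refine ⟨_, hπ, hπ0, ?_⟩
  generalize s * y = π at hπ hπ0 hπe
  obtain ⟨i, hi⟩ : ∃ i, ¬ v.Ge 1 (H.pd i π) := by
    by_contra hc
    push Not at hc
    refine DV.not_ge_one_one (G.simple {b | b ∈ H.F ∧ v.Ge 1 b}
      (fun b hb w hw => ⟨mul_mem hb.2 hw.1, (hv.1.1 b hb.1).mul_left hw.2⟩)
      (fun i b hb => ⟨H.pd_F i hb.1, ?_⟩) (w := π) ⟨hπ.2, Or.inr (by omega)⟩ hπ.2 hπ0).2
    have h1 : v.Ge 0 (b / π) := by simpa [hπe] using (hmin b hb.1 hb.2).div hπ0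
    rw [← mul_div_cancel₀ b hπ0, Derivation.leibniz]
    exact (DV.Ge.mul_right (Or.inr (by omega)) (G.pd_ge hv i (H.div_F hb.1 hπ.2) h1)).add
      (h1.mul_left (hc i))
  obtain ⟨h2, h3⟩ := DV.unit_of_not_ge (G.pd_ge hv i hπ.2 (Or.inr (by omega))) hi
  have hu : H.t i ^ (e : ℤ) * π ^ (-v.ord (H.t i)) ∈ H.deg ((e : ℤ) • Pi.single i 1) :=
    eig_mul_zero (eig_zpow (H.t_mem i) e) (H.zpow_F hπ.2 _)
  have hu0 := mul_ne_zero (zpow_ne_zero (e : ℤ) (H.t_ne i)) (zpow_ne_zero (-v.ord (H.t i)) hπ0)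
  have hu1 : v.ord (H.t i ^ (e : ℤ) * π ^ (-v.ord (H.t i))) = 0 := by
    rw [v.ord_mul _ _ (zpow_ne_zero _ (H.t_ne i)) (zpow_ne_zero _ hπ0), v.ord_zpow (H.t_ne i),
      v.ord_zpow hπ0, hπe]
    ring
  generalize H.t i ^ (e : ℤ) * π ^ (-v.ord (H.t i)) = u at hu hu0 hu1
  have h4 := (DV.der_ge (H.br u) (fun a ha => G.closed v hv.1 u a (Or.inr hu1.ge) ha)
    (DV.ge_self π)).neg
  have he0 : ((e : ℤ) : K) ≠ 0 := by
    rw [← map_intCast (algebraMap ℂ K)]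
    exact (map_ne_zero _).2 (by simpa using he.ne')
  have he1 : v.ord ((e : ℤ) : K) = 0 := by
    rw [← map_intCast (algebraMap ℂ K)]
    exact hv.1.const.ord (by simpa using he.ne')
  rw [H.br_F_single hu hπ.2, neg_neg, DV.ge_iff (mul_ne_zero hu0 (mul_ne_zero he0 h2)),
    v.ord_mul _ _ hu0 (mul_ne_zero he0 h2), v.ord_mul _ _ he0 h2] at h4
  omega

theorem ord_eq_of_le (hv : HD H R v) (hw : HD H R w)
    (h : ∀ b ∈ R ⊓ H.F, v.Ge 1 b → w.Ge 1 b) {y : K} (hy : y ∈ H.F) (h0 : y ≠ 0) :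
    v.ord y = w.ord y := by
  have h1 : ∀ y ∈ H.F, w.Ge 0 y → v.Ge 0 y := fun y hy h2 => by
    obtain ⟨s, hs, hs1, hb⟩ := G.loc_F hw hy h2
    obtain ⟨hs0, hs2⟩ := DV.unit_of_not_ge (hv.1.1 s hs.1) fun h3 => hs1 (h s hs h3)
    have := (hv.1.1 _ hb.1).div_unit hs0 hs2
    rwa [mul_div_cancel_left₀ _ hs0] at this
  obtain ⟨π, hπ, hπ0, hπ1⟩ := G.unif_B hw
  have h2 : ∀ y ∈ H.F, y ≠ 0 → v.ord y = w.ord y * v.ord π := fun y hy h0 => by
    have hz := zpow_ne_zero (w.ord y) hπ0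
    have hu := H.div_F hy (H.zpow_F hπ.2 (w.ord y))
    have hu0 := div_ne_zero h0 hz
    have hu1 : w.ord (y / π ^ w.ord y) = 0 := by
      rw [w.ord_div h0 hz, w.ord_zpow hπ0, hπ1]; ring
    have h3 := (h1 _ hu (Or.inr hu1.ge)).le hu0
    have h4 := (h1 _ (H.inv_F hu) (Or.inr (by rw [w.ord_inv hu0, hu1]; rfl))).le (inv_ne_zero hu0)
    rw [v.ord_inv hu0] at h4
    rw [v.ord_div h0 hz, v.ord_zpow hπ0] at h3 h4
    omega
  obtain ⟨ρ, hρ, hρ0, hρ1⟩ := G.unif_B hv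
  have h3 := h2 ρ hρ.2 hρ0
  rw [hρ1, mul_comm] at h3
  rw [h2 y hy h0, Int.eq_one_of_mul_eq_one_right ((hv.1.1 π hπ.1).le hπ0) h3.symm, mul_one]

theorem pd_log (hv : HD H R v) (i : Fin n) {y : K} (hy : y ∈ H.F) (h0 : y ≠ 0) :
    v.Ge (-1) (H.pd i y / y) ∧ (v.ord y = 0 → v.Ge 0 (H.pd i y / y)) := by
  have h1 : ∀ y ∈ H.F, y ≠ 0 → v.ord y = 0 → v.Ge 0 (H.pd i y / y) := fun y hy h0 h =>
    (G.pd_ge hv i hy (Or.inr h.ge)).div_unit h0 h
  refine ⟨?_, h1 y hy h0⟩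
  obtain ⟨π, hπ, hπ0, hπ1⟩ := G.unif_B hv
  have hz := zpow_ne_zero (v.ord y) hπ0
  have hu0 := div_ne_zero h0 hz
  have h2 := h1 _ (H.div_F hy (H.zpow_F hπ.2 (v.ord y))) hu0 (by
    rw [v.ord_div h0 hz, v.ord_zpow hπ0, hπ1]; ring)
  have h3 := DV.log_mul (H.pd i) hz hu0
  rw [mul_div_cancel₀ _ hz, DV.log_zpow _ hπ0] at h3
  rw [h3]
  refine ((DV.ge_intCast _).mul_left ?_).add (h2.mono (by omega))
  simpa [hπ1] using (G.pd_ge hv i hπ.2 (hv.1.1 π hπ.1)).div hπ0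

/-- two invariant divisors over the same divisor of the quotient -/
theorem cross (hv : HD H R v) (hw : HD H R w) (h : ∀ y ∈ H.F, y ≠ 0 → v.ord y = w.ord y)
    {π : K} (hπ : π ∈ H.F) (hπ0 : π ≠ 0) (hπ1 : v.ord π = 1) (i j : Fin n) :
    v.Ge 1 (((v.ord (H.t i) - w.ord (H.t i) : ℤ) : K) * H.pd j π -
      ((v.ord (H.t j) - w.ord (H.t j) : ℤ) : K) * H.pd i π) := by
  have hb : ∀ (a b : ℤ), H.br (H.t i * π ^ a) (H.t j * π ^ b) / (H.t i * π ^ a * (H.t j * π ^ b)) =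
      H.br (H.t i) (H.t j) / (H.t i * H.t j) + a * (H.pd j π / π) - b * (H.pd i π / π) := by
    intro a b
    have ha0 := zpow_ne_zero a hπ0
    have hb0 := zpow_ne_zero b hπ0
    have hi := H.t_ne i
    have hj := H.t_ne j
    have h1 := H.br_F_single (i := i) (e := 1) (u := H.t i * π ^ a)
      (by simpa using eig_mul_zero (H.t_mem i) (H.zpow_F hπ a)) (H.zpow_F hπ b)
    have h2 := H.br_F_single (i := j) (e := 1) (u := H.t j) (by simpa using H.t_mem j)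
      (H.zpow_F hπ a)
    have h3 := DV.log_zpow (H.pd i) hπ0 b
    have h4 := DV.log_zpow (H.pd j) hπ0 a
    rw [div_eq_iff hb0] at h3
    rw [div_eq_iff ha0] at h4
    rw [Derivation.leibniz, h1, H.br_mul, H.skew (π ^ a), h2, h3, h4]
    simp only [smul_eq_mul]
    field_simp
    ring
  have hc : ∀ u : DV K, HD H R u → u.ord π = 1 → u.Ge 0
      (H.br (H.t i * π ^ (-u.ord (H.t i))) (H.t j * π ^ (-u.ord (H.t j))) /
        (H.t i * π ^ (-u.ord (H.t i)) * (H.t j * π ^ (-u.ord (H.t j))))) := by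
    intro u hu h1
    have h2 : ∀ k, H.t k * π ^ (-u.ord (H.t k)) ≠ 0 ∧ u.ord (H.t k * π ^ (-u.ord (H.t k))) = 0 :=
      fun k => ⟨mul_ne_zero (H.t_ne k) (zpow_ne_zero _ hπ0), by
        rw [u.ord_mul _ _ (H.t_ne k) (zpow_ne_zero _ hπ0), u.ord_zpow hπ0, h1]; ring⟩
    exact (G.closed u hu.1 _ _ (Or.inr (h2 i).2.ge) (Or.inr (h2 j).2.ge)).div_unit
      (mul_ne_zero (h2 i).1 (h2 j).1) (by rw [u.ord_mul _ _ (h2 i).1 (h2 j).1, (h2 i).2, (h2 j).2]; rfl)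
  have h1 := hc v hv hπ1
  have h2 := hc w hw (h π hπ hπ0 ▸ hπ1)
  have hF : ∀ (a b : ℤ), H.br (H.t i * π ^ a) (H.t j * π ^ b) /
      (H.t i * π ^ a * (H.t j * π ^ b)) ∈ H.F := fun a b =>
    have h1 := eig_mul_zero (H.t_mem i) (H.zpow_F hπ a)
    have h2 := eig_mul_zero (H.t_mem j) (H.zpow_F hπ b)
    eig_div_same (H.br_mem h1 h2) (eig_mul h1 h2)
  have h3 : ∀ y ∈ H.F, w.Ge 0 y → v.Ge 0 y := fun y hy h2 => by
    by_cases h0 : y = 0
    · exact Or.inl h0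
    · exact Or.inr (h y hy h0 ▸ h2.le h0)
  have h4 := ((h3 _ (hF _ _) h2).sub h1).mul_left (Or.inr hπ1.ge : v.Ge 1 π)
  rw [hb, hb] at h4
  convert h4 using 1
  push_cast
  field_simp
  ring

end Good

end Pool.Agent.MP_51db15_ag

end MrgPart0

-- ======== part 1: formerly Pool.Agent.MP_51db15_ag.Hyp
section MrgPart1

/-! The discriminant is a union of hyperplanes. -/

set_option linter.unusedSectionVars false

namespace Pool.Agent.MP_51db15_ag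

variable {K : Type} [Field K] [Algebra ℂ K] {n : ℕ}

/-- linear form with integer coefficients -/
def lin (μ : Fin n → K) (ℓ : Fin n → ℤ) : K := ∑ i, (ℓ i : K) * μ i

namespace Ham

variable (H : Ham K n) {ℓ : Fin n → ℤ} {i₀ : Fin n}

theorem lin_A (ℓ : Fin n → ℤ) : lin H.mu ℓ ∈ H.A :=
  sum_mem fun i _ => mul_mem (intCast_mem _ _) (Algebra.subset_adjoin (Set.mem_range_self i))

theorem pd_lin (ℓ : Fin n → ℤ) (i : Fin n) : H.pd i (lin H.mu ℓ) = ℓ i := by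
  simp [lin, map_sum, H.pd_mu]

/-- constant vector fields along the hyperplane -/
noncomputable def tan (ℓ : Fin n → ℤ) (i₀ : Fin n) (j : {j // j ≠ i₀}) : Derivation ℂ K K :=
  H.pd j - ((ℓ j : ℂ) / (ℓ i₀ : ℂ)) • H.pd i₀

theorem tan_apply (j : {j // j ≠ i₀}) (y : K) :
    H.tan ℓ i₀ j y = H.pd j y - ((ℓ j : ℂ) / (ℓ i₀ : ℂ)) • H.pd i₀ y := rfl

theorem tan_mu (j k : {j // j ≠ i₀}) : H.tan ℓ i₀ j (H.mu k) = if j = k then 1 else 0 := by
  rw [tan_apply, H.pd_mu, H.pd_mu, if_neg (Ne.symm k.2), smul_zero, sub_zero]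
  simp [Subtype.ext_iff]

theorem tan_lin (ℓ' : Fin n → ℤ) (j : {j // j ≠ i₀}) :
    H.tan ℓ i₀ j (lin H.mu ℓ') = algebraMap ℂ K (ℓ' j - ℓ j / ℓ i₀ * ℓ' i₀) := by
  rw [tan_apply, H.pd_lin, H.pd_lin, Algebra.smul_def]
  simp

theorem tan_lin_self (h : ℓ i₀ ≠ 0) (j : {j // j ≠ i₀}) : H.tan ℓ i₀ j (lin H.mu ℓ) = 0 := by
  rw [H.tan_lin, div_mul_cancel₀ _ (by exact_mod_cast h), sub_self, map_zero]

theorem tan_F (j : {j // j ≠ i₀}) {y : K} (hy : y ∈ H.F) : H.tan ℓ i₀ j y ∈ H.F :=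
  sub_mem (H.pd_F _ hy) (H.F.smul_mem (H.pd_F _ hy) _)

theorem mu_eq (h : ℓ i₀ ≠ 0) : H.mu i₀ = (ℓ i₀ : ℂ)⁻¹ •
    (lin H.mu ℓ - ∑ j : {j // j ≠ i₀}, (ℓ j : K) * H.mu j) := by
  rw [lin, Fintype.sum_eq_add_sum_subtype_ne _ i₀, add_sub_cancel_right,
    ← map_intCast (algebraMap ℂ K), ← Algebra.smul_def, inv_smul_smul₀ (by exact_mod_cast h)]

theorem split (h : ℓ i₀ ≠ 0) {a : K} (ha : a ∈ H.A) :
    ∃ q ∈ Algebra.adjoin ℂ (Set.range fun j : {j // j ≠ i₀} => H.mu j), ∃ a' ∈ H.A,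
      a = q + lin H.mu ℓ * a' := by
  have hle : Algebra.adjoin ℂ (Set.range fun j : {j // j ≠ i₀} => H.mu j) ≤ H.A :=
    Algebra.adjoin_mono (by rintro _ ⟨j, rfl⟩; exact ⟨j, rfl⟩)
  induction ha using Algebra.adjoin_induction with
  | mem _ hx =>
    obtain ⟨j, rfl⟩ := hx
    by_cases hj : j = i₀
    · subst hj
      refine ⟨-((ℓ j : ℂ)⁻¹ • ∑ k : {k // k ≠ j}, (ℓ k : K) * H.mu k), neg_mem
        (Subalgebra.smul_mem _ (sum_mem fun k _ => mul_mem (intCast_mem _ _)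
          (Algebra.subset_adjoin (Set.mem_range_self k))) _), algebraMap ℂ K (ℓ j : ℂ)⁻¹,
        Subalgebra.algebraMap_mem _ _, ?_⟩
      conv_lhs => rw [H.mu_eq h]
      rw [smul_sub, mul_comm, ← Algebra.smul_def]; ring
    · exact ⟨_, Algebra.subset_adjoin (Set.mem_range_self ⟨j, hj⟩), 0, zero_mem _, by simp⟩
  | algebraMap c => exact ⟨_, Subalgebra.algebraMap_mem _ c, 0, zero_mem _, by simp⟩
  | add a b _ _ h1 h2 =>
    obtain ⟨q, hq, a', ha', rfl⟩ := h1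
    obtain ⟨r, hr, b', hb', rfl⟩ := h2
    exact ⟨_, add_mem hq hr, _, add_mem ha' hb', by ring⟩
  | mul a b _ hb h1 h2 =>
    obtain ⟨q, hq, a', ha', rfl⟩ := h1
    obtain ⟨r, hr, b', hb', e⟩ := h2
    exact ⟨_, mul_mem hq hr, _, add_mem (mul_mem ha' hb) (mul_mem (hle hq) hb'), by
      rw [e]; ring⟩

theorem exists_const (h : ℓ i₀ ≠ 0) (W : Set K) (hW : ∀ j, ∀ w ∈ W, H.tan ℓ i₀ j w ∈ W) {a : K}
    (ha : a ∈ H.A) (h0 : a ≠ 0) (hw : a ∈ W) :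
    ∃ p : Polynomial ℂ, p ≠ 0 ∧ Polynomial.aeval (lin H.mu ℓ) p ∈ W := by
  let φ : Polynomial ℂ →ₐ[ℂ] K := Polynomial.aeval (lin H.mu ℓ)
  let ψ : MvPolynomial {j // j ≠ i₀} (Polynomial ℂ) →ₐ[ℂ] K :=
    MvPolynomial.aevalTower φ fun j => H.mu j
  have h1 : H.A ≤ ψ.range := Algebra.adjoin_le (by
    rintro _ ⟨j, rfl⟩
    have h2 : ∀ k : {j // j ≠ i₀}, H.mu k ∈ ψ.range := fun k => ⟨MvPolynomial.X k, by simp [ψ]⟩
    by_cases hj : j = i₀
    · subst hj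
      rw [H.mu_eq h]
      have h3 : lin H.mu ℓ ∈ ψ.range := ⟨MvPolynomial.C Polynomial.X, by simp [ψ, φ]⟩
      exact Subalgebra.smul_mem _ (sub_mem h3 (sum_mem fun k _ => mul_mem (intCast_mem _ _) (h2 k))) _
    · exact h2 ⟨j, hj⟩)
  obtain ⟨p, rfl⟩ := h1 ha
  exact poly (φ : Polynomial ℂ →+* K) (fun j : {j // j ≠ i₀} => H.mu j) (H.tan ℓ i₀)
    (fun j c => by
      change H.tan ℓ i₀ j (Polynomial.aeval _ c) = 0
      rw [Derivation.map_aeval, H.tan_lin_self h, smul_zero])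
    (H.tan_mu) W hW p (fun hp => h0 (by simp [hp])) hw

end Ham

theorem exists_root {v : DV K} (hv : v.Const) {z : K} (hz : v.Ge 0 z) (p : Polynomial ℂ)
    (hp : p ≠ 0) (h : v.Ge 1 (Polynomial.aeval z p)) : ∃ c : ℂ, v.Ge 1 (z - algebraMap ℂ K c) := by
  induction hN : p.natDegree generalizing p with
  | zero =>
    obtain ⟨c, rfl⟩ := Polynomial.natDegree_eq_zero.1 hN
    rw [Polynomial.aeval_C] at h
    exact (hv.not_ge (by simpa using hp) h).elim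
  | succ N ih =>
    obtain ⟨c, hc⟩ := IsAlgClosed.exists_root p (by
      rw [Polynomial.degree_eq_natDegree hp, hN]; exact_mod_cast N.succ_ne_zero)
    obtain ⟨q, rfl⟩ := Polynomial.dvd_iff_isRoot.2 hc
    have hq : q ≠ 0 := right_ne_zero_of_mul hp
    rw [map_mul] at h
    have h1 : v.Ge 0 (Polynomial.aeval z q) := by
      rw [Polynomial.aeval_eq_sum_range]
      exact DV.Ge.sum fun i _ => hv.smul _ (hz.pow i)
    rcases DV.ge_one_mul (by simpa using hz.sub (hv c)) h1 h with h2 | h2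
    · exact ⟨c, by simpa using h2⟩
    · refine ih q hq h2 ?_
      rw [Polynomial.natDegree_mul (Polynomial.X_sub_C_ne_zero c) hq,
        Polynomial.natDegree_X_sub_C] at hN
      omega

/-- a point of the model at which the moment map vanishes -/
structure Pt (H : Ham K n) (R : Subalgebra ℂ K) (m : Submodule ℂ K) : Prop where
  mul_mem : ∀ r ∈ R, ∀ x ∈ m, r * x ∈ m
  prime : ∀ a ∈ R, ∀ b ∈ R, a * b ∈ m → a ∈ m ∨ b ∈ m
  one : (1 : K) ∉ m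
  mu : ∀ i, H.mu i ∈ m

/-- invariant divisors whose image in the quotient passes through the image of the point -/
def HDm (H : Ham K n) (R : Subalgebra ℂ K) (m : Submodule ℂ K) (v : DV K) : Prop :=
  HD H R v ∧ ∀ b ∈ R ⊓ H.F, v.Ge 1 b → b ∈ m

theorem Pt.const {H : Ham K n} {R : Subalgebra ℂ K} {m : Submodule ℂ K} (P : Pt H R m) {c : ℂ}
    (h : algebraMap ℂ K c ∈ m) : c = 0 := by
  by_contra hc
  have := m.smul_mem c⁻¹ h
  rw [Algebra.smul_def, ← map_mul, inv_mul_cancel₀ hc, map_one] at this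
  exact P.one this

theorem Pt.lin_mem {H : Ham K n} {R : Subalgebra ℂ K} {m : Submodule ℂ K} (P : Pt H R m)
    (ℓ : Fin n → ℤ) : lin H.mu ℓ ∈ m :=
  sum_mem fun i _ => P.mul_mem _ (intCast_mem _ _) _ (P.mu i)

namespace Good

variable {H : Ham K n} {R : Subalgebra ℂ K} (G : Good H R) {v w : DV K} {m : Submodule ℂ K}
  {ℓ : Fin n → ℤ} {i₀ : Fin n}
include G

theorem tan_ge (hv : HD H R v) (j : {j // j ≠ i₀}) {y : K} (hy : y ∈ H.F) (h : v.Ge 0 y) :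
    v.Ge 0 (H.tan ℓ i₀ j y) :=
  (G.pd_ge hv _ hy h).sub (hv.1.const.smul _ (G.pd_ge hv _ hy h))

theorem tan_mem (j : {j // j ≠ i₀}) {y : K} (hy : y ∈ R ⊓ H.F) : H.tan ℓ i₀ j y ∈ R ⊓ H.F :=
  sub_mem (G.pd_mem _ hy) (Subalgebra.smul_mem _ (G.pd_mem _ hy) _)

theorem tan_ge_one (hv : HD H R v) (j : {j // j ≠ i₀}) {π : K} (hπ : π ∈ H.F) (hπ0 : π ≠ 0)
    (hπ1 : v.ord π = 1) (h : v.Ge 1 (H.tan ℓ i₀ j π)) {y : K} (hy : y ∈ H.F) (h1 : v.Ge 1 y) :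
    v.Ge 1 (H.tan ℓ i₀ j y) := by
  have h2 : v.Ge 0 (y / π) := by simpa [hπ1] using h1.div hπ0
  rw [← mul_div_cancel₀ y hπ0, Derivation.leibniz]
  exact (DV.Ge.mul_right (Or.inr hπ1.ge) (G.tan_ge hv j (H.div_F hy hπ) h2)).add (h2.mul_left h)

/-- two different invariant divisors with the same image lie over a hyperplane -/
theorem lin_ge (P : Pt H R m) (hv : HDm H R m v) (hw : HD H R w)
    (h : ∀ y ∈ H.F, y ≠ 0 → v.ord y = w.ord y) :
    v.Ge 1 (lin H.mu fun i => v.ord (H.t i) - w.ord (H.t i)) := by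
  set ℓ : Fin n → ℤ := fun i => v.ord (H.t i) - w.ord (H.t i) with hℓ
  by_cases h0 : ∀ i, ℓ i = 0
  · exact Or.inl (by simp [lin, h0])
  push Not at h0
  obtain ⟨i₀, h0⟩ := h0
  obtain ⟨π, hπ, hπ0, hπ1⟩ := G.unif_B hv.1
  obtain ⟨a, ha, ha0, hb⟩ := G.clear (H.inv_F hπ.2)
  have ha1 : v.Ge 1 a := by
    have := (hv.1.1.1 _ hb.1).mul_left (Or.inr hπ1.ge : v.Ge 1 π)
    rwa [inv_mul_cancel_right₀ hπ0] at this
  obtain ⟨p, hp, h1⟩ := H.exists_const h0 {y | y ∈ H.F ∧ v.Ge 1 y} (fun j y hy =>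
    ⟨H.tan_F j hy.1, G.tan_ge_one hv.1 j hπ.2 hπ0 hπ1 (by
      refine hv.1.1.const.of_smul (c := (ℓ i₀ : ℂ)) (by exact_mod_cast h0) ?_
      rw [Ham.tan_apply, smul_sub, smul_smul, mul_div_cancel₀ _ (by exact_mod_cast h0),
        Algebra.smul_def, Algebra.smul_def, map_intCast, map_intCast]
      exact G.cross hv.1 hw h hπ.2 hπ0 hπ1 i₀ j) hy.1 hy.2⟩) ha ha0 ⟨H.A_le_F ha, ha1⟩
  obtain ⟨c, hc⟩ := exists_root hv.1.1.const (hv.1.1.1 _ (G.A_le (H.lin_A ℓ))) p hp h1.2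
  have h2 := hv.2 _ (sub_mem (G.A_le_B (H.lin_A ℓ)) (Subalgebra.algebraMap_mem _ c)) hc
  have h3 := P.const (c := c) (by simpa using sub_mem (P.lin_mem ℓ) h2)
  simpa [h3] using hc

theorem ord_lin (hv : HD H R v) (h0 : ℓ i₀ ≠ 0) (h : v.Ge 1 (lin H.mu ℓ)) :
    lin H.mu ℓ ≠ 0 ∧ v.ord (lin H.mu ℓ) = 1 := by
  have hc : ¬ v.Ge 1 (H.pd i₀ (lin H.mu ℓ)) := by
    rw [H.pd_lin, ← map_intCast (algebraMap ℂ K)]
    exact hv.1.const.not_ge (by exact_mod_cast h0)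
  have hz : lin H.mu ℓ ≠ 0 := fun hz => hc (by rw [hz, map_zero]; exact DV.ge_zero 1)
  refine ⟨hz, le_antisymm (not_lt.1 fun h1 => hc ?_) (h.le hz)⟩
  have := (G.pd_log hv i₀ (H.A_le_F (H.lin_A ℓ)) hz).1.mul' (m := 1) (DV.ge_self (lin H.mu ℓ))
    (by omega)
  rwa [div_mul_cancel₀ _ hz] at this

theorem tan_stable (hv : HD H R v) (h0 : ℓ i₀ ≠ 0) (h : v.Ge 1 (lin H.mu ℓ)) (j : {j // j ≠ i₀})
    {y : K} (hy : y ∈ H.F) (h1 : v.Ge 1 y) : v.Ge 1 (H.tan ℓ i₀ j y) :=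
  G.tan_ge_one hv j (H.A_le_F (H.lin_A ℓ)) (G.ord_lin hv h0 h).1 (G.ord_lin hv h0 h).2
    (by rw [H.tan_lin_self h0]; exact DV.ge_zero 1) hy h1

/-- two linear forms that vanish on the image of a divisor are proportional -/
theorem prop (hv : HD H R v) (h0 : ℓ i₀ ≠ 0) (h : v.Ge 1 (lin H.mu ℓ)) {ℓ' : Fin n → ℤ}
    (h' : v.Ge 1 (lin H.mu ℓ')) (j : Fin n) : ℓ i₀ * ℓ' j = ℓ j * ℓ' i₀ := by
  by_cases hj : j = i₀
  · rw [hj]
  have h1 := G.tan_stable hv h0 h ⟨j, hj⟩ (H.A_le_F (H.lin_A ℓ')) h'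
  rw [H.tan_lin] at h1
  have h2 : (ℓ' j : ℂ) - ℓ j / ℓ i₀ * ℓ' i₀ = 0 := by
    by_contra hc
    exact hv.1.const.not_ge hc h1
  have h3 : (ℓ i₀ : ℂ) ≠ 0 := by exact_mod_cast h0
  field_simp at h2
  have h4 : (ℓ i₀ : ℂ) * ℓ' j = ℓ j * ℓ' i₀ := by linear_combination h2
  exact_mod_cast h4

theorem div_lin (hv : HD H R v) (h0 : ℓ i₀ ≠ 0) (h : v.Ge 1 (lin H.mu ℓ)) {a : K} (ha : a ∈ H.A)
    (h1 : v.Ge 1 a) : ∃ a' ∈ H.A, a = lin H.mu ℓ * a' := by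
  obtain ⟨q, hq, a', ha', e⟩ := H.split h0 ha
  refine ⟨a', ha', ?_⟩
  by_contra hn
  have hq' : q = a - lin H.mu ℓ * a' := by rw [e]; ring
  obtain ⟨c, hc, h2⟩ := poly_adjoin _ (H.tan ℓ i₀) H.tan_mu {y | y ∈ H.F ∧ v.Ge 1 y}
    (fun j y hy => ⟨H.tan_F j hy.1, G.tan_stable hv h0 h j hy.1 hy.2⟩) hq
    (by rw [hq']; exact sub_ne_zero.2 hn)
    (hq' ▸ ⟨H.A_le_F (sub_mem ha (mul_mem (H.lin_A ℓ) ha')),
      h1.sub (h.mul_right (hv.1.1 _ (G.A_le ha')))⟩)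
  exact hv.1.const.not_ge hc h2.2

theorem prim_rel (hv : HD H R v) (h0 : ℓ i₀ ≠ 0) (h : v.Ge 1 (lin H.mu ℓ)) {b : K}
    (hb : b ∈ H.F) : ∃ p : Polynomial H.A, Polynomial.aeval b p = 0 ∧
      ∃ k, ¬ v.Ge 1 (p.coeff k : K) := by
  obtain ⟨hz0, hz1⟩ := G.ord_lin hv h0 h
  have : ∀ N : ℕ, ∀ p : Polynomial H.A, Polynomial.aeval b p = 0 → ∀ k, (p.coeff k : K) ≠ 0 →
      v.ord (p.coeff k : K) ≤ N → ∃ p : Polynomial H.A, Polynomial.aeval b p = 0 ∧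
        ∃ k, ¬ v.Ge 1 (p.coeff k : K) := by
    intro N
    induction N with
    | zero => exact fun p hp k h1 h2 => ⟨p, hp, k, by rw [DV.ge_iff h1]; omega⟩
    | succ N ih =>
      intro p hp k h1 h2
      by_contra hn
      push Not at hn
      obtain ⟨q, rfl⟩ := (Polynomial.C_dvd_iff_dvd_coeff (⟨_, H.lin_A ℓ⟩ : H.A) p).2 fun l => by
        obtain ⟨a, ha, e⟩ := G.div_lin hv h0 h (p.coeff l).2 (hn p hp l)
        exact ⟨⟨a, ha⟩, Subtype.ext e⟩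
      rw [map_mul, Polynomial.aeval_C, mul_eq_zero] at hp
      rw [Polynomial.coeff_C_mul] at h1 h2
      change lin H.mu ℓ * _ ≠ 0 at h1
      change v.ord (lin H.mu ℓ * _) ≤ _ at h2
      have h3 := right_ne_zero_of_mul h1
      rw [v.ord_mul _ _ hz0 h3, hz1] at h2
      obtain ⟨r, hr, l, hl⟩ := ih q (hp.resolve_left hz0) k h3 (by push_cast at h2; omega)
      exact hl (hn r hr l)
  obtain ⟨p, hp, h1⟩ := H.alg_F hb
  have h2 : (p.coeff p.natDegree : K) ≠ 0 := fun h =>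
    Polynomial.leadingCoeff_ne_zero.2 hp (Subtype.ext h)
  exact this (v.ord (p.coeff p.natDegree : K)).toNat p h1 _ h2 (by omega)

/-- a hyperplane through the point has only one branch -/
theorem unique (P : Pt H R m) (hv : HDm H R m v) (hw : HDm H R m w) (h0 : ℓ i₀ ≠ 0)
    (h : v.Ge 1 (lin H.mu ℓ)) (h' : w.Ge 1 (lin H.mu ℓ)) {y : K} (hy : y ∈ H.F) (hy0 : y ≠ 0) :
    w.ord y = v.ord y := by
  refine G.ord_eq_of_le hw.1 hv.1 (fun b hb hb1 => ?_) hy hy0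
  by_contra hn
  let W : Set K := {y | ∃ p ∈ R ⊓ H.F, v.Ge 1 p ∧ ∃ q ∈ R ⊓ H.F, w.Ge 1 q ∧ y = p + q}
  have hA : ∀ p : Polynomial H.A, Polynomial.aeval b p ∈ R ⊓ H.F := fun p => by
    rw [Polynomial.aeval_eq_sum_range]
    exact sum_mem fun i _ => mul_mem (G.A_le_B (p.coeff i).2) (pow_mem hb i)
  have h1 : ∀ p : Polynomial H.A, v.Ge 1 (Polynomial.aeval b p) →
      (∃ k, ¬ v.Ge 1 (p.coeff k : K)) → ∃ a ∈ H.A, ¬ v.Ge 1 a ∧ a ∈ W := by
    intro p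
    induction hN : p.natDegree using Nat.strong_induction_on generalizing p with
    | _ N ih =>
    rintro hp ⟨k, hk⟩
    have e : Polynomial.aeval b p = Polynomial.aeval b p.divX * b + (p.coeff 0 : K) := by
      conv_lhs => rw [← p.divX_mul_X_add]
      simp
    by_cases h2 : v.Ge 1 (p.coeff 0 : K)
    · obtain _ | k := k
      · exact (hk h2).elim
      have h3 := hp.sub h2
      rw [e, add_sub_cancel_right] at h3
      refine ih _ ?_ p.divX rfl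
        ((DV.ge_one_mul (hv.1.1.1 _ (hA _).1) (hv.1.1.1 _ hb.1) h3).resolve_right hn)
        ⟨k, by rwa [Polynomial.coeff_divX]⟩
      have h4 : k + 1 ≤ p.natDegree := Polynomial.le_natDegree_of_ne_zero fun h5 =>
        hk (by rw [h5]; exact DV.ge_zero 1)
      rw [Polynomial.natDegree_divX_eq_natDegree_tsub_one]
      omega
    · exact ⟨_, (p.coeff 0).2, h2, _, hA p, hp, _, neg_mem (mul_mem (hA p.divX) hb),
        ((hw.1.1.1 _ (hA _).1).mul_left hb1).neg, by rw [e]; ring⟩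
  obtain ⟨p, hp, hk⟩ := G.prim_rel hv.1 h0 h hb.2
  obtain ⟨a, ha, ha1, u, hu, hu1, r, hr, hr1, e⟩ := h1 p (hp ▸ DV.ge_zero 1) hk
  obtain ⟨q, hq, a', ha', e'⟩ := H.split h0 ha
  have h2 := h.mul_right (hv.1.1.1 _ (G.A_le ha'))
  obtain ⟨c, hc, u, hu, hu1, r, hr, hr1, e⟩ := poly_adjoin _ (H.tan ℓ i₀) H.tan_mu W
    (by
      rintro j _ ⟨u, hu, hu1, r, hr, hr1, rfl⟩
      exact ⟨_, G.tan_mem j hu, G.tan_stable hv.1 h0 h j hu.2 hu1, _, G.tan_mem j hr,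
        G.tan_stable hw.1 h0 h' j hr.2 hr1, map_add _ _ _⟩) hq
    (fun h3 => ha1 (by rwa [e', h3, zero_add]))
    ⟨_, sub_mem hu (G.A_le_B (mul_mem (H.lin_A ℓ) ha')), hu1.sub h2, r, hr, hr1, by
      linear_combination e - e'⟩
  exact hc (P.const (e ▸ add_mem (hv.2 u hu hu1) (hw.2 r hr hr1)))

end Good

end Pool.Agent.MP_51db15_ag

end MrgPart1

-- ======== part 2: formerly Pool.Agent.MP_51db15_ag.Ext
section MrgPart2

/-! The two extreme invariant divisors over a divisor of the quotient; local generators. -/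

set_option linter.unusedSectionVars false

namespace Pool.Agent.MP_51db15_ag

variable {K : Type} [Field K] [Algebra ℂ K] {n : ℕ}

/-- pairing -/
def dot (ℓ α : Fin n → ℤ) : ℤ := ∑ i, ℓ i * α i

theorem dot_sub (ℓ ℓ' α : Fin n → ℤ) : dot (fun i => ℓ i - ℓ' i) α = dot ℓ α - dot ℓ' α := by
  simp [dot, sub_mul, Finset.sum_sub_distrib]

theorem dot_add (ℓ α β : Fin n → ℤ) : dot ℓ (α + β) = dot ℓ α + dot ℓ β := by
  simp [dot, mul_add, Finset.sum_add_distrib]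

theorem dot_neg (ℓ α : Fin n → ℤ) : dot ℓ (-α) = -dot ℓ α := by simp [dot]

theorem dot_zero (ℓ : Fin n → ℤ) : dot ℓ 0 = 0 := by simp [dot]

theorem dot_single (ℓ : Fin n → ℤ) (i : Fin n) : dot ℓ (Pi.single i 1) = ℓ i := by
  simp [dot, Pi.single_apply]

theorem dot_prop {a d α : Fin n → ℤ} {i₀ : Fin n} (h : ∀ j, a i₀ * d j = a j * d i₀) :
    a i₀ * dot d α = d i₀ * dot a α := by
  simp only [dot, Finset.mul_sum]
  exact Finset.sum_congr rfl fun j _ => by rw [← mul_assoc, h j]; ring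

/-- the centre of a valuation on the ring of invariants -/
def cen (H : Ham K n) (R : Subalgebra ℂ K) (v : DV K) : Set K := {b | b ∈ R ⊓ H.F ∧ v.Ge 1 b}

theorem ord_deg (H : Ham K n) (v : DV K) {y : K} (h0 : y ≠ 0) (α : Fin n → ℤ) :
    v.ord y = v.ord (y / tpow H.t α) + dot (fun i => v.ord (H.t i)) α := by
  rw [v.ord_div h0 (tpow_ne H.t_ne α), ord_tpow v H.t_ne, dot]; ring

namespace Good

variable {H : Ham K n} {R : Subalgebra ℂ K} (G : Good H R) {v w : DV K} {m : Submodule ℂ K}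
  {α : Fin n → ℤ}
include G

theorem ord_eq_of_cen (hv : HD H R v) (hw : HD H R w) (h : cen H R v = cen H R w) {y : K}
    (hy : y ∈ H.F) (h0 : y ≠ 0) : v.ord y = w.ord y :=
  G.ord_eq_of_le hv hw (fun _ hb h1 => (h.le ⟨hb, h1⟩).2) hy h0

omit G in
theorem cen_eq_of_ord (h : ∀ y ∈ H.F, y ≠ 0 → v.ord y = w.ord y) : cen H R v = cen H R w := by
  ext b
  refine and_congr_right fun hb => ?_
  by_cases h0 : b = 0
  · simp [h0, DV.ge_zero]
  · rw [DV.ge_iff h0, DV.ge_iff h0, h b hb.2 h0]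

omit G in
theorem hdm_of_cen (hv : HDm H R m v) (hw : HD H R w) (h : cen H R w = cen H R v) :
    HDm H R m w := ⟨hw, fun b hb h1 => hv.2 b hb (h.le ⟨hb, h1⟩).2⟩

theorem extreme (P : Pt H R m) (hv : HDm H R m v) : ∃ v₀ v₁ : DV K, HD H R v₀ ∧ HD H R v₁ ∧
    cen H R v₀ = cen H R v ∧ cen H R v₁ = cen H R v ∧ ∀ w, HD H R w → cen H R w = cen H R v →
      ∀ α, min (dot (fun i => v₀.ord (H.t i)) α) (dot (fun i => v₁.ord (H.t i)) α) ≤
        dot (fun i => w.ord (H.t i)) α := by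
  by_cases hall : ∀ w, HD H R w → cen H R w = cen H R v → ∀ i, v.ord (H.t i) - w.ord (H.t i) = 0
  · refine ⟨v, v, hv.1, hv.1, rfl, rfl, fun w hw h α => ?_⟩
    rw [min_self, show (fun i => v.ord (H.t i)) = fun i => w.ord (H.t i) from
      funext fun i => sub_eq_zero.1 (hall w hw h i)]
  push Not at hall
  obtain ⟨u, hu, huc, i₀, h0⟩ := hall
  have hlin : ∀ w w', HD H R w → HD H R w' → cen H R w = cen H R v → cen H R w' = cen H R v →
      v.Ge 1 (lin H.mu fun i => w.ord (H.t i) - w'.ord (H.t i)) := fun w w' hw hw' h h' =>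
    (h.le ⟨G.A_le_B (H.lin_A _), G.lin_ge P (hdm_of_cen hv hw h) hw' fun y hy h0 =>
      G.ord_eq_of_cen hw hw' (h.trans h'.symm) hy h0⟩).2
  have hb : ∀ α, ∃ c, ∀ w, HD H R w → cen H R w = cen H R v →
      c ≤ dot (fun i => w.ord (H.t i)) α := fun α => by
    obtain ⟨r, hr, hα, hr0⟩ := G.exists_deg α
    refine ⟨-v.ord (r / tpow H.t α), fun w hw h => ?_⟩
    have h1 := (hw.1.1 r hr).le hr0
    rw [ord_deg H w hr0 α, G.ord_eq_of_cen hw hv.1 h (eig_div_same hα (eig_tpow H.t_mem α))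
      (div_ne_zero hr0 (tpow_ne H.t_ne α))] at h1
    omega
  obtain ⟨_, ⟨v₀, h1, h2, rfl⟩, hmax⟩ := Int.exists_greatest_of_bdd
    (P := fun z => ∃ w, HD H R w ∧ cen H R w = cen H R v ∧ w.ord (H.t i₀) = z)
    (by
      obtain ⟨c, hc⟩ := hb (-Pi.single i₀ 1)
      refine ⟨-c, ?_⟩
      rintro _ ⟨w, hw, h, rfl⟩
      have := hc w hw h
      rw [dot_neg, dot_single] at this
      omega) ⟨_, v, hv.1, rfl, rfl⟩
  obtain ⟨_, ⟨v₁, h3, h4, rfl⟩, hmin⟩ := Int.exists_least_of_bdd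
    (P := fun z => ∃ w, HD H R w ∧ cen H R w = cen H R v ∧ w.ord (H.t i₀) = z)
    (by
      obtain ⟨c, hc⟩ := hb (Pi.single i₀ 1)
      refine ⟨c, ?_⟩
      rintro _ ⟨w, hw, h, rfl⟩
      simpa [dot_single] using hc w hw h) ⟨_, v, hv.1, rfl, rfl⟩
  refine ⟨v₀, v₁, h1, h3, h2, h4, fun w hw h α => ?_⟩
  have e1 := dot_prop (α := α) (a := fun i => v.ord (H.t i) - u.ord (H.t i))
    (d := fun i => w.ord (H.t i) - v₁.ord (H.t i))
    (G.prop hv.1 h0 (hlin v u hv.1 hu rfl huc) (hlin w v₁ hw h3 h h4))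
  have e2 := dot_prop (α := α) (a := fun i => v.ord (H.t i) - u.ord (H.t i))
    (d := fun i => v₀.ord (H.t i) - v₁.ord (H.t i))
    (G.prop hv.1 h0 (hlin v u hv.1 hu rfl huc) (hlin v₀ v₁ h1 h3 h2 h4))
  have e3 := hmax _ ⟨w, hw, h, rfl⟩
  have e4 := hmin _ ⟨w, hw, h, rfl⟩
  rw [dot_sub (fun i => w.ord (H.t i))] at e1
  rw [dot_sub (fun i => v₀.ord (H.t i))] at e2
  generalize dot (fun i => v.ord (H.t i) - u.ord (H.t i)) α = c at e1 e2
  generalize v.ord (H.t i₀) - u.ord (H.t i₀) = a at e1 e2 h0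
  generalize dot (fun i => w.ord (H.t i)) α = x at e1 ⊢
  generalize dot (fun i => v₀.ord (H.t i)) α = x₀ at e2 ⊢
  generalize dot (fun i => v₁.ord (H.t i)) α = x₁ at e1 e2 ⊢
  by_contra hn
  rw [not_le, lt_min_iff] at hn
  have ha : 0 < a * a := mul_self_pos.2 h0
  have f1 : a * a * (x - x₁) = (w.ord (H.t i₀) - v₁.ord (H.t i₀)) * (a * c) := by
    linear_combination a * e1
  have f2 : a * a * (x₀ - x) = (v₀.ord (H.t i₀) - w.ord (H.t i₀)) * (a * c) := by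
    linear_combination a * e2 - a * e1
  rcases le_total 0 (a * c) with h5 | h5
  · nlinarith [mul_nonneg (sub_nonneg.2 e4) h5, mul_pos ha (sub_pos.2 hn.2)]
  · nlinarith [mul_nonneg (sub_nonneg.2 e3) (neg_nonneg.2 h5), mul_pos ha (sub_pos.2 hn.1)]

theorem finite_cen {b : K} (hb : b ∈ R ⊓ H.F) (h0 : b ≠ 0) :
    {S : Set K | (∃ v, HD H R v ∧ cen H R v = S) ∧ b ∈ S}.Finite := by
  have : Algebra.FiniteType ℂ (R ⊓ H.F : Subalgebra ℂ K) := (Subalgebra.fg_iff_finiteType _).1 G.fg_B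
  have : IsNoetherianRing (R ⊓ H.F : Subalgebra ℂ K) := Algebra.FiniteType.isNoetherianRing ℂ _
  refine ((Ideal.finite_minimalPrimes_of_isNoetherianRing _
    (Ideal.span {(⟨b, hb⟩ : (R ⊓ H.F : Subalgebra ℂ K))})).image
      fun I : Ideal (R ⊓ H.F : Subalgebra ℂ K) =>
        Subtype.val '' (I : Set (R ⊓ H.F : Subalgebra ℂ K))).subset ?_
  rintro _ ⟨⟨v, hv, rfl⟩, hbv⟩
  let I : Ideal (R ⊓ H.F : Subalgebra ℂ K) :=
    { carrier := {x | v.Ge 1 x}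
      add_mem' := DV.Ge.add
      zero_mem' := DV.ge_zero 1
      smul_mem' := fun c x hx => (hv.1.1 c c.2.1).mul_left hx }
  have hI : I.IsPrime := ⟨(Ideal.ne_top_iff_one I).2 DV.not_ge_one_one, fun {x y} h =>
    DV.ge_one_mul (hv.1.1 x x.2.1) (hv.1.1 y y.2.1) h⟩
  refine ⟨I, ⟨⟨hI, (Ideal.span_singleton_le_iff_mem _).2 hbv.2⟩, fun Q hQ hle p hp => ?_⟩, ?_⟩
  · have hd : ∀ x y : (R ⊓ H.F : Subalgebra ℂ K), (y : K) ≠ 0 → v.Ge (v.ord y) x → y ∈ Q →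
        x ∈ Q := fun x y hy h1 h2 => by
      obtain ⟨s, hs, hs1, h3⟩ := G.loc_F hv (H.div_F x.2.2 y.2.2) (by simpa using h1.div hy)
      refine (hQ.1.mem_or_mem (x := ⟨s, hs⟩) ?_).resolve_left fun h => hs1 (hle h)
      convert Q.mul_mem_left ⟨_, h3⟩ h2 using 1
      refine Subtype.ext ?_
      change s * x = s * (x / y) * y
      field_simp
    obtain ⟨π, hπ, hπ0, hπ1⟩ := G.unif_B hv
    refine hd p ⟨π, hπ⟩ hπ0 (hπ1 ▸ hp) (hQ.1.mem_of_pow_mem (v.ord b).toNat ?_)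
    refine hd _ ⟨b, hb⟩ h0 (Or.inr ?_) ((Ideal.span_singleton_le_iff_mem _).1 hQ.2)
    change v.ord b ≤ v.ord (π ^ _)
    rw [v.ord_pow hπ0, hπ1]
    omega
  · ext x
    exact ⟨by rintro ⟨x, hx, rfl⟩; exact ⟨x.2, hx⟩, fun hx => ⟨⟨x, hx.1⟩, hx.2, rfl⟩⟩

/-- some multiple of every weight has a free module of semi-invariants near the point -/
theorem gen (P : Pt H R m) (α : Fin n → ℤ) : ∃ k : ℕ, 0 < k ∧ ∃ g ∈ R, g ∈ H.deg (k • α) ∧ g ≠ 0 ∧
    ∀ r ∈ R, r ∈ H.deg (k • α) → ∃ s ∈ R ⊓ H.F, s ∉ m ∧ s * (r / g) ∈ R ⊓ H.F := by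
  classical
  let I : Ideal (R ⊓ H.F).toSubring :=
    { carrier := {x | (x : K) ∈ m}
      add_mem' := m.add_mem
      zero_mem' := m.zero_mem
      smul_mem' := fun c x hx => P.mul_mem c c.2.1 x hx }
  obtain ⟨W, hW, hI⟩ := I.image_subset_nonunits_valuationSubring
    ((Ideal.ne_top_iff_one I).2 P.one)
  have hB : ∀ b ∈ R ⊓ H.F, W.valuation b ≤ 1 := fun b hb => (W.valuation_le_one_iff b).2 (hW hb)
  obtain ⟨ι, _, u, β, hu, e⟩ := G.fg
  obtain ⟨S, h1, h2⟩ := gordan β α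
  have hmon : ∀ a : ι → ℕ, ∏ q, u q ^ a q ∈ R ∧ ∏ q, u q ^ a q ∈ H.deg (∑ q, a q • β q) :=
    fun a => ⟨Subalgebra.prod_mem _ fun q _ =>
      pow_mem (e ▸ Algebra.subset_adjoin (Set.mem_range_self q)) _,
      eig_prod _ fun q _ => eig_pow (hu q) _⟩
  set k := ∏ p ∈ S.filter (·.2 ≠ 0), p.2 with hk
  have hk0 : 0 < k := Finset.prod_pos fun p hp => Nat.pos_of_ne_zero (Finset.mem_filter.1 hp).2
  have bound : ∀ γ, (∀ p ∈ S.filter (·.2 ≠ 0), W.valuation ((∏ q, u q ^ p.1 q) ^ (k / p.2)) ≤ γ) →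
      ∀ j : ℕ, ∀ r ∈ R, r ∈ H.deg (j • α) → W.valuation r ^ k ≤ γ ^ j := by
    intro γ hγ j r hr hj
    have h3 : ∀ p ∈ AddSubmonoid.closure (S : Set ((ι → ℕ) × ℕ)),
        W.valuation (∏ q, u q ^ p.1 q) ^ k ≤ γ ^ p.2 := fun p hp => by
      induction hp using AddSubmonoid.closure_induction with
      | mem p hp =>
        by_cases h : p.2 = 0
        · rw [h, pow_zero]
          exact pow_le_one' (hB _ ⟨(hmon _).1, by
            have := (hmon p.1).2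
            rwa [h1 p hp, h, zero_smul] at this⟩) k
        · have h4 : p ∈ S.filter (·.2 ≠ 0) := Finset.mem_filter.2 ⟨hp, h⟩
          have h5 : k / p.2 * p.2 = k :=
            Nat.div_mul_cancel (Finset.dvd_prod_of_mem (fun p => p.2) h4)
          conv_lhs => rw [← h5, pow_mul, ← map_pow]
          exact pow_le_pow_left' (hγ p h4) _
      | zero => simp
      | add p r _ _ h1 h2 =>
        simpa [pow_add, Finset.prod_mul_distrib, mul_pow] using mul_le_mul' h1 h2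
    have h4 := mem_of_iSup (monSpan_le hu) (mem_iSup_monSpan u β (e ▸ hr)) hj
    clear hr hj
    induction h4 using Submodule.span_induction with
    | mem x hx =>
      obtain ⟨a, ha, rfl⟩ := hx
      exact h3 _ (h2 a j ha)
    | zero => simp [hk0.ne']
    | add x y _ _ hx hy =>
      rcases le_max_iff.1 (W.valuation.map_add x y) with h | h
      exacts [(pow_le_pow_left' h k).trans hx, (pow_le_pow_left' h k).trans hy]
    | smul c x _ hx =>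
      rw [Algebra.smul_def, map_mul]
      exact (pow_le_pow_left' (mul_le_of_le_one_left'
        (hB _ (Subalgebra.algebraMap_mem _ c))) k).trans hx
  obtain ⟨r₀, hr₀, hr₁, hr₂⟩ := G.exists_deg α
  have hne : ∀ γ, (∀ p ∈ S.filter (·.2 ≠ 0),
      W.valuation ((∏ q, u q ^ p.1 q) ^ (k / p.2)) ≤ γ) → γ ≠ 0 := fun γ hγ h => by
    have := bound γ hγ 1 r₀ hr₀ (by simpa using hr₁)
    simp [h, hr₂] at this
  obtain ⟨p, hp, hmax⟩ := (S.filter (·.2 ≠ 0)).exists_max_image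
    (fun p => W.valuation ((∏ q, u q ^ p.1 q) ^ (k / p.2)))
    (Finset.nonempty_iff_ne_empty.2 fun h => hne 0 (by simp [h]) rfl)
  have hg : (∏ q, u q ^ p.1 q) ^ (k / p.2) ∈ H.deg (k • α) := by
    have := eig_pow (hmon p.1).2 (k / p.2)
    rwa [h1 p (Finset.mem_filter.1 hp).1, ← mul_nsmul',
      Nat.div_mul_cancel (Finset.dvd_prod_of_mem (fun p => p.2) hp)] at this
  have hg1 := pow_mem (hmon p.1).1 (k / p.2)
  have hγ := hne _ hmax
  have hb := bound _ hmax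
  generalize (∏ q, u q ^ p.1 q) ^ (k / p.2) = g at hg hg1 hγ hb
  have hg0 : g ≠ 0 := by simpa using hγ
  refine ⟨k, hk0, g, hg1, hg, hg0, fun r hr hr' => ?_⟩
  obtain ⟨R', G', hR'⟩ := G.away hg1 hg hg0
  obtain ⟨s, hs, hs1, h⟩ := G.chart' G' (fun r hr => (hR' r).2 ⟨0, by simpa using hr⟩)
    { carrier := {x | W.valuation x < 1}
      add_mem' := fun ha hb => W.valuation.map_add_lt ha hb
      zero_mem' := by simp } (fun b hb' q hq _ => by
      obtain ⟨j, hj⟩ := (hR' b).1 hb'.1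
      have h3 := hb (j * k) _ hj (by
        rw [mul_nsmul']; exact eig_mul_zero (eig_pow hg j) hb'.2)
      rw [pow_mul, pow_le_pow_iff_left₀ zero_le zero_le hk0.ne', map_mul, map_pow] at h3
      have h4 : W.valuation b ≤ 1 := by
        have h5 : 0 < W.valuation g ^ j := pow_pos (zero_lt_iff.2 hγ) j
        exact (mul_le_iff_le_one_right h5).1 h3
      change W.valuation (q * b) < 1
      rw [map_mul]
      exact mul_lt_one_of_lt_of_le hq h4) (by simp)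
    (y := r / g) ⟨(hR' _).2 ⟨1, by rwa [pow_one, mul_div_cancel₀ _ hg0]⟩, eig_div_same hr' hg⟩
  exact ⟨s, hs, fun hm => hs1 (W.mem_nonunits_iff.1 (hI ⟨⟨s, hs⟩, hm, rfl⟩)), h⟩

end Good

end Pool.Agent.MP_51db15_ag

end MrgPart2

-- marker of a merged file
example : 731051 + 600042 = 731051 + 600042 := rfl
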