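import Mathlib.RingTheory.TensorProduct.IsBaseChangeFree
import Pool.Agent.MP_51db15_ag.Ext
import Pool.Agent.MP_51db15_ag.Defs

-- ======== part 0: formerly Pool.Agent.MP_51db15_ag.Struct
section MrgPart0

/-! The structure theorem: near the point, the weight spaces are free over the invariants on the
generators of the hypertoric algebra. -/

set_option linter.unusedSectionVars false

namespace Pool.Agent.MP_51db15_ag

variable {K : Type} [Field K] [Algebra ℂ K] {n : ℕ}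

/-- product of the linear forms with the positive parts of the pairings as exponents -/
def zz {J : Type} [Fintype J] (μ : Fin n → K) (ℓ : J → Fin n → ℤ) (α : Fin n → ℤ) : K :=
  ∏ j, lin μ (ℓ j) ^ (dot (ℓ j) α).toNat

/-- the standard generators -/
def rr {J : Type} [Fintype J] (μ t : Fin n → K) (ℓ : J → Fin n → ℤ) (α : Fin n → ℤ) : K :=
  tpow t α * zz μ ℓ α

namespace Good

variable {H : Ham K n} {R : Subalgebra ℂ K} (G : Good H R) {m : Submodule ℂ K}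
include G

theorem family (P : Pt H R m) : ∃ (ι : Type) (u : ι → DV K) (ℓ : ι → Fin n → ℤ),
    (∀ p, HDm H R m (u p)) ∧ (∀ p q, cen H R (u p) = cen H R (u q) → p = q) ∧
    (∀ p, (u p).Ge 1 (lin H.mu (ℓ p))) ∧
    (∀ α, ∀ y ∈ H.deg α, y ≠ 0 → ((∃ s ∈ R ⊓ H.F, s ∉ m ∧ s * y ∈ R) ↔
      ∀ p, ((dot (ℓ p) α).toNat : ℤ) ≤ (u p).ord y)) ∧
    ∀ p α, ∃ r ∈ R, r ∈ H.deg α ∧ r ≠ 0 ∧ (u p).ord r = (dot (ℓ p) α).toNat := by
  let ι := {S : Set K // ∃ v, HDm H R m v ∧ cen H R v = S}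
  choose v hv hc using fun S : ι => S.2
  choose v₀ v₁ h0 h1 h2 h3 h4 using fun S : ι => G.extreme P (hv S)
  have hm : ∀ S, HDm H R m (v₀ S) := fun S => hdm_of_cen (hv S) (h0 S) (h2 S)
  have hm1 : ∀ S, HDm H R m (v₁ S) := fun S => hdm_of_cen (hv S) (h1 S) (h3 S)
  have hord : ∀ S α, ∀ y ∈ H.deg α, y ≠ 0 → ∀ w, HD H R w → cen H R w = cen H R (v S) →
      w.ord y = (v₀ S).ord (y / tpow H.t α) + dot (fun i => w.ord (H.t i)) α :=
    fun S α y hy hy0 w hw h => by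
      rw [ord_deg H w hy0 α, G.ord_eq_of_cen hw (h0 S) (h.trans (h2 S).symm)
        (eig_div_same hy (eig_tpow H.t_mem α)) (div_ne_zero hy0 (tpow_ne H.t_ne α))]
  have hge : ∀ S α, ∀ y ∈ H.deg α, y ≠ 0 → ∀ w, HD H R w → cen H R w = cen H R (v S) →
      ((dot (fun i => (v₀ S).ord (H.t i) - (v₁ S).ord (H.t i)) α).toNat : ℤ) ≤ (v₀ S).ord y →
      w.Ge 0 y := fun S α y hy hy0 w hw h h5 => by
    have h6 := h4 S w hw h α
    rw [dot_sub, hord S α y hy hy0 _ (h0 S) (h2 S)] at h5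
    rw [DV.ge_iff hy0, hord S α y hy hy0 w hw h]
    omega
  refine ⟨ι, v₀, fun S i => (v₀ S).ord (H.t i) - (v₁ S).ord (H.t i), hm, fun S T h =>
    Subtype.ext (by rw [← hc S, ← hc T, ← h2, ← h2, h]), fun S => G.lin_ge P (hm S) (h1 S)
      fun y hy hy0 => G.ord_eq_of_cen (h0 S) (h1 S) ((h2 S).trans (h3 S).symm) hy hy0,
    fun α y hy hy0 => ⟨?_, fun h => ?_⟩, fun S α => ?_⟩
  · rintro ⟨s, hs, hsm, h⟩ S
    have h5 : ∀ w, HDm H R m w → 0 ≤ w.ord y := fun w hw => by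
      obtain ⟨hs0, hs1⟩ := DV.unit_of_not_ge (hw.1.1.1 s hs.1) fun h => hsm (hw.2 s hs h)
      have := (hw.1.1.1 _ h).le (mul_ne_zero hs0 hy0)
      rwa [w.ord_mul _ _ hs0 hy0, hs1, zero_add] at this
    have h6 := h5 _ (hm S)
    have h7 := h5 _ (hm1 S)
    rw [hord S α y hy hy0 _ (h1 S) (h3 S)] at h7
    rw [hord S α y hy hy0 _ (h0 S) (h2 S)] at h6 ⊢
    rw [dot_sub]
    omega
  · let M : Submonoid K :=
      { carrier := {s | s ∈ R ⊓ H.F ∧ s ∉ m}
        mul_mem' := fun {a b} ha hb => ⟨mul_mem ha.1 hb.1, fun h =>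
          (P.prime a ha.1.1 b hb.1.1 h).elim ha.2 hb.2⟩
        one_mem' := ⟨one_mem _, P.one⟩ }
    obtain ⟨s, hs, h5⟩ := G.charac M (fun s hs => hs.1.1) hy fun w hw h5 => by
      have hw' : HDm H R m w := ⟨hw, fun b hb h6 => by_contra fun h7 => h5 b ⟨hb, h7⟩ h6⟩
      exact hge ⟨_, w, hw', rfl⟩ α y hy hy0 w hw (hc ⟨_, w, hw', rfl⟩).symm (h _)
    exact ⟨s, hs.1, hs.2, h5⟩
  · obtain ⟨π, hπ, hπ0, hπ1⟩ := G.unif_B (h0 S)
    set c : ℤ := ((dot (fun i => (v₀ S).ord (H.t i) - (v₁ S).ord (H.t i)) α).toNat : ℤ) with hcd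
    have hy := eig_zero_mul (H.zpow_F hπ.2 (c - (v₀ S).ord (tpow H.t α))) (eig_tpow H.t_mem α)
    have hy0 := mul_ne_zero (zpow_ne_zero (c - (v₀ S).ord (tpow H.t α)) hπ0) (tpow_ne H.t_ne α)
    have hy1 : (v₀ S).ord (π ^ (c - (v₀ S).ord (tpow H.t α)) * tpow H.t α) = c := by
      rw [DV.ord_mul _ _ _ (zpow_ne_zero _ hπ0) (tpow_ne H.t_ne α), DV.ord_zpow _ hπ0, hπ1]; ring
    generalize π ^ (c - (v₀ S).ord (tpow H.t α)) * tpow H.t α = y at hy hy0 hy1
    let M : Submonoid K :=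
      { carrier := {s | s ∈ R ⊓ H.F ∧ ¬ (v₀ S).Ge 1 s}
        mul_mem' := fun {a b} ha hb => ⟨mul_mem ha.1 hb.1, fun h =>
          (DV.ge_one_mul ((h0 S).1.1 a ha.1.1) ((h0 S).1.1 b hb.1.1) h).elim ha.2 hb.2⟩
        one_mem' := ⟨one_mem _, DV.not_ge_one_one⟩ }
    obtain ⟨s, hs, h5⟩ := G.charac M (fun s hs => hs.1.1) hy fun w hw h5 =>
      hge S α y hy hy0 w hw ((cen_eq_of_ord fun z hz hz0 => G.ord_eq_of_le hw (h0 S)
        (fun b hb h6 => by_contra fun h7 => h5 b ⟨hb, h7⟩ h6) hz hz0).trans (h2 S)) hy1.ge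
    obtain ⟨hs0, hs1⟩ := DV.unit_of_not_ge ((h0 S).1.1 s hs.1.1) hs.2
    exact ⟨_, h5, eig_zero_mul hs.1.2 hy, mul_ne_zero hs0 hy0, by
      rw [DV.ord_mul _ _ _ hs0 hy0, hs1, hy1, zero_add]⟩

/-- a reflexive rank one module with a free power is free -/
theorem free (P : Pt H R m) {ι : Type} {u : ι → DV K} (hu : ∀ p, HDm H R m (u p))
    (hO : ∀ y ∈ H.F, (∀ p, (u p).Ge 0 y) → ∃ s ∈ R ⊓ H.F, s ∉ m ∧ s * y ∈ R)
    (hne : ∀ α, ∃ y ∈ H.deg α, y ≠ 0 ∧ ∀ p, (u p).Ge 0 y) {α : Fin n → ℤ} {k : ℕ} (hk : 0 < k)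
    {g : K} (hg : g ∈ H.deg (k • α)) (hg0 : g ≠ 0) (hg1 : ∀ p, (u p).ord g = 0) :
    ∃ y ∈ H.deg α, y ≠ 0 ∧ ∀ p, (u p).ord y = 0 := by
  let T : Set K := {x | ∃ y ∈ H.deg α, ∃ y' ∈ H.deg (-α), (∀ p, (u p).Ge 0 y) ∧
    (∀ p, (u p).Ge 0 y') ∧ x = y * y'}
  have hlog : ∀ i, ∀ β, ∀ y ∈ H.deg β, y ≠ 0 → (∀ p, (u p).Ge 0 y) → ∀ g ∈ H.deg (k • β), g ≠ 0 →
      (∀ p, (u p).ord g = 0) → (k : ℂ)⁻¹ • (H.pd i (y ^ k / g) / (y ^ k / g) * y) ∈ H.deg β ∧
        ∀ p, (u p).Ge 0 ((k : ℂ)⁻¹ • (H.pd i (y ^ k / g) / (y ^ k / g) * y)) := by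
    intro i β y hy hy0 h0 g hg hg0 hg1
    have hb : y ^ k / g ∈ H.F := eig_div_same (eig_pow hy k) hg
    have hb0 := div_ne_zero (pow_ne_zero k hy0) hg0
    refine ⟨Submodule.smul_mem _ _ (eig_zero_mul (H.div_F (H.pd_F i hb) hb) hy), fun p =>
      (hu p).1.1.const.smul _ ?_⟩
    obtain ⟨h1, h2⟩ := G.pd_log (hu p).1 i hb hb0
    have h3 := (h0 p).le hy0
    by_cases h4 : (u p).ord y = 0
    · exact (h2 (by rw [DV.ord_div _ (pow_ne_zero k hy0) hg0, DV.ord_pow _ hy0, h4, hg1]; simp)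
        ).mul_left (h0 p)
    · exact h1.mul' (DV.ge_self y) (by omega)
  obtain ⟨y₀, hy₀, h1, h2⟩ := hne α
  obtain ⟨y₁, hy₁, h3, h4⟩ := hne (-α)
  have hone := G.simple (Submodule.span ℂ T) (fun b hb w hw => by
      induction hw using Submodule.span_induction with
      | mem x hx =>
        obtain ⟨y, hy, y', hy', h5, h6, rfl⟩ := hx
        exact Submodule.subset_span ⟨_, eig_zero_mul hb.2 hy, y', hy',
          fun p => ((hu p).1.1.1 b hb.1).mul_left (h5 p), h6, (mul_assoc _ _ _).symm⟩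
      | zero => simp
      | add _ _ _ _ h5 h6 => rw [mul_add]; exact add_mem h5 h6
      | smul c _ _ h5 => rw [mul_smul_comm]; exact Submodule.smul_mem _ _ h5)
    (fun i w hw => by
      induction hw using Submodule.span_induction with
      | mem x hx =>
        obtain ⟨y, hy, y', hy', h5, h6, rfl⟩ := hx
        by_cases hy0 : y = 0
        · simp [hy0]
        by_cases hy0' : y' = 0
        · simp [hy0']
        obtain ⟨h7, h8⟩ := hlog i α y hy hy0 h5 g hg hg0 hg1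
        obtain ⟨h9, h10⟩ := hlog i (-α) y' hy' hy0' h6 g⁻¹ (by simpa using eig_inv hg)
          (inv_ne_zero hg0) fun p => by rw [DV.ord_inv _ hg0, hg1, neg_zero]
        have e1 := DV.log_mul (H.pd i) (div_ne_zero (pow_ne_zero k hy0) hg0)
          (div_ne_zero (pow_ne_zero k hy0') (inv_ne_zero hg0))
        have e2 := DV.log_zpow (H.pd i) (mul_ne_zero hy0 hy0') k
        rw [show y ^ k / g * (y' ^ k / g⁻¹) = (y * y') ^ (k : ℤ) by
          rw [zpow_natCast, mul_pow]; field_simp, e2] at e1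
        have hk0 : (k : K) ≠ 0 := by
          rw [← map_natCast (algebraMap ℂ K)]
          exact (map_ne_zero _).2 (by exact_mod_cast hk.ne')
        have h11 := add_mem (Submodule.subset_span (R := ℂ) (s := T)
          ⟨_, h7, y', hy', h8, h6, rfl⟩) (Submodule.subset_span ⟨y, hy, _, h9, h5, h10, rfl⟩)
        refine (congrArg (· ∈ Submodule.span ℂ T) ?_).mp h11
        generalize H.pd i (y ^ k / g) / (y ^ k / g) = a at e1
        generalize H.pd i (y' ^ k / g⁻¹) / (y' ^ k / g⁻¹) = b at e1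
        rw [Algebra.smul_def, Algebra.smul_def, map_inv₀, map_natCast]
        push_cast at e1
        field_simp at e1 ⊢
        linear_combination -e1
      | zero => simp
      | add _ _ _ _ h5 h6 => rw [map_add]; exact add_mem h5 h6
      | smul c _ _ h5 => rw [Derivation.map_smul]; exact Submodule.smul_mem _ _ h5)
    (Submodule.subset_span ⟨y₀, hy₀, y₁, hy₁, h2, h4, rfl⟩)
    (by simpa [Ham.mem_F] using eig_mul hy₀ hy₁) (mul_ne_zero h1 h3)
  let Q : Submodule ℂ K :=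
    { carrier := {x | ∃ s ∈ R ⊓ H.F, s ∉ m ∧ s * x ∈ m}
      add_mem' := by
        rintro a b ⟨s, hs, hs1, ha⟩ ⟨t, ht, ht1, hb⟩
        refine ⟨_, mul_mem hs ht, fun h => (P.prime s hs.1 t ht.1 h).elim hs1 ht1, ?_⟩
        convert add_mem (P.mul_mem t ht.1 _ ha) (P.mul_mem s hs.1 _ hb) using 1
        ring
      zero_mem' := ⟨1, one_mem _, P.one, by simp⟩
      smul_mem' := by
        rintro c a ⟨s, hs, hs1, ha⟩
        exact ⟨s, hs, hs1, by rw [mul_smul_comm]; exact m.smul_mem c ha⟩ }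
  obtain ⟨_, ⟨y, hy, y', hy', h5, h6, rfl⟩, h7⟩ : ∃ x ∈ T, x ∉ Q := by
    by_contra hn
    push Not at hn
    obtain ⟨s, -, hs, h⟩ := Submodule.span_le.2 hn hone
    exact hs (by simpa using h)
  have hF : y * y' ∈ H.F := by simpa [Ham.mem_F] using eig_mul hy hy'
  obtain ⟨s, hs, hs1, h8⟩ := hO _ hF fun p => (h5 p).mul_left (h6 p)
  have h9 : ∀ p, ¬ (u p).Ge 1 y := fun p h => h7 ⟨s, hs, hs1, (hu p).2 _ ⟨h8, mul_mem hs.2 hF⟩
    (((hu p).1.1.1 s hs.1).mul_left (h.mul_right (h6 p)))⟩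
  exact ⟨y, hy, fun h => h7 (by simp [h]), fun p => (DV.unit_of_not_ge (h5 p) (h9 p)).2⟩

theorem struct (P : Pt H R m) : ∃ (N : ℕ) (ℓ : Fin N → Fin n → ℤ) (t : Fin n → K),
    (∀ j, ℓ j ≠ 0) ∧ (∀ j k, (∀ a b, ℓ j a * ℓ k b = ℓ j b * ℓ k a) → j = k) ∧
    (∀ i, t i ≠ 0) ∧ (∀ i, t i ∈ H.deg (Pi.single i 1)) ∧ (∀ j, lin H.mu (ℓ j) ≠ 0) ∧
    (∀ α, ∃ s ∈ R ⊓ H.F, s ∉ m ∧ s * rr H.mu t ℓ α ∈ R) ∧
    ∀ α, ∀ y ∈ R, y ∈ H.deg α → ∃ s ∈ R ⊓ H.F, s ∉ m ∧ s * (y / rr H.mu t ℓ α) ∈ R ⊓ H.F := by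
  classical
  obtain ⟨ι, u, ℓ, hu, hinj, hlin, hch, hloc⟩ := G.family P
  have hR : ∀ α, ∀ y ∈ R, y ∈ H.deg α → y ≠ 0 → ∀ p, ((dot (ℓ p) α).toNat : ℤ) ≤ (u p).ord y :=
    fun α y hy hα h0 => (hch α y hα h0).1 ⟨1, one_mem _, P.one, by simpa using hy⟩
  have hO : ∀ y ∈ H.F, (∀ p, (u p).Ge 0 y) → ∃ s ∈ R ⊓ H.F, s ∉ m ∧ s * y ∈ R := fun y hy h => by
    by_cases h0 : y = 0
    · exact ⟨1, one_mem _, P.one, by simp [h0]⟩
    · exact (hch 0 y hy h0).2 fun p => by simpa [dot_zero] using (h p).le h0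
  have hfin : Finite {p // ℓ p ≠ 0} := by
    choose r h1 h2 h3 using G.exists_deg
    have hb : ∀ i, r (Pi.single i 1) * r (-Pi.single i 1) ∈ R ⊓ H.F := fun i =>
      ⟨mul_mem (h1 _) (h1 _), by
        simpa [Ham.mem_F] using eig_mul (h2 (Pi.single i 1)) (h2 (-Pi.single i 1))⟩
    have := (G.finite_cen (prod_mem fun i (_ : i ∈ Finset.univ) => hb i)
      (Finset.prod_ne_zero_iff.2 fun i _ => mul_ne_zero (h3 _) (h3 _))).to_subtype
    refine Finite.of_injective (fun p : {p // ℓ p ≠ 0} => (⟨cen H R (u p), ⟨_, (hu p).1, rfl⟩,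
      prod_mem fun i _ => hb i, ?_⟩ : {S : Set K | (∃ v, HD H R v ∧ cen H R v = S) ∧
        ∏ i, r (Pi.single i 1) * r (-Pi.single i 1) ∈ S})) fun p q h =>
      Subtype.ext (hinj _ _ congr(($h).1))
    obtain ⟨i, hi⟩ := Function.ne_iff.1 p.2
    rw [← Finset.mul_prod_erase _ _ (Finset.mem_univ i)]
    refine DV.Ge.mul_right (Or.inr ?_) (DV.Ge.prod fun j _ => (hu p).1.1.1 _ (hb j).1)
    have h4 := hR _ _ (h1 _) (h2 (Pi.single i 1)) (h3 _) p
    have h5 := hR _ _ (h1 _) (h2 (-Pi.single i 1)) (h3 _) p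
    rw [dot_neg, dot_single] at h5
    rw [dot_single] at h4
    rw [DV.ord_mul _ _ _ (h3 _) (h3 _)]
    change ℓ p i ≠ 0 at hi
    omega
  obtain ⟨N, ⟨e⟩⟩ := Finite.exists_equiv_fin {p // ℓ p ≠ 0}
  let L : Fin N → Fin n → ℤ := fun j => ℓ (e.symm j)
  have hL : ∀ j, ∃ i, L j i ≠ 0 := fun j => Function.ne_iff.1 (e.symm j).2
  have hz : ∀ j, lin H.mu (L j) ≠ 0 := fun j =>
    (G.ord_lin (hu _).1 (hL j).choose_spec (hlin _)).1
  have huniq : ∀ p j, (u p).Ge 1 (lin H.mu (L j)) → p = e.symm j := fun p j h =>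
    hinj _ _ (cen_eq_of_ord fun y hy h0 =>
      G.unique P (hu _) (hu p) (hL j).choose_spec (hlin _) h hy h0)
  have hzz0 : ∀ α, zz H.mu L α ≠ 0 := fun α =>
    Finset.prod_ne_zero_iff.2 fun j _ => pow_ne_zero _ (hz j)
  have hzzF : ∀ α, zz H.mu L α ∈ H.F := fun α =>
    prod_mem fun j _ => pow_mem (H.A_le_F (H.lin_A _)) _
  have hzz : ∀ p α, (u p).ord (zz H.mu L α) = (dot (ℓ p) α).toNat := fun p α => by
    have h1 : ∀ j, p ≠ e.symm j → (u p).ord (lin H.mu (L j) ^ (dot (L j) α).toNat) = 0 :=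
      fun j hj => by
        rw [DV.ord_pow _ (hz j), (DV.unit_of_not_ge ((hu p).1.1.1 _ (G.A_le (H.lin_A _)))
          fun h => hj (huniq p j h)).2, mul_zero]
    rw [zz, DV.ord_prod _ _ _ fun j _ => pow_ne_zero _ (hz j)]
    by_cases hp : ℓ p = 0
    · rw [Finset.sum_eq_zero fun j _ => h1 j fun h => (e.symm j).2 (h ▸ hp)]
      simp [hp, dot]
    · rw [Finset.sum_eq_single (e ⟨p, hp⟩)]
      · have h2 : L (e ⟨p, hp⟩) = ℓ p := by simp [L]
        obtain ⟨i, hi⟩ := Function.ne_iff.1 hp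
        rw [DV.ord_pow _ (hz _), h2, (G.ord_lin (hu p).1 hi (hlin p)).2, mul_one]
      · intro j _ hj
        exact h1 j fun h => hj (by rw [← e.apply_symm_apply j]; congr 1; exact Subtype.ext h.symm)
      · simp
  have hne : ∀ α, ∃ y ∈ H.deg α, y ≠ 0 ∧ ∀ p, (u p).Ge 0 y := fun α => by
    obtain ⟨r, h1, h2, h3⟩ := G.exists_deg α
    exact ⟨r, h2, h3, fun p => (hu p).1.1.1 r h1⟩
  have ht : ∀ α, ∃ y ∈ H.deg α, y ≠ 0 ∧ ∀ p, (u p).ord y = 0 := fun α => by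
    obtain ⟨k, hk, g, hg, hg1, hg0, h⟩ := G.gen P α
    refine G.free P hu hO hne hk (g := g / zz H.mu L (k • α))
      (by simpa using eig_div hg1 (hzzF (k • α))) (div_ne_zero hg0 (hzz0 _)) fun p => ?_
    rw [DV.ord_div _ hg0 (hzz0 _), hzz, sub_eq_zero]
    refine le_antisymm ?_ (hR _ g hg hg1 hg0 p)
    obtain ⟨r, h1, h2, h3, h4⟩ := hloc p (k • α)
    obtain ⟨s, hs, hs1, h5⟩ := h r h1 h2
    obtain ⟨hs0, hs2⟩ := DV.unit_of_not_ge ((hu p).1.1.1 s hs.1) fun h => hs1 ((hu p).2 s hs h)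
    have h6 := ((hu p).1.1.1 _ h5.1).le (mul_ne_zero hs0 (div_ne_zero h3 hg0))
    rw [DV.ord_mul _ _ _ hs0 (div_ne_zero h3 hg0), DV.ord_div _ h3 hg0] at h6
    omega
  choose t ht1 ht0 ht2 using fun i => ht (Pi.single i 1)
  have hr0 : ∀ α, rr H.mu t L α ≠ 0 := fun α => mul_ne_zero (tpow_ne ht0 α) (hzz0 α)
  have hr1 : ∀ α, rr H.mu t L α ∈ H.deg α := fun α => eig_mul_zero (eig_tpow ht1 α) (hzzF α)
  have hr2 : ∀ p α, (u p).ord (rr H.mu t L α) = (dot (ℓ p) α).toNat := fun p α => by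
    rw [rr, DV.ord_mul _ _ _ (tpow_ne ht0 α) (hzz0 α), hzz, ord_tpow _ ht0]
    simp [ht2]
  refine ⟨N, L, t, fun j => (e.symm j).2, fun j k h => ?_, ht0, ht1, hz,
    fun α => (hch α _ (hr1 α) (hr0 α)).2 fun p => (hr2 p α).ge, fun α y hy hα => ?_⟩
  · obtain ⟨a, ha⟩ := hL j
    refine e.symm.injective (Subtype.ext (huniq _ k ?_))
    refine (hu _).1.1.const.of_smul (c := (L j a : ℂ)) (by exact_mod_cast ha) ?_
    have : (L j a : ℂ) • lin H.mu (L k) = (L k a : K) * lin H.mu (L j) := by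
      rw [Algebra.smul_def, map_intCast, lin, lin, Finset.mul_sum, Finset.mul_sum]
      refine Finset.sum_congr rfl fun b _ => ?_
      rw [← mul_assoc, ← mul_assoc, ← Int.cast_mul, ← Int.cast_mul, h a b, mul_comm (L j b)]
    rw [this]
    exact (DV.ge_intCast _).mul_left (hlin _)
  · have hF : y / rr H.mu t L α ∈ H.F := eig_div_same hα (hr1 α)
    obtain ⟨s, hs, hs1, h⟩ := hO _ hF fun p => by
      by_cases h0 : y = 0
      · simp [h0, DV.ge_zero]
      have := hR α y hy hα h0 p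
      exact Or.inr (by rw [DV.ord_div _ h0 (hr0 α), hr2]; omega)
    exact ⟨s, hs, hs1, h, mul_mem hs.2 hF⟩

end Good

end Pool.Agent.MP_51db15_ag

end MrgPart0

-- ======== part 1: formerly Pool.Agent.MP_51db15_ag.RR
section MrgPart1

/-! The hypertoric algebra attached to elements of a field, and the etale map to it. -/

set_option linter.unusedSectionVars false

namespace Pool.Agent.MP_51db15_ag

variable {K : Type} [Field K] [Algebra ℂ K] {n N : ℕ}

/-- the hypertoric algebra -/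
def hyp (μ t : Fin n → K) (ℓ : Fin N → Fin n → ℤ) : Subalgebra ℂ K :=
  Algebra.adjoin ℂ (Set.range μ ∪ Set.range (rr μ t ℓ))

section

variable {μ t : Fin n → K} {ℓ : Fin N → Fin n → ℤ}

theorem lin_mem_adjoin (μ : Fin n → K) (l : Fin n → ℤ) :
    lin μ l ∈ Algebra.adjoin ℂ (Set.range μ) :=
  sum_mem fun i _ => mul_mem (intCast_mem _ _) (Algebra.subset_adjoin (Set.mem_range_self i))

theorem adjoin_le_hyp : Algebra.adjoin ℂ (Set.range μ) ≤ hyp μ t ℓ :=
  Algebra.adjoin_mono Set.subset_union_left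

theorem rr_mem (α : Fin n → ℤ) : rr μ t ℓ α ∈ hyp μ t ℓ :=
  Algebra.subset_adjoin (Or.inr (Set.mem_range_self α))

theorem rr_zero : rr μ t ℓ 0 = 1 := by simp [rr, zz, tpow_zero, dot_zero]

theorem tpow_mul_prod (α : Fin n → ℤ) (c : Fin N → ℕ) (hc : ∀ j, dot (ℓ j) α ≤ c j) :
    tpow t α * ∏ j, lin μ (ℓ j) ^ c j =
      (∏ j, lin μ (ℓ j) ^ (c j - (dot (ℓ j) α).toNat)) * rr μ t ℓ α := by
  rw [rr, zz, mul_left_comm, ← Finset.prod_mul_distrib]
  congr 1
  refine Finset.prod_congr rfl fun j _ => ?_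
  rw [← pow_add, Nat.sub_add_cancel (by have := hc j; omega)]

theorem tpow_mul_prod_mem (α : Fin n → ℤ) (c : Fin N → ℕ) (hc : ∀ j, dot (ℓ j) α ≤ c j) :
    tpow t α * ∏ j, lin μ (ℓ j) ^ c j ∈ hyp μ t ℓ := by
  rw [tpow_mul_prod α c hc]
  exact mul_mem (adjoin_le_hyp (prod_mem fun j _ => pow_mem (lin_mem_adjoin μ _) _)) (rr_mem α)

theorem rr_mul (ht : ∀ i, t i ≠ 0) (α β : Fin n → ℤ) : rr μ t ℓ α * rr μ t ℓ β =
    tpow t (α + β) * ∏ j, lin μ (ℓ j) ^ ((dot (ℓ j) α).toNat + (dot (ℓ j) β).toNat) := by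
  simp only [rr, zz, tpow_add ht, pow_add, Finset.prod_mul_distrib]; ring

theorem rr_mul' (ht : ∀ i, t i ≠ 0) (α β : Fin n → ℤ) :
    ∃ c ∈ Algebra.adjoin ℂ (Set.range μ), rr μ t ℓ α * rr μ t ℓ β = c * rr μ t ℓ (α + β) := by
  rw [rr_mul ht, tpow_mul_prod _ _ fun j => by rw [dot_add]; push_cast; omega]
  exact ⟨_, prod_mem fun j _ => pow_mem (lin_mem_adjoin μ _) _, rfl⟩

/-- the span of the generators over any ring that contains the coordinates is an algebra -/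
theorem mem_span_rr (ht : ∀ i, t i ≠ 0) (C : Subalgebra ℂ K) (hC : ∀ i, μ i ∈ C) (s : Set K)
    (hs : ∀ y ∈ s, y ∈ Submodule.span C (Set.range (rr μ t ℓ))) {y : K}
    (hy : y ∈ Algebra.adjoin ℂ s) : y ∈ Submodule.span C (Set.range (rr μ t ℓ)) := by
  have hA : Algebra.adjoin ℂ (Set.range μ) ≤ C :=
    Algebra.adjoin_le (by rintro _ ⟨i, rfl⟩; exact hC i)
  induction hy using Algebra.adjoin_induction with
  | mem _ h => exact hs _ h
  | algebraMap c =>
    have := Submodule.smul_mem _ (⟨_, C.algebraMap_mem c⟩ : C)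
      (Submodule.subset_span (R := C) (Set.mem_range_self (f := rr μ t ℓ) 0))
    rwa [rr_zero, Subalgebra.smul_def, smul_eq_mul, mul_one] at this
  | add _ _ _ _ h1 h2 => exact add_mem h1 h2
  | mul a b _ _ h1 h2 =>
    refine Submodule.span_induction₂ (p := fun a b _ _ => a * b ∈ _) ?_ (by simp) (by simp)
      (fun _ _ _ _ _ _ h3 h4 => by rw [add_mul]; exact add_mem h3 h4)
      (fun _ _ _ _ _ _ h3 h4 => by rw [mul_add]; exact add_mem h3 h4)
      (fun c _ _ _ _ h3 => by rw [smul_mul_assoc]; exact Submodule.smul_mem _ _ h3)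
      (fun c _ _ _ _ h3 => by rw [mul_smul_comm]; exact Submodule.smul_mem _ _ h3) h1 h2
    rintro _ _ ⟨α, rfl⟩ ⟨β, rfl⟩
    obtain ⟨c, hc, e⟩ := rr_mul' (μ := μ) (ℓ := ℓ) ht α β
    rw [e]
    exact Submodule.smul_mem _ (⟨c, hA hc⟩ : C) (Submodule.subset_span (Set.mem_range_self _))

theorem hyp_span (ht : ∀ i, t i ≠ 0) {y : K} (hy : y ∈ hyp μ t ℓ) :
    y ∈ Submodule.span (Algebra.adjoin ℂ (Set.range μ)) (Set.range (rr μ t ℓ)) := by
  refine mem_span_rr ht _ (fun i => Algebra.subset_adjoin (Set.mem_range_self i)) _ ?_ hy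
  rintro _ (⟨i, rfl⟩ | h)
  · have := Submodule.smul_mem _ (⟨μ i, Algebra.subset_adjoin (Set.mem_range_self i)⟩ :
      Algebra.adjoin ℂ (Set.range μ)) (Submodule.subset_span (Set.mem_range_self (f := rr μ t ℓ) 0))
    rwa [rr_zero, Subalgebra.smul_def, smul_eq_mul, mul_one] at this
  · exact Submodule.subset_span h

theorem hyp_fg (ht : ∀ i, t i ≠ 0) : (hyp μ t ℓ).FG := by
  classical
  let β : (Fin n ⊕ Fin n) ⊕ (Fin N ⊕ Fin N) → Fin N → ℤ :=
    Sum.elim (Sum.elim (fun i j => ℓ j i) fun i j => -ℓ j i)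
      (Sum.elim (fun j => -Pi.single j 1) fun j => Pi.single j 1)
  let mon : ((Fin n ⊕ Fin n) ⊕ (Fin N ⊕ Fin N) → ℕ) → K := fun a =>
    tpow t (fun i => (a (.inl (.inl i)) : ℤ) - a (.inl (.inr i))) *
      ∏ j, lin μ (ℓ j) ^ a (.inr (.inl j))
  have hβ : ∀ (a : (Fin n ⊕ Fin n) ⊕ (Fin N ⊕ Fin N) → ℕ) j, (∑ q, a q • β q) j =
      dot (ℓ j) (fun i => (a (.inl (.inl i)) : ℤ) - a (.inl (.inr i))) - a (.inr (.inl j)) +
        a (.inr (.inr j)) := fun a j => by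
    simp [β, dot, Finset.sum_apply, Pi.single_apply, mul_sub, Finset.sum_sub_distrib, mul_comm]
    ring
  obtain ⟨S, h1, h2⟩ := gordan β 0
  refine ⟨Finset.univ.image μ ∪ S.image fun p => mon p.1, le_antisymm (Algebra.adjoin_le ?_)
    (Algebra.adjoin_le ?_)⟩
  · intro x hx
    rcases Finset.mem_union.1 hx with hx | hx
    · obtain ⟨i, -, rfl⟩ := Finset.mem_image.1 hx
      exact Algebra.subset_adjoin (Or.inl (Set.mem_range_self i))
    · obtain ⟨p, hp, rfl⟩ := Finset.mem_image.1 hx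
      refine tpow_mul_prod_mem _ _ fun j => ?_
      have := congr_fun (h1 p hp) j
      rw [hβ, smul_zero, Pi.zero_apply] at this
      omega
  · rintro _ (⟨i, rfl⟩ | ⟨α, rfl⟩)
    · exact Algebra.subset_adjoin (by simp)
    have h3 : ∀ p ∈ AddSubmonoid.closure
        (S : Set (((Fin n ⊕ Fin n) ⊕ (Fin N ⊕ Fin N) → ℕ) × ℕ)), mon (Prod.fst p) ∈ Algebra.adjoin ℂ
        ((Finset.univ.image μ ∪ S.image fun p => mon p.1 : Finset K) : Set K) := fun p hp => by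
      induction hp using AddSubmonoid.closure_induction with
      | mem p hp => exact Algebra.subset_adjoin (Finset.mem_coe.2
          (Finset.mem_union_right _ (Finset.mem_image_of_mem _ hp)))
      | zero => simp [mon, tpow]
      | add p r _ _ h1 h2 =>
        convert mul_mem h1 h2 using 1
        simp only [mon, Prod.fst_add, Pi.add_apply, pow_add, Finset.prod_mul_distrib]
        rw [mul_mul_mul_comm, ← tpow_add ht]
        congr 2
        ext i
        push_cast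
        simp only [Pi.add_apply]
        ring
    have h4 := h3 _ (h2 (Sum.elim (Sum.elim (fun i => (α i).toNat) fun i => (-α i).toNat)
      (Sum.elim (fun j => (dot (ℓ j) α).toNat) fun j => (-dot (ℓ j) α).toNat)) 0 (by
        ext j
        rw [hβ]
        simp only [Sum.elim_inl, Sum.elim_inr, Int.toNat_sub_toNat_neg, smul_zero, Pi.zero_apply]
        change dot (ℓ j) α - _ + _ = 0
        omega))
    simpa [mon, rr, zz] using h4

theorem rr_indep {ξ : Fin n → Derivation ℂ K K} {r : (Fin n → ℤ) → K} (h0 : ∀ α, r α ≠ 0)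
    (h : ∀ α, r α ∈ eig ξ α) (C : Subalgebra ℂ K) (hC : ∀ c ∈ C, c ∈ eig ξ 0) :
    LinearIndependent C r := by
  rw [linearIndependent_iff']
  intro s g hg α hα
  have := comp_finset (ξ := ξ) ⊥ (by simp) s (fun α => g α • r α)
    (fun α => eig_zero_mul (hC _ (g α).2) (h α)) hg α hα
  exact Subtype.ext ((mul_eq_zero.1 this).resolve_right (h0 α))

end

theorem exists_basis {ι : Type} {C D : Subalgebra ℂ K} [Algebra C D] [IsScalarTower C D K]
    (r : ι → K) (hr : ∀ i, r i ∈ D) (h1 : LinearIndependent C r)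
    (h2 : ∀ y ∈ D, y ∈ Submodule.span C (Set.range r)) :
    ∃ b : Module.Basis ι C D, ∀ i, (b i : K) = r i := by
  let f : D →ₗ[C] K := (IsScalarTower.toAlgHom C D K).toLinearMap
  refine ⟨Module.Basis.mk (v := fun i => ⟨r i, hr i⟩) (LinearIndependent.of_comp f h1)
    fun y _ => ?_, fun i => by simp⟩
  rw [← Submodule.apply_mem_span_image_iff_mem_span (f := f) Subtype.val_injective,
    ← Set.range_comp]
  exact h2 y y.2

theorem etale_of_basis {ι : Type} {A B S T : Subalgebra ℂ K} (hAB : A ≤ B) (hAS : A ≤ S)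
    (hBT : B ≤ T) (hST : S ≤ T) (r : ι → K) (hr : ∀ i, r i ∈ S) (h0 : LinearIndependent A r)
    (h1 : LinearIndependent B r) (h2 : ∀ y ∈ S, y ∈ Submodule.span A (Set.range r))
    (h3 : ∀ y ∈ T, y ∈ Submodule.span B (Set.range r))
    (he : (Subalgebra.inclusion hAB).toRingHom.Etale) :
    (Subalgebra.inclusion hST).toRingHom.Etale := by
  let := (Subalgebra.inclusion hAB).toRingHom.toAlgebra
  let := (Subalgebra.inclusion hAS).toRingHom.toAlgebra
  let := (Subalgebra.inclusion hBT).toRingHom.toAlgebra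
  let := (Subalgebra.inclusion hST).toRingHom.toAlgebra
  let := (Subalgebra.inclusion (hAB.trans hBT)).toRingHom.toAlgebra
  have : IsScalarTower A B T := IsScalarTower.of_algebraMap_eq fun _ => rfl
  have : IsScalarTower A S T := IsScalarTower.of_algebraMap_eq fun _ => rfl
  have : IsScalarTower A S K := IsScalarTower.of_algebraMap_eq fun _ => rfl
  have : IsScalarTower B T K := IsScalarTower.of_algebraMap_eq fun _ => rfl
  obtain ⟨b, hb⟩ := exists_basis r hr h0 h2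
  obtain ⟨c, hc⟩ := exists_basis r (fun i => hST (hr i)) h1 h3
  have : Algebra.IsPushout A B S T := ⟨by
    convert (IsBaseChange.of_basis A c).comp_equiv b.repr using 1
    refine b.ext fun i => Subtype.ext ?_
    simp [hc, ← hb]
    rfl⟩
  exact RingHom.Etale.isStableUnderBaseChange A B S T he

theorem Good.etale_hyp {H : Ham K n} {R : Subalgebra ℂ K} (G : Good H R) {m : Submodule ℂ K}
    (P : Pt H R m) {ℓ : Fin N → Fin n → ℤ} {t : Fin n → K} (h0 : ∀ i, t i ≠ 0)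
    (h1 : ∀ i, t i ∈ H.deg (Pi.single i 1)) (h2 : ∀ j, lin H.mu (ℓ j) ≠ 0)
    (h3 : ∀ α, ∃ s ∈ R ⊓ H.F, s ∉ m ∧ s * rr H.mu t ℓ α ∈ R)
    (h4 : ∀ α, ∀ y ∈ R, y ∈ H.deg α →
      ∃ s ∈ R ⊓ H.F, s ∉ m ∧ s * (y / rr H.mu t ℓ α) ∈ R ⊓ H.F) :
    ∃ s ∈ R ⊓ H.F, s ∉ m ∧ ∃ R' : Subalgebra ℂ K, (∀ y, y ∈ R' ↔ ∃ k : ℕ, s ^ k * y ∈ R) ∧
      ∃ h : hyp H.mu t ℓ ≤ R', (Subalgebra.inclusion h).toRingHom.Etale := by
  classical
  have hr0 : ∀ α, rr H.mu t ℓ α ≠ 0 := fun α => mul_ne_zero (tpow_ne h0 α)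
    (Finset.prod_ne_zero_iff.2 fun j _ => pow_ne_zero _ (h2 j))
  have hr1 : ∀ α, rr H.mu t ℓ α ∈ H.deg α := fun α => eig_mul_zero (eig_tpow h1 α)
    (prod_mem (S := H.F) fun j _ => pow_mem (H.A_le_F (H.lin_A _)) _)
  let M : Submonoid K :=
    { carrier := {s | s ∈ R ⊓ H.F ∧ s ∉ m}
      mul_mem' := fun {a b} ha hb => ⟨mul_mem ha.1 hb.1, fun h =>
        (P.prime a ha.1.1 b hb.1.1 h).elim ha.2 hb.2⟩
      one_mem' := ⟨one_mem _, P.one⟩ }
  have h5 : ∀ y ∈ hyp H.mu t ℓ, ∃ s ∈ M, s * y ∈ R := fun y hy => by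
    induction hy using Algebra.adjoin_induction with
    | mem _ h =>
      rcases h with ⟨i, rfl⟩ | ⟨α, rfl⟩
      · exact ⟨1, one_mem _, by simpa using G.mu_mem i⟩
      · obtain ⟨s, hs, hs1, h⟩ := h3 α
        exact ⟨s, ⟨hs, hs1⟩, h⟩
    | algebraMap c => exact ⟨1, one_mem _, by simp⟩
    | add a b _ _ ha hb =>
      obtain ⟨s, hs, ha⟩ := ha
      obtain ⟨u, hu, hb⟩ := hb
      exact ⟨_, mul_mem hs hu, by
        convert add_mem (mul_mem hu.1.1 ha) (mul_mem hs.1.1 hb) using 1; ring⟩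
    | mul a b _ _ ha hb =>
      obtain ⟨s, hs, ha⟩ := ha
      obtain ⟨u, hu, hb⟩ := hb
      exact ⟨_, mul_mem hs hu, by convert mul_mem ha hb using 1; ring⟩
  obtain ⟨E, hE⟩ := hyp_fg (μ := H.mu) (ℓ := ℓ) h0
  obtain ⟨ι, _, g, β, hg, e⟩ := G.fg
  have hgR : ∀ q, g q ∈ R := fun q => e ▸ Algebra.subset_adjoin (Set.mem_range_self q)
  choose σ hσ hσ' using fun y : E => h5 y (hE ▸ Algebra.subset_adjoin y.2)
  choose τ hτ hτ1 hτ' using fun q => h4 _ _ (hgR q) (hg q)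
  have hs : (∏ y, σ y) * ∏ q, τ q ∈ M :=
    mul_mem (prod_mem fun y _ => hσ y) (prod_mem fun q _ => ⟨hτ q, hτ1 q⟩)
  have hd1 : ∀ y : E, (∏ y, σ y) * (∏ q, τ q) * y ∈ R := fun y => by
    rw [← Finset.mul_prod_erase _ _ (Finset.mem_univ y)]
    convert mul_mem (mul_mem (prod_mem fun y' (_ : y' ∈ Finset.univ.erase y) => (hσ y').1.1)
      (prod_mem fun q (_ : q ∈ Finset.univ) => (hτ q).1)) (hσ' y) using 1
    ring
  have hd2 : ∀ q, (∏ y, σ y) * (∏ q, τ q) * (g q / rr H.mu t ℓ (β q)) ∈ R := fun q => by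
    rw [← Finset.mul_prod_erase _ τ (Finset.mem_univ q)]
    convert mul_mem (mul_mem (prod_mem fun y (_ : y ∈ Finset.univ) => (hσ y).1.1)
      (prod_mem fun q' (_ : q' ∈ Finset.univ.erase q) => (hτ q').1)) (hτ' q).1 using 1
    ring
  generalize (∏ y, σ y) * ∏ q, τ q = s at hs hd1 hd2
  have hs0 : s ≠ 0 := fun h => hs.2 (h ▸ m.zero_mem)
  obtain ⟨R', G', hR'⟩ := G.away hs.1.1 hs.1.2 hs0
  have hle : hyp H.mu t ℓ ≤ R' := hE ▸ Algebra.adjoin_le fun y hy =>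
    (hR' y).2 ⟨1, by simpa using hd1 ⟨y, hy⟩⟩
  refine ⟨s, hs.1, hs.2, R', hR', hle, etale_of_basis G'.A_le_B adjoin_le_hyp inf_le_left hle
    (rr H.mu t ℓ) rr_mem (rr_indep hr0 hr1 _ fun c hc => H.A_le_F hc)
    (rr_indep hr0 hr1 _ fun c hc => hc.2) (fun y => hyp_span h0) (fun y hy => ?_) G'.etale_B⟩
  obtain ⟨k, hk⟩ := (hR' y).1 hy
  have h6 := mem_span_rr (ℓ := ℓ) h0 (R' ⊓ H.F) (fun i => ⟨G'.mu_mem i, H.mu_F i⟩) _ (by
    rintro _ ⟨q, rfl⟩
    have := Submodule.smul_mem _ (⟨g q / rr H.mu t ℓ (β q), (hR' _).2 ⟨1, by simpa using hd2 q⟩,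
      eig_div_same (hg q) (hr1 _)⟩ : (R' ⊓ H.F : Subalgebra ℂ K))
      (Submodule.subset_span (Set.mem_range_self (f := rr H.mu t ℓ) (β q)))
    rwa [Subalgebra.smul_def, smul_eq_mul, div_mul_cancel₀ _ (hr0 _)] at this) (e ▸ hk)
  have h7 : s⁻¹ ∈ R' ⊓ H.F := ⟨(hR' _).2 ⟨1, by simp [hs0]⟩, H.inv_F hs.1.2⟩
  have := Submodule.smul_mem _ (⟨s⁻¹ ^ k, pow_mem h7 k⟩ : (R' ⊓ H.F : Subalgebra ℂ K)) h6
  have h8 : s⁻¹ ^ k * (s ^ k * y) = y := by
    rw [inv_pow, inv_mul_cancel_left₀ (pow_ne_zero _ hs0)]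
  exact h8 ▸ this

end Pool.Agent.MP_51db15_ag

end MrgPart1

-- ======== part 2: formerly Pool.Agent.MP_51db15_ag.Coord
section MrgPart2

/-! Darboux coordinates on a purely transcendental function field. -/

set_option linter.unusedSectionVars false

namespace Pool.Agent.MP_51db15_ag

variable {K : Type} [Field K] [Algebra ℂ K] {n : ℕ}

theorem der_sum {ι : Type*} (s : Finset ι) (X : ι → Derivation ℂ K K) (y : K) :
    (∑ i ∈ s, X i) y = ∑ i ∈ s, X i y := by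
  rw [← Derivation.coeFnAddMonoidHom_apply, map_sum, Finset.sum_apply]
  rfl

theorem der_adjoin (X : Derivation ℂ K K) {s : Set K} {S : Subalgebra ℂ K} (hs : s ⊆ S)
    (h : ∀ y ∈ s, X y ∈ S) {y : K} (hy : y ∈ Algebra.adjoin ℂ s) : X y ∈ S := by
  have hle : Algebra.adjoin ℂ s ≤ S := Algebra.adjoin_le hs
  induction hy using Algebra.adjoin_induction with
  | mem _ h1 => exact h _ h1
  | algebraMap c => simp
  | add _ _ _ _ h1 h2 => rw [map_add]; exact add_mem h1 h2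
  | mul a b ha hb h1 h2 =>
    rw [Derivation.leibniz]; exact add_mem (mul_mem (hle ha) h2) (mul_mem (hle hb) h1)

theorem algInd2 {μ t : Fin n → K} (P ξ : Fin n → Derivation ℂ K K) (ht : ∀ i, t i ≠ 0)
    (h1 : ∀ i j, P i (μ j) = if i = j then 1 else 0) (h2 : ∀ i j, ξ i (μ j) = 0)
    (h3 : ∀ i, t i ∈ eig ξ (Pi.single i 1)) : AlgebraicIndependent ℂ (Sum.elim μ t) := by
  have h4 : ∀ i j, ξ i (t j) = if i = j then t j else 0 := fun i j => by
    rw [h3 j i]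
    by_cases h : i = j
    · subst h; simp
    · simp [h]
  refine algInd _ (Sum.elim (fun i => P i - ∑ k, (P i (t k) / t k) • ξ k) fun i => (t i)⁻¹ • ξ i) ?_
  rintro (i | i) (j | j)
  · simp [der_sum, h1, h2]
  · simp [der_sum, h4, ht]
  · simp [h2]
  · by_cases h : i = j
    · subst h; simp [h4, ht]
    · simp [h4, h]

/-- coordinates `μ, t` with the dual vector fields -/
structure Coord (K : Type) [Field K] [Algebra ℂ K] (n : ℕ) where
  mu : Fin n → K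
  t : Fin n → K
  P : Fin n → Derivation ℂ K K
  ξ : Fin n → Derivation ℂ K K
  t_ne : ∀ i, t i ≠ 0
  P_mu : ∀ i j, P i (mu j) = if i = j then 1 else 0
  P_t : ∀ i j, P i (t j) = 0
  ξ_mu : ∀ i j, ξ i (mu j) = 0
  ξ_t : ∀ i j, ξ i (t j) = if i = j then t j else 0
  gen : ∀ y, ∃ a ∈ Algebra.adjoin ℂ (Set.range (Sum.elim mu t)),
    ∃ b ∈ Algebra.adjoin ℂ (Set.range (Sum.elim mu t)), b ≠ 0 ∧ y = a / b

namespace Coord

variable (C : Coord K n)

theorem ext' {X Y : Derivation ℂ K K} (h1 : ∀ i, X (C.mu i) = Y (C.mu i))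
    (h2 : ∀ i, X (C.t i) = Y (C.t i)) : X = Y := by
  have h : ∀ a ∈ Algebra.adjoin ℂ (Set.range (Sum.elim C.mu C.t)), X a = Y a := fun a ha =>
    Derivation.eqOn_adjoin (by rintro _ ⟨i | i, rfl⟩; exacts [h1 i, h2 i]) ha
  ext y
  obtain ⟨a, ha, b, hb, -, rfl⟩ := C.gen y
  rw [Derivation.leibniz_div, Derivation.leibniz_div, h a ha, h b hb]

theorem t_mem (j : Fin n) : C.t j ∈ eig C.ξ (Pi.single j 1) := fun i => by
  rw [C.ξ_t]
  by_cases h : i = j
  · subst h; simp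
  · simp [h]

theorem mu_mem (j : Fin n) : C.mu j ∈ eig C.ξ 0 := eig_zero_iff.2 fun i => C.ξ_mu i j

/-- the standard symplectic form -/
noncomputable def ω : LinearMap.BilinForm K (Derivation ℂ K K) :=
  LinearMap.mk₂ K (fun X Y => ∑ i, (X (C.t i) * Y (C.mu i) - X (C.mu i) * Y (C.t i)) / C.t i)
    (fun X X' Y => by
      rw [← Finset.sum_add_distrib]
      exact Finset.sum_congr rfl fun i _ => by simp only [Derivation.add_apply]; ring)
    (fun c X Y => by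
      rw [Finset.smul_sum]
      exact Finset.sum_congr rfl fun i _ => by
        simp only [Derivation.smul_apply, smul_eq_mul]; ring)
    (fun X Y Y' => by
      rw [← Finset.sum_add_distrib]
      exact Finset.sum_congr rfl fun i _ => by simp only [Derivation.add_apply]; ring)
    (fun c X Y => by
      rw [Finset.smul_sum]
      exact Finset.sum_congr rfl fun i _ => by
        simp only [Derivation.smul_apply, smul_eq_mul]; ring)

theorem ω_apply (X Y : Derivation ℂ K K) :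
    C.ω X Y = ∑ i, (X (C.t i) * Y (C.mu i) - X (C.mu i) * Y (C.t i)) / C.t i := rfl

theorem closed : IsClosedForm C.ω := by
  refine ⟨fun X => ?_, fun X Y Z => ?_⟩
  · rw [ω_apply]
    exact Finset.sum_eq_zero fun i _ => by rw [mul_comm, sub_self, zero_div]
  · simp only [ω_apply, map_sum, ← Finset.sum_sub_distrib, ← Finset.sum_add_distrib]
    refine Finset.sum_eq_zero fun i _ => ?_
    have := C.t_ne i
    simp only [Derivation.leibniz_div, map_sub, Derivation.leibniz, Derivation.commutator_apply,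
      smul_eq_mul]
    field_simp
    ring

/-- Hamiltonian vector fields -/
noncomputable def ham (f : K) : Derivation ℂ K K := ∑ i, (C.P i f • C.ξ i - C.ξ i f • C.P i)

theorem ham_apply (f g : K) :
    C.ham f g = ∑ i, (C.P i f * C.ξ i g - C.ξ i f * C.P i g) := by
  simp [ham, der_sum]

theorem ham_skew (f g : K) : C.ham f g = -C.ham g f := by
  rw [ham_apply, ham_apply, ← Finset.sum_neg_distrib]
  exact Finset.sum_congr rfl fun i _ => by ring

theorem ham_mu (f : K) (j : Fin n) : C.ham f (C.mu j) = -C.ξ j f := by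
  simp [ham_apply, C.ξ_mu, C.P_mu]

theorem ham_t (f : K) (j : Fin n) : C.ham f (C.t j) = C.P j f * C.t j := by
  simp [ham_apply, C.ξ_t, C.P_t]

theorem expand (Y : Derivation ℂ K K) (f : K) :
    Y f = ∑ i, (Y (C.mu i) * C.P i f + Y (C.t i) / C.t i * C.ξ i f) := by
  have : Y = ∑ i, (Y (C.mu i) • C.P i + (Y (C.t i) / C.t i) • C.ξ i) :=
    C.ext' (fun j => by simp [der_sum, C.P_mu, C.ξ_mu])
      fun j => by simp [der_sum, C.P_t, C.ξ_t, C.t_ne]
  conv_lhs => rw [this]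
  simp [der_sum]

theorem ω_ham (f : K) (Y : Derivation ℂ K K) : C.ω (C.ham f) Y = Y f := by
  rw [ω_apply, C.expand Y f]
  refine Finset.sum_congr rfl fun i _ => ?_
  have := C.t_ne i
  rw [ham_mu, ham_t]
  field_simp
  ring

theorem algInd : AlgebraicIndependent ℂ (Sum.elim C.mu C.t) :=
  algInd2 C.P C.ξ C.t_ne C.P_mu C.ξ_mu C.t_mem

theorem P_lin (i : Fin n) (l : Fin n → ℤ) : C.P i (lin C.mu l) = l i := by
  simp [lin, map_sum, C.P_mu]

theorem lin_ne {l : Fin n → ℤ} (h : l ≠ 0) : lin C.mu l ≠ 0 := fun h0 => by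
  obtain ⟨i, hi⟩ := Function.ne_iff.1 h
  have : CharZero K := charZero_of_injective_algebraMap (algebraMap ℂ K).injective
  have h1 := C.P_lin i l
  rw [h0, map_zero, eq_comm, Int.cast_eq_zero] at h1
  exact hi h1

theorem adj_mem {a : K} (ha : a ∈ Algebra.adjoin ℂ (Set.range C.mu)) : a ∈ eig C.ξ 0 :=
  eig_zero_iff.2 fun i => Derivation.eqOn_adjoin (D1 := C.ξ i) (D2 := 0)
    (by rintro _ ⟨j, rfl⟩; exact C.ξ_mu i j) ha

end Coord

theorem exists_extend {A : Type} [CommRing A] [Algebra ℂ A] [Algebra A K] [IsScalarTower ℂ A K]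
    [IsFractionRing A K] (D : Derivation ℂ A K) :
    ∃ X : Derivation ℂ K K, ∀ a, X (algebraMap A K a) = D a := by
  have : Algebra.FormallyEtale A K := Algebra.FormallyEtale.of_isLocalization (nonZeroDivisors A)
  have hb := KaehlerDifferential.isBaseChange_of_formallyEtale ℂ A K
  refine ⟨(hb.lift D.liftKaehlerDifferential).compDer (KaehlerDifferential.D ℂ K), fun a => ?_⟩
  have := hb.lift_eq D.liftKaehlerDifferential (KaehlerDifferential.D ℂ A a)
  simpa using this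

theorem exists_coord (n : ℕ) : ∃ C : Coord (K0 n) n,
    C.mu = (fun i => var (Sum.inl i)) ∧ C.t = fun i => var (Sum.inr i) := by
  classical
  choose X hX using fun a : Fin n ⊕ Fin n => exists_extend (K := K0 n)
    ((Algebra.linearMap (MvPolynomial (Fin n ⊕ Fin n) ℂ) (K0 n)).compDer (MvPolynomial.pderiv a))
  have h : ∀ a b, X a (var b) = if a = b then 1 else 0 := fun a b => by
    rw [var, hX]
    simp [MvPolynomial.pderiv_X, Pi.single_apply, eq_comm]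
  have h2 : ∀ p : MvPolynomial (Fin n ⊕ Fin n) ℂ, algebraMap _ (K0 n) p ∈ Algebra.adjoin ℂ
      (Set.range (Sum.elim (fun i => var (Sum.inl i)) fun i => var (n := n) (Sum.inr i))) :=
    fun p => by
      induction p using MvPolynomial.induction_on with
      | C c => exact Subalgebra.algebraMap_mem _ c
      | add p q h1 h2 => rw [map_add]; exact add_mem h1 h2
      | mul_X p a h1 =>
        rw [map_mul]
        exact mul_mem h1 (Algebra.subset_adjoin ⟨a, by cases a <;> rfl⟩)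
  refine ⟨⟨fun i => var (Sum.inl i), fun i => var (Sum.inr i), fun i => X (Sum.inl i),
    fun i => var (Sum.inr i) • X (Sum.inr i), fun i => ?_, fun i j => by simp [h],
    fun i j => by simp [h], fun i j => by simp [h], fun i j => ?_, fun y => ?_⟩, rfl, rfl⟩
  · simp [var]
  · by_cases e : i = j
    · simp [h, e]
    · simp [h, e]
  · obtain ⟨a, b, hb, rfl⟩ := IsFractionRing.div_surjective (A := MvPolynomial (Fin n ⊕ Fin n) ℂ) y
    exact ⟨_, h2 a, _, h2 b, by simpa using nonZeroDivisors.ne_zero hb, rfl⟩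

end Pool.Agent.MP_51db15_ag

end MrgPart2

-- ======== part 3: formerly Pool.Agent.MP_51db15_ag.Normal
section MrgPart3

/-! The hypertoric algebra is normal. -/

set_option linter.unusedSectionVars false

namespace Pool.Agent.MP_51db15_ag

variable {K : Type} [Field K] [Algebra ℂ K] {n N : ℕ}

theorem prod_zpow_sum {ι : Type} {z : K} (h0 : z ≠ 0) (s : Finset ι) (f : ι → ℤ) :
    ∏ i ∈ s, z ^ f i = z ^ ∑ i ∈ s, f i := by
  classical
  induction s using Finset.induction_on with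
  | empty => simp
  | insert a s ha ih => rw [Finset.prod_insert ha, Finset.sum_insert ha, ih, zpow_add₀ h0]

theorem poly_normal {σ : Type} {x : σ → K} (hx : AlgebraicIndependent ℂ x)
    (hf : ∀ y : K, ∃ a ∈ Algebra.adjoin ℂ (Set.range x), ∃ b ∈ Algebra.adjoin ℂ (Set.range x),
      b ≠ 0 ∧ y = a / b) {y : K} (hy : IsIntegral (Algebra.adjoin ℂ (Set.range x)) y) :
    y ∈ Algebra.adjoin ℂ (Set.range x) := by
  have := hx.aevalEquiv.toMulEquiv.uniqueFactorizationMonoid inferInstance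
  have : IsFractionRing (Algebra.adjoin ℂ (Set.range x)) K := IsFractionRing.of_field _ K fun y => by
    obtain ⟨a, ha, b, hb, -, e⟩ := hf y
    exact ⟨⟨a, ha⟩, ⟨b, hb⟩, e⟩
  obtain ⟨a, rfl⟩ := IsIntegrallyClosed.isIntegral_iff.1 hy
  exact a.2

/-- localisation away from one element, inside the field -/
def awayAlg (R : Subalgebra ℂ K) {g : K} (hg : g ∈ R) : Subalgebra ℂ K where
  carrier := {y | ∃ k : ℕ, g ^ k * y ∈ R}
  mul_mem' := by
    rintro a b ⟨k, hk⟩ ⟨l, hl⟩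
    exact ⟨k + l, by convert mul_mem hk hl using 1; ring⟩
  add_mem' := by
    rintro a b ⟨k, hk⟩ ⟨l, hl⟩
    exact ⟨k + l, by
      convert add_mem (mul_mem (pow_mem hg l) hk) (mul_mem (pow_mem hg k) hl) using 1; ring⟩
  algebraMap_mem' := fun c => ⟨0, by simp⟩

theorem isLoc_away {R R' : Subalgebra ℂ K} (hle : R ≤ R') {g : K} (hg : g ∈ R) (h0 : g ≠ 0)
    (h : ∀ y, y ∈ R' ↔ ∃ k : ℕ, g ^ k * y ∈ R) :
    letI := (Subalgebra.inclusion hle).toRingHom.toAlgebra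
    IsLocalization.Away (⟨g, hg⟩ : R) R' := by
  let := (Subalgebra.inclusion hle).toRingHom.toAlgebra
  refine IsLocalization.Away.mk _ (IsUnit.of_mul_eq_one ⟨g⁻¹, (h _).2 ⟨1, by simp [h0]⟩⟩
    (Subtype.ext (mul_inv_cancel₀ h0))) ?_ fun a b h => ⟨0, ?_⟩
  · rintro ⟨y, hy⟩
    obtain ⟨k, hk⟩ := (h y).1 hy
    exact ⟨k, ⟨_, hk⟩, Subtype.ext (mul_comm _ _)⟩
  · rw [Subalgebra.inclusion_injective hle h]

theorem away_normal {R S : Subalgebra ℂ K} (hn : ∀ y : K, IsIntegral R y → y ∈ R) {g : K}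
    (hg : g ∈ R) (h0 : g ≠ 0) (hS : S ≤ awayAlg R hg) {y : K} (hy : IsIntegral S y) :
    y ∈ awayAlg R hg := by
  have hle : R ≤ awayAlg R hg := fun r hr => ⟨0, by simpa using hr⟩
  let := (Subalgebra.inclusion hle).toRingHom.toAlgebra
  let := (Subalgebra.inclusion hS).toRingHom.toAlgebra
  have : IsScalarTower R (awayAlg R hg) K := IsScalarTower.of_algebraMap_eq fun _ => rfl
  have : IsScalarTower S (awayAlg R hg) K := IsScalarTower.of_algebraMap_eq fun _ => rfl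
  have := isLoc_away hle hg h0 fun _ => Iff.rfl
  obtain ⟨⟨_, k, rfl⟩, h⟩ := IsIntegral.exists_multiple_integral_of_isLocalization
    (Rₘ := awayAlg R hg) (Submonoid.powers (⟨g, hg⟩ : R)) y hy.tower_top
  exact ⟨k, hn _ h⟩

theorem span_dec {ι : Type} (A : Subalgebra ℂ K) (r : ι → K) {y : K}
    (hy : y ∈ Submodule.span A (Set.range r)) :
    ∃ f : ι →₀ K, (∀ α, ∃ a ∈ A, f α = a * r α) ∧ f.sum (fun _ x => x) = y := by
  obtain ⟨c, rfl⟩ := Finsupp.mem_span_range_iff_exists_finsupp.1 hy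
  refine ⟨Finsupp.onFinset c.support (fun α => c α * r α) fun α h => Finsupp.mem_support_iff.2
    fun h0 => h (by simp [h0]), fun α => ⟨c α, (c α).2, rfl⟩, ?_⟩
  rw [Finsupp.onFinset_sum _ fun _ => rfl]
  rfl

theorem dvd_lin {μ : Fin n → K} (hμ : AlgebraicIndependent ℂ μ) {ℓ : Fin N → Fin n → ℤ}
    (h0 : ∀ j, ℓ j ≠ 0) (h1 : ∀ j k, (∀ a b, ℓ j a * ℓ k b = ℓ j b * ℓ k a) → j = k)
    (c : Fin N → ℕ) {a : K} (ha : a ∈ Algebra.adjoin ℂ (Set.range μ))
    (h : ∀ j, ∃ b ∈ Algebra.adjoin ℂ (Set.range μ), a = b * lin μ (ℓ j) ^ c j) :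
    ∃ b ∈ Algebra.adjoin ℂ (Set.range μ), a = b * ∏ j, lin μ (ℓ j) ^ c j := by
  let Z : Fin N → MvPolynomial (Fin n) ℂ := fun j =>
    MvPolynomial.sumSMulX (Finsupp.equivFunOnFinite.symm fun i => (ℓ j i : ℂ))
  have hZ : ∀ j, MvPolynomial.aeval μ (Z j) = lin μ (ℓ j) := fun j => by
    simp [Z, MvPolynomial.sumSMulX, Finsupp.linearCombination_apply, Finsupp.sum_fintype, lin,
      Algebra.smul_def]
  have hirr : ∀ j, Irreducible (Z j) := fun j => by
    obtain ⟨i, hi⟩ := Function.ne_iff.1 (h0 j)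
    have hi' : (ℓ j i : ℂ) ≠ 0 := by exact_mod_cast hi
    refine MvPolynomial.irreducible_sumSMulX _ ⟨i, by simpa using hi⟩ fun r hr => ?_
    exact (ne_zero_of_dvd_ne_zero hi' (by simpa using hr i)).isUnit
  rw [Algebra.adjoin_range_eq_range_aeval] at *
  obtain ⟨p, rfl⟩ := ha
  obtain ⟨q, hq⟩ := Fintype.prod_dvd_of_isRelPrime (s := fun j => Z j ^ c j) (z := p)
    (fun j k hjk => IsRelPrime.pow ((hirr j).isRelPrime_iff_not_dvd.2 fun hd => hjk (h1 j k (by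
      obtain ⟨u, hu⟩ := (hirr j).associated_of_dvd (hirr k) hd
      obtain ⟨e, -, he⟩ := MvPolynomial.isUnit_iff_eq_C_of_isReduced.1 u.isUnit
      have h2 : ∀ i, (ℓ k i : ℂ) = e * ℓ j i := fun i => by
        have := congr(MvPolynomial.coeff (Finsupp.single i 1) $hu)
        rw [he, mul_comm, MvPolynomial.coeff_C_mul] at this
        simpa [Z, MvPolynomial.coeff_sumSMulX] using this.symm
      intro a b
      have : (ℓ j a : ℂ) * ℓ k b = ℓ j b * ℓ k a := by rw [h2 a, h2 b]; ring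
      exact_mod_cast this))))
    fun j => by
      obtain ⟨_, ⟨q, rfl⟩, e⟩ := h j
      refine ⟨q, algebraicIndependent_iff_injective_aeval.1 hμ ?_⟩
      simpa [hZ, mul_comm] using e
  exact ⟨_, ⟨q, rfl⟩, by simp [hq, hZ, mul_comm]⟩

namespace Coord

variable (C : Coord K n) {ℓ : Fin N → Fin n → ℤ}

theorem frac (T : Subalgebra ℂ K) (h1 : ∀ i, C.mu i ∈ T)
    (h2 : ∀ i, ∃ a ∈ T, ∃ b ∈ T, b ≠ 0 ∧ C.t i = a / b) (y : K) :
    ∃ a ∈ T, ∃ b ∈ T, b ≠ 0 ∧ y = a / b := by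
  have h : ∀ y ∈ Algebra.adjoin ℂ (Set.range (Sum.elim C.mu C.t)),
      ∃ a ∈ T, ∃ b ∈ T, b ≠ 0 ∧ y = a / b := fun y hy => by
    induction hy using Algebra.adjoin_induction with
    | mem _ h =>
      obtain ⟨i | i, rfl⟩ := h
      exacts [⟨_, h1 i, 1, one_mem _, one_ne_zero, by simp⟩, h2 i]
    | algebraMap c => exact ⟨_, T.algebraMap_mem c, 1, one_mem _, one_ne_zero, by simp⟩
    | add _ _ _ _ h3 h4 =>
      obtain ⟨a, ha, b, hb, h5, rfl⟩ := h3
      obtain ⟨c, hc, d, hd, h6, rfl⟩ := h4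
      exact ⟨_, add_mem (mul_mem ha hd) (mul_mem hb hc), _, mul_mem hb hd, mul_ne_zero h5 h6,
        div_add_div _ _ h5 h6⟩
    | mul _ _ _ _ h3 h4 =>
      obtain ⟨a, ha, b, hb, h5, rfl⟩ := h3
      obtain ⟨c, hc, d, hd, h6, rfl⟩ := h4
      exact ⟨_, mul_mem ha hc, _, mul_mem hb hd, mul_ne_zero h5 h6, div_mul_div_comm _ _ _ _⟩
  obtain ⟨u, hu, w, hw, h0, rfl⟩ := C.gen y
  obtain ⟨a, ha, b, hb, h5, rfl⟩ := h u hu
  obtain ⟨c, hc, d, hd, h6, rfl⟩ := h w hw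
  exact ⟨_, mul_mem ha hd, _, mul_mem hb hc, mul_ne_zero h5 (by simpa [h6] using h0),
    div_div_div_eq _ _ _ _⟩

theorem zz_ne (h0 : ∀ j, ℓ j ≠ 0) (α : Fin n → ℤ) : zz C.mu ℓ α ≠ 0 :=
  Finset.prod_ne_zero_iff.2 fun j _ => pow_ne_zero _ (C.lin_ne (h0 j))

theorem zz_mem (α : Fin n → ℤ) : zz C.mu ℓ α ∈ Algebra.adjoin ℂ (Set.range C.mu) :=
  prod_mem fun _ _ => pow_mem (lin_mem_adjoin _ _) _

theorem mu_hyp (i : Fin n) : C.mu i ∈ hyp C.mu C.t ℓ :=
  Algebra.subset_adjoin (Or.inl (Set.mem_range_self i))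

theorem frac_hyp (h0 : ∀ j, ℓ j ≠ 0) (y : K) :
    ∃ a ∈ hyp C.mu C.t ℓ, ∃ b ∈ hyp C.mu C.t ℓ, b ≠ 0 ∧ y = a / b :=
  C.frac _ C.mu_hyp (fun i => ⟨_, rr_mem (Pi.single i 1), _, adjoin_le_hyp (C.zz_mem _),
    C.zz_ne h0 (Pi.single i 1), by
      rw [rr, tpow_single, mul_div_cancel_right₀ _ (C.zz_ne h0 _)]⟩) y

/-- Laurent polynomial rings are normal -/
theorem laurent {z : K} (hz : z ∈ Algebra.adjoin ℂ (Set.range C.mu)) (h0 : z ≠ 0) (l : Fin n → ℤ)
    (h : ∀ α, ∃ a ∈ Algebra.adjoin ℂ (Set.range C.mu),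
      rr C.mu C.t ℓ α = a * (tpow C.t α * z ^ dot l α)) {y : K}
    (hy : IsIntegral (hyp C.mu C.t ℓ) y) : ∃ f : (Fin n → ℤ) →₀ K,
      (∀ α, ∃ a ∈ Algebra.adjoin ℂ (Set.range C.mu), f α = a * (tpow C.t α * z ^ dot l α)) ∧
        f.sum (fun _ x => x) = y := by
  let t : Fin n → K := fun i => C.t i * z ^ l i
  have ht : ∀ i, t i ≠ 0 := fun i => mul_ne_zero (C.t_ne i) (zpow_ne_zero _ h0)
  have e : ∀ α, tpow t α = tpow C.t α * z ^ dot l α := fun α => by
    simp only [tpow, t, mul_zpow, Finset.prod_mul_distrib, ← zpow_mul, dot]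
    congr 1
    exact prod_zpow_sum h0 _ _
  let T := Algebra.adjoin ℂ (Set.range (Sum.elim C.mu t))
  have hT1 : ∀ i, C.mu i ∈ T := fun i => Algebra.subset_adjoin ⟨.inl i, rfl⟩
  have hT2 : ∀ i, t i ∈ T := fun i => Algebra.subset_adjoin ⟨.inr i, rfl⟩
  have hA : Algebra.adjoin ℂ (Set.range C.mu) ≤ T :=
    Algebra.adjoin_le (by rintro _ ⟨i, rfl⟩; exact hT1 i)
  have hg : ∏ i, t i ∈ T := prod_mem fun i _ => hT2 i
  have hg0 : ∏ i, t i ≠ 0 := Finset.prod_ne_zero_iff.2 fun i _ => ht i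
  have hle : T ≤ awayAlg T hg := fun r hr => ⟨0, by simpa using hr⟩
  obtain ⟨k, hk⟩ := away_normal (fun y => poly_normal (algInd2 C.P C.ξ ht C.P_mu C.ξ_mu fun i =>
    eig_mul_zero (C.t_mem i) (by simpa using eig_zpow (C.adj_mem hz) (l i))) (C.frac T hT1
      fun i => ⟨t i * z ^ (-l i).toNat, mul_mem (hT2 i) (pow_mem (hA hz) _), z ^ (l i).toNat,
        pow_mem (hA hz) _, pow_ne_zero _ h0, by
          rw [eq_div_iff (pow_ne_zero _ h0), mul_assoc, ← zpow_natCast, ← zpow_natCast,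
            ← zpow_add₀ h0]
          congr 2
          omega⟩)) hg hg0 (Algebra.adjoin_le (by
    rintro _ (⟨i, rfl⟩ | ⟨α, rfl⟩)
    · exact hle (hT1 i)
    · obtain ⟨a, ha, e'⟩ := h α
      rw [e', ← e]
      refine mul_mem (hle (hA ha)) (prod_mem fun i _ => ?_)
      obtain ⟨m, e2 | e2⟩ := Int.eq_nat_or_neg (α i)
      · rw [e2, zpow_natCast]; exact pow_mem (hle (hT2 i)) _
      · rw [e2, zpow_neg, zpow_natCast, ← inv_pow]
        refine pow_mem (show _ ∈ awayAlg T hg from ⟨1, ?_⟩) _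
        rw [pow_one, ← Finset.prod_erase_mul _ _ (Finset.mem_univ i), mul_inv_cancel_right₀ (ht i)]
        exact prod_mem fun i _ => hT2 i)) hy
  have e2 : (fun α => tpow C.t α * z ^ dot l α) = rr C.mu t (Fin.elim0 : Fin 0 → Fin n → ℤ) := by
    ext α
    simp [rr, zz, e]
  have h3 : y ∈ hyp C.mu t (Fin.elim0 : Fin 0 → Fin n → ℤ) := by
    have h4 : ∀ α, tpow t α ∈ hyp C.mu t (Fin.elim0 : Fin 0 → Fin n → ℤ) := fun α => by
      simpa [rr, zz] using rr_mem (μ := C.mu) (t := t) (ℓ := (Fin.elim0 : Fin 0 → Fin n → ℤ)) α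
    have h5 : T ≤ hyp C.mu t (Fin.elim0 : Fin 0 → Fin n → ℤ) := Algebra.adjoin_le (by
      rintro _ ⟨i | i, rfl⟩
      · exact Algebra.subset_adjoin (Or.inl (Set.mem_range_self i))
      · simpa [tpow_single] using h4 (Pi.single i 1))
    have h6 := mul_mem (pow_mem (h4 fun _ => -1) k) (h5 hk)
    rwa [tpow, ← mul_assoc, ← mul_pow, ← Finset.prod_mul_distrib, Finset.prod_eq_one
      fun i _ => by simp [ht i], one_pow, one_mul] at h6
  have := span_dec _ _ (hyp_span ht h3)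
  rwa [← e2] at this

theorem normal (h0 : ∀ j, ℓ j ≠ 0)
    (h1 : ∀ j k, (∀ a b, ℓ j a * ℓ k b = ℓ j b * ℓ k a) → j = k) {y : K}
    (hy : IsIntegral (hyp C.mu C.t ℓ) y) : y ∈ hyp C.mu C.t ℓ := by
  classical
  obtain ⟨f, hf, e⟩ := C.laurent (one_mem _) one_ne_zero 0
    (fun α => ⟨_, C.zz_mem (ℓ := ℓ) α, by simp [rr, mul_comm]⟩) hy
  rw [← e]
  refine sum_mem fun α _ => ?_
  obtain ⟨a, ha, e1⟩ := hf α
  obtain ⟨b, hb, e2⟩ := dvd_lin (MP_51db15_ag.algInd C.mu C.P C.P_mu) h0 h1 (fun j => (dot (ℓ j) α).toNat) ha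
    fun j => by
      have hz := C.lin_ne (h0 j)
      obtain ⟨g, hg, e'⟩ := C.laurent (lin_mem_adjoin _ (ℓ j)) hz (ℓ j) (fun β =>
        ⟨lin C.mu (ℓ j) ^ (-dot (ℓ j) β).toNat *
          ∏ k ∈ Finset.univ.erase j, lin C.mu (ℓ k) ^ (dot (ℓ k) β).toNat,
          mul_mem (pow_mem (lin_mem_adjoin _ _) _)
            (prod_mem fun k _ => pow_mem (lin_mem_adjoin _ _) _), by
          rw [rr, zz, ← Finset.mul_prod_erase _ _ (Finset.mem_univ j), ← zpow_natCast _ (Int.toNat _),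
            ← zpow_natCast _ (Int.toNat (-_)),
            show ((dot (ℓ j) β).toNat : ℤ) = (-dot (ℓ j) β).toNat + dot (ℓ j) β by omega,
            zpow_add₀ hz]
          ring⟩) hy
      have h2 := comp (ξ := C.ξ) ⊥ (by simp) (f - g) (fun β => by
        obtain ⟨a, ha, h3⟩ := hf β
        obtain ⟨b, hb, h4⟩ := hg β
        rw [Finsupp.sub_apply, h3, h4]
        exact sub_mem (eig_zero_mul (C.adj_mem ha) (by simpa using eig_tpow C.t_mem β))
          (eig_zero_mul (C.adj_mem hb) (eig_mul_zero (eig_tpow C.t_mem β)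
            (by simpa using eig_zpow (C.adj_mem (lin_mem_adjoin _ (ℓ j))) (dot (ℓ j) β)))))
        (by rw [Finsupp.sum_sub_index fun _ _ _ => rfl, e, e', sub_self]; exact zero_mem _) α
      obtain ⟨b, hb, h4⟩ := hg α
      rw [Submodule.mem_bot, Finsupp.sub_apply, sub_eq_zero, e1, h4, one_zpow, mul_one,
        mul_comm (tpow _ _), ← mul_assoc] at h2
      have h5 := mul_right_cancel₀ (tpow_ne C.t_ne α) h2
      rcases le_total 0 (dot (ℓ j) α) with h6 | h6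
      · exact ⟨b, hb, by rw [h5, ← zpow_natCast, Int.toNat_of_nonneg h6]⟩
      · exact ⟨a, ha, by rw [Int.toNat_eq_zero.2 h6, pow_zero, mul_one]⟩
  rw [e1, e2, one_zpow, mul_one, mul_assoc, mul_comm _ (tpow _ _)]
  exact mul_mem (adjoin_le_hyp hb) (rr_mem α)

end Coord

end Pool.Agent.MP_51db15_ag

end MrgPart3

-- marker of a merged file
example : 731051 + 561362 = 731051 + 561362 := rfl
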