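import Mathlib.LinearAlgebra.Eigenspace.Basic
import Mathlib.RingTheory.Smooth.Field
import Mathlib.RingTheory.Ideal.HasGoingUp
import Mathlib.RingTheory.KrullDimension.Polynomial
import Mathlib.RingTheory.NoetherNormalization
import Pool.Agent.MP_51db15_ag.Normal

-- ======== part 0: formerly Pool.Agent.MP_51db15_ag.Reg
section MrgPart0

/-! The standard form is regular along every valuation centred on the hypertoric variety, and
the hypertoric algebra is closed under the bracket. -/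

set_option linter.unusedSectionVars false

namespace Pool.Agent.MP_51db15_ag

variable {K : Type} [Field K] [Algebra ℂ K] {n N : ℕ}

theorem span_rat {J : Type} [Fintype J] (ℓ : J → Fin n → ℤ) (l : Fin n → ℤ)
    (h : ∀ α, (∀ j, dot (ℓ j) α = 0) → dot l α = 0) :
    ∃ q : J → ℚ, ∀ i, (l i : ℚ) = ∑ j, q j * ℓ j i := by
  let F : (Fin n → ℤ) → (Fin n → ℚ) →ₗ[ℚ] ℚ := fun a => Fintype.linearCombination ℚ fun i => (a i : ℚ)
  have hF : ∀ a x, F a x = ∑ i, x i * a i := fun a x => by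
    simp [F, Fintype.linearCombination_apply]
  have := mem_span_of_iInf_ker_le_ker (L := fun j => F (ℓ j)) (K := F l) fun x hx => by
    obtain ⟨b, hb⟩ := IsLocalization.exist_integer_multiples_of_finite (nonZeroDivisors ℤ) x
    choose α hα using hb
    have h1 : ∀ a, (dot a α : ℚ) = (b : ℤ) * F a x := fun a => by
      simp only [dot, hF, Finset.mul_sum]
      push_cast
      refine Finset.sum_congr rfl fun i _ => ?_
      have : (α i : ℚ) = (b : ℤ) * x i := by simpa using hα i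
      rw [this]; ring
    have h2 := h α fun j => by
      have h3 : F (ℓ j) x = 0 := (Submodule.mem_iInf _).1 hx j
      have := h1 (ℓ j)
      rw [h3, mul_zero] at this
      exact_mod_cast this
    have h4 := h1 l
    rw [h2, Int.cast_zero, eq_comm, mul_eq_zero] at h4
    exact h4.resolve_left (by exact_mod_cast nonZeroDivisors.ne_zero b.2)
  obtain ⟨q, hq⟩ := (Submodule.mem_span_range_iff_exists_fun ℚ).1 this
  refine ⟨q, fun i => ?_⟩
  have := congr($hq (Pi.single i 1))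
  simpa [hF, Pi.single_apply, LinearMap.sum_apply] using this.symm

theorem IsDiv.der {R : Set K} {v : DV K} (hv : IsDiv R v) (X : Derivation ℂ K K)
    (h : ∀ r ∈ R, v.Ge 0 (X r)) (a : K) (ha : v.Ge 0 a) : v.Ge 0 (X a) := by
  obtain ⟨b, hb, s, hs, hs0, hs1, rfl⟩ := hv.2 a ha
  rw [Derivation.leibniz_div]
  exact DV.Ge.mul_left (DV.Ge.pow (Or.inr (by rw [v.ord_inv hs0, hs1]; rfl)) 2)
    (((hv.1 s hs).mul_left (h b hb)).sub ((hv.1 b hb).mul_left (h s hs)))

namespace Coord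

variable (C : Coord K n) {ℓ : Fin N → Fin n → ℤ}

theorem lin_ord (h0 : ∀ j, ℓ j ≠ 0) {v : DV K} (hv : ∀ y ∈ hyp C.mu C.t ℓ, v.Ge 0 y) :
    v.Ge 1 (lin C.mu fun i => v.ord (C.t i)) := by
  classical
  have hc : v.Const := fun c => hv _ (Subalgebra.algebraMap_mem _ c)
  have h1 : ∀ α, (∀ j : {j // v.Ge 1 (lin C.mu (ℓ j))}, dot (ℓ j) α = 0) →
      0 ≤ dot (fun i => v.ord (C.t i)) α := fun α h => by
    have h2 := (hv _ (rr_mem α)).le (mul_ne_zero (tpow_ne C.t_ne α) (C.zz_ne h0 α))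
    rw [rr, v.ord_mul _ _ (tpow_ne C.t_ne α) (C.zz_ne h0 α), ord_tpow v C.t_ne, zz,
      v.ord_prod _ _ fun j _ => pow_ne_zero _ (C.lin_ne (h0 j)), Finset.sum_eq_zero
        (f := fun j => v.ord (lin C.mu (ℓ j) ^ (dot (ℓ j) α).toNat)), add_zero] at h2
    · exact h2
    intro j _
    rw [v.ord_pow (C.lin_ne (h0 j))]
    by_cases h3 : v.Ge 1 (lin C.mu (ℓ j))
    · simp [h ⟨j, h3⟩]
    · rw [(DV.unit_of_not_ge (hv _ (adjoin_le_hyp (lin_mem_adjoin _ _))) h3).2, mul_zero]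
  obtain ⟨q, hq⟩ := span_rat (fun j : {j // v.Ge 1 (lin C.mu (ℓ j))} => ℓ j)
    (fun i => v.ord (C.t i)) fun α h => by
      have h2 := h1 α h
      have h3 := h1 (-α) fun j => by rw [dot_neg, h j, neg_zero]
      rw [dot_neg] at h3
      omega
  have e : lin C.mu (fun i => v.ord (C.t i)) =
      ∑ j : {j // v.Ge 1 (lin C.mu (ℓ j))}, (q j : ℂ) • lin C.mu (ℓ j) := by
    simp only [lin, Finset.smul_sum]
    rw [Finset.sum_comm]
    refine Finset.sum_congr rfl fun i _ => ?_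
    have h2 : ((v.ord (C.t i) : ℤ) : ℂ) = ∑ j, (q j : ℂ) * ℓ j i := by exact_mod_cast hq i
    rw [← map_intCast (algebraMap ℂ K), h2, map_sum, Finset.sum_mul]
    exact Finset.sum_congr rfl fun j _ => by simp [Algebra.smul_def, mul_assoc]
  rw [e]
  exact DV.Ge.sum fun j _ => hc.smul _ j.2

theorem ω_ge (h0 : ∀ j, ℓ j ≠ 0) {v : DV K} (hv : ∀ y ∈ hyp C.mu C.t ℓ, v.Ge 0 y)
    {X Y : Derivation ℂ K K} (hX : ∀ a, v.Ge 0 a → v.Ge 0 (X a))
    (hY : ∀ a, v.Ge 0 a → v.Ge 0 (Y a)) : v.Ge 0 (C.ω X Y) := by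
  obtain ⟨π, hπ, h1⟩ := v.unif
  have hl := C.lin_ord h0 hv
  set z := lin C.mu fun i => v.ord (C.t i) with hz
  have hd : ∀ X : Derivation ℂ K K, X z = ∑ i, (v.ord (C.t i) : K) * X (C.mu i) := fun X => by
    simp [hz, lin, map_sum]
  have e : C.ω X Y = ∑ i, ((X (C.t i) / C.t i - (v.ord (C.t i) : K) * (X π / π)) * Y (C.mu i) -
      X (C.mu i) * (Y (C.t i) / C.t i - (v.ord (C.t i) : K) * (Y π / π))) +
        (X π / π * Y z - X z * (Y π / π)) := by
    rw [ω_apply, hd, hd, Finset.mul_sum, Finset.sum_mul, ← Finset.sum_sub_distrib,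
      ← Finset.sum_add_distrib]
    exact Finset.sum_congr rfl fun i _ => by ring
  rw [e]
  refine (DV.Ge.sum fun i _ => ?_).add ?_
  · exact ((DV.log_eq X hX hπ h1 (C.t_ne i)).mul_left (hY _ (hv _ (C.mu_hyp i)))).sub
      ((hX _ (hv _ (C.mu_hyp i))).mul_left (DV.log_eq Y hY hπ h1 (C.t_ne i)))
  by_cases hz0 : z = 0
  · simp [hz0, DV.ge_zero]
  have := hl.mul' (m := 0) (((DV.log_ge X hX hπ).mul_right (DV.log_eq Y hY hπ h1 hz0)).sub
    ((DV.log_eq X hX hπ h1 hz0).mul_left (DV.log_ge Y hY hπ))) (by omega)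
  convert this using 1
  field_simp
  ring

theorem regular_of (h0 : ∀ j, ℓ j ≠ 0) (O : Subring K) [IsNoetherianRing O]
    (hn : ∀ y : K, IsIntegral O y → y ∈ O) (hS : ∀ y ∈ hyp C.mu C.t ℓ, y ∈ O) (M : Submonoid K)
    (hM : ∀ s ∈ M, s ∈ O) {X Y : Derivation ℂ K K} (hX : ∀ a ∈ O, ∃ s ∈ M, s * X a ∈ O)
    (hY : ∀ a ∈ O, ∃ s ∈ M, s * Y a ∈ O) : ∃ s ∈ M, s * C.ω X Y ∈ O := by
  by_contra hc
  push Not at hc
  obtain ⟨a, ha, b, hb, hb0, e⟩ := C.frac_hyp h0 (C.ω X Y)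
  obtain ⟨v, hv, h1, -, h2⟩ := krull O hn (fun y => by
    obtain ⟨a, ha, b, hb, h⟩ := C.frac_hyp h0 y
    exact ⟨a, hS a ha, b, hS b hb, h⟩) M hM (hS b hb) hb0
    (by rw [e, mul_div_cancel₀ _ hb0]; exact hS a ha) hc
  have h3 : ∀ X : Derivation ℂ K K, (∀ a ∈ O, ∃ s ∈ M, s * X a ∈ O) →
      ∀ a, v.Ge 0 a → v.Ge 0 (X a) := fun X hX => hv.der X fun r hr => by
    obtain ⟨s, hs, h4⟩ := hX r hr
    obtain ⟨h5, h6⟩ := DV.unit_of_not_ge (hv.1 s (hM s hs)) (h1 s hs)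
    have := (hv.1 _ h4).div_unit h5 h6
    rwa [mul_div_cancel_left₀ _ h5] at this
  exact h2 (C.ω_ge h0 (fun y hy => hv.1 y (hS y hy)) (h3 X hX) (h3 Y hY))

theorem rr_deg (α : Fin n → ℤ) : rr C.mu C.t ℓ α ∈ eig C.ξ α :=
  eig_mul_zero (eig_tpow C.t_mem α) (C.adj_mem (C.zz_mem α))

theorem P_rr (h0 : ∀ j, ℓ j ≠ 0) (i : Fin n) (α : Fin n → ℤ) : C.P i (rr C.mu C.t ℓ α) =
    rr C.mu C.t ℓ α * ∑ j, ((dot (ℓ j) α).toNat : K) * (ℓ j i / lin C.mu (ℓ j)) := by
  have h1 : C.P i (tpow C.t α) = 0 := by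
    have := eig_prod (ξ := fun _ : Fin 1 => C.P i) Finset.univ fun k _ =>
      eig_zpow (eig_zero_iff.2 fun _ => C.P_t i k) (α k)
    simpa [tpow] using this 0
  have h2 : ∀ s : Finset (Fin N), C.P i (∏ j ∈ s, lin C.mu (ℓ j) ^ (dot (ℓ j) α).toNat) =
      (∏ j ∈ s, lin C.mu (ℓ j) ^ (dot (ℓ j) α).toNat) *
        ∑ j ∈ s, ((dot (ℓ j) α).toNat : K) * (ℓ j i / lin C.mu (ℓ j)) := fun s => by
    induction s using Finset.induction_on with
    | empty => simp
    | insert a s ha ih =>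
      have h3 := DV.log_zpow (C.P i) (C.lin_ne (h0 a)) (dot (ℓ a) α).toNat
      rw [zpow_natCast, div_eq_iff (pow_ne_zero _ (C.lin_ne (h0 a))), C.P_lin] at h3
      rw [Finset.prod_insert ha, Finset.sum_insert ha, Derivation.leibniz, ih, h3]
      simp only [smul_eq_mul, Int.cast_natCast]
      ring
  rw [rr, Derivation.leibniz, h1, zz, h2, smul_zero, add_zero, smul_eq_mul, mul_assoc]

theorem ham_rr (h0 : ∀ j, ℓ j ≠ 0) (α β : Fin n → ℤ) :
    C.ham (rr C.mu C.t ℓ α) (rr C.mu C.t ℓ β) ∈ hyp C.mu C.t ℓ := by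
  classical
  have e : C.ham (rr C.mu C.t ℓ α) (rr C.mu C.t ℓ β) =
      ∑ j, (((dot (ℓ j) α).toNat * dot (ℓ j) β - (dot (ℓ j) β).toNat * dot (ℓ j) α : ℤ) : K) *
        (rr C.mu C.t ℓ α * rr C.mu C.t ℓ β / lin C.mu (ℓ j)) := by
    simp only [ham_apply, C.P_rr h0, C.rr_deg α _, C.rr_deg β _, Finset.mul_sum, Finset.sum_mul,
      ← Finset.sum_sub_distrib, Algebra.smul_def, map_intCast]
    rw [Finset.sum_comm]
    refine Finset.sum_congr rfl fun j _ => ?_
    generalize (dot (ℓ j) α).toNat = a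
    generalize (dot (ℓ j) β).toNat = b
    simp only [dot, Finset.mul_sum, ← Finset.sum_sub_distrib, Int.cast_sum, Finset.sum_mul]
    exact Finset.sum_congr rfl fun i _ => by push_cast; ring
  rw [e]
  refine sum_mem fun j _ => ?_
  by_cases h : (dot (ℓ j) α).toNat * dot (ℓ j) β - (dot (ℓ j) β).toNat * dot (ℓ j) α = 0
  · rw [h]; simp
  refine mul_mem (intCast_mem _ _) ?_
  have h1 : 1 ≤ (dot (ℓ j) α).toNat + (dot (ℓ j) β).toNat ∧
      dot (ℓ j) α + dot (ℓ j) β + 1 ≤ (dot (ℓ j) α).toNat + (dot (ℓ j) β).toNat := by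
    by_contra hc
    rcases (by omega : dot (ℓ j) α ≤ 0 ∧ dot (ℓ j) β ≤ 0 ∨ 0 ≤ dot (ℓ j) α ∧ 0 ≤ dot (ℓ j) β) with
      ⟨h1, h2⟩ | ⟨h1, h2⟩
    · exact h (by simp [Int.toNat_eq_zero.2 h1, Int.toNat_eq_zero.2 h2])
    · exact h (by rw [Int.toNat_of_nonneg h1, Int.toNat_of_nonneg h2]; ring)
  have h2 := tpow_mul_prod_mem (μ := C.mu) (t := C.t) (ℓ := ℓ) (α + β)
    (fun k => (dot (ℓ k) α).toNat + (dot (ℓ k) β).toNat - if k = j then 1 else 0) fun k => by
      rw [dot_add]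
      split_ifs with h3
      · subst h3; omega
      · omega
  convert h2 using 1
  rw [rr_mul C.t_ne, div_eq_iff (C.lin_ne (h0 j)), mul_assoc,
    ← Finset.mul_prod_erase _ _ (Finset.mem_univ j), ← Finset.mul_prod_erase _ _ (Finset.mem_univ j),
    if_pos rfl, mul_right_comm (_ ^ _), ← pow_succ, Nat.sub_add_cancel h1.1]
  congr 2
  exact Finset.prod_congr rfl fun k hk => by rw [if_neg (Finset.ne_of_mem_erase hk), Nat.sub_zero]

theorem ham_mem (h0 : ∀ j, ℓ j ≠ 0) {f g : K} (hf : f ∈ hyp C.mu C.t ℓ) (hg : g ∈ hyp C.mu C.t ℓ) :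
    C.ham f g ∈ hyp C.mu C.t ℓ := by
  have h1 : ∀ i, ∀ f ∈ hyp C.mu C.t ℓ, C.ξ i f ∈ hyp C.mu C.t ℓ := fun i f hf =>
    der_adjoin _ Algebra.subset_adjoin (by
      rintro _ (⟨j, rfl⟩ | ⟨α, rfl⟩)
      · rw [C.ξ_mu]; exact zero_mem _
      · rw [C.rr_deg α i]; exact Subalgebra.smul_mem _ (rr_mem α) _) hf
  refine der_adjoin _ Algebra.subset_adjoin ?_ hg
  rintro _ (⟨j, rfl⟩ | ⟨β, rfl⟩)
  · rw [C.ham_mu]; exact neg_mem (h1 j f hf)
  rw [C.ham_skew]
  refine neg_mem (der_adjoin _ Algebra.subset_adjoin ?_ hf)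
  rintro _ (⟨j, rfl⟩ | ⟨α, rfl⟩)
  · rw [C.ham_mu]; exact neg_mem (h1 j _ (rr_mem β))
  · exact C.ham_rr h0 β α

end Coord

end Pool.Agent.MP_51db15_ag

end MrgPart0

-- ======== part 1: formerly Pool.Agent.MP_51db15_ag.Model
section MrgPart1

/-! The hypertoric variety is a conical symplectic variety. -/

set_option linter.unusedSectionVars false

namespace Pool.Agent.MP_51db15_ag

variable {K : Type} [Field K] [Algebra ℂ K] {n N : ℕ}

theorem stalk_der {R : Type} [CommRing R] [IsDomain R] [Algebra R K] [IsFractionRing R K]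
    (p : Ideal R) [hp : p.IsPrime] (X : Derivation ℂ K K)
    (h : ∀ r : R, X (algebraMap R K r) ∈ stalk (K := K) R p) (y : K) (hy : y ∈ stalk R p) :
    X y ∈ stalk R p := by
  obtain ⟨a, s, hs, rfl⟩ := hy
  obtain ⟨b, u, hu, e1⟩ := h a
  obtain ⟨c, w, hw, e2⟩ := h s
  have h0 : ∀ s ∉ p, algebraMap R K s ≠ 0 := fun s hs => by
    simpa using fun h : s = 0 => hs (h ▸ p.zero_mem)
  refine ⟨s * b * w - a * c * u, s * s * (u * w), fun h => ?_, ?_⟩
  · rcases hp.mem_or_mem h with h | h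
    exacts [(hp.mem_or_mem h).elim hs hs, (hp.mem_or_mem h).elim hu hw]
  · have := h0 s hs
    have := h0 u hu
    have := h0 w hw
    rw [Derivation.leibniz_div, e1, e2]
    simp only [smul_eq_mul, map_sub, map_mul]
    field_simp

namespace Coord

variable (C : Coord K n) {ℓ : Fin N → Fin n → ℤ}

theorem symplectic (h0 : ∀ j, ℓ j ≠ 0)
    (h1 : ∀ j k, (∀ a b, ℓ j a * ℓ k b = ℓ j b * ℓ k a) → j = k) :
    SymplecticOnReg (hyp C.mu C.t ℓ) C.ω := by
  have : IsFractionRing (hyp C.mu C.t ℓ) K := IsFractionRing.of_field _ K fun y => by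
    obtain ⟨a, ha, b, hb, -, e⟩ := C.frac_hyp h0 y
    exact ⟨⟨a, ha⟩, ⟨b, hb⟩, e⟩
  have := (Subalgebra.fg_iff_finiteType _).1 (hyp_fg (μ := C.mu) (ℓ := ℓ) C.t_ne)
  have hN : IsNoetherianRing (hyp C.mu C.t ℓ) := Algebra.FiniteType.isNoetherianRing ℂ _
  refine ⟨C.closed, fun p hp _ => ⟨fun X Y hX hY => ?_, fun f hf => ⟨C.ham f, ?_, C.ω_ham f⟩⟩⟩
  · have h2 : ∀ s ∉ p, (s : K) ≠ 0 := fun s hs h => hs (by
      rw [show s = 0 from Subtype.ext h]; exact p.zero_mem)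
    have h3 : ∀ X : Derivation ℂ K K, (∀ a ∈ stalk (hyp C.mu C.t ℓ) p, X a ∈ stalk _ p) →
        ∀ a ∈ hyp C.mu C.t ℓ, ∃ s ∈ p.primeCompl.map (hyp C.mu C.t ℓ).val.toMonoidHom,
          s * X a ∈ hyp C.mu C.t ℓ := fun X hX a ha => by
      obtain ⟨b, s, hs, e⟩ := hX a ⟨⟨a, ha⟩, 1, (Ideal.ne_top_iff_one p).1 hp.ne_top, by simp⟩
      refine ⟨s, ⟨s, hs, rfl⟩, ?_⟩
      rw [e]
      exact (mul_div_cancel₀ (b : K) (h2 s hs)).symm ▸ b.2
    obtain ⟨_, ⟨s, hs, rfl⟩, h⟩ := @regular_of _ _ _ _ _ C ℓ h0 (hyp C.mu C.t ℓ).toSubring hN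
      (fun y => C.normal h0 h1) (fun _ h => h) (p.primeCompl.map (hyp C.mu C.t ℓ).val.toMonoidHom)
      (by rintro _ ⟨s, -, rfl⟩; exact s.2) _ _ (h3 X hX) (h3 Y hY)
    exact ⟨⟨_, h⟩, s, hs, (mul_div_cancel_left₀ _ (h2 s hs)).symm⟩
  · refine stalk_der p _ fun r => ?_
    obtain ⟨a, s, hs, e⟩ := stalk_der p (C.ham (algebraMap _ K r)) (fun g =>
      ⟨⟨_, C.ham_mem h0 r.2 g.2⟩, 1, (Ideal.ne_top_iff_one p).1 hp.ne_top, by simp⟩) f hf
    exact ⟨-a, s, hs, by rw [C.ham_skew, e, map_neg, neg_div]⟩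

theorem extend (h0 : ∀ j, ℓ j ≠ 0) (O : Subring K) (h : (hyp C.mu C.t ℓ).toSubring ≤ O)
    (_ : IsNoetherianRing O) (_ : IsIntegrallyClosed O) : RegularOn C.ω O := by
  intro X Y hX hY
  have : IsFractionRing O K := IsFractionRing.of_field _ K fun y => by
    obtain ⟨a, ha, b, hb, -, e⟩ := C.frac_hyp h0 y
    exact ⟨⟨a, h ha⟩, ⟨b, h hb⟩, e⟩
  obtain ⟨s, hs, h1⟩ := C.regular_of h0 O (fun y hy => by
    obtain ⟨a, rfl⟩ := IsIntegrallyClosed.isIntegral_iff.1 hy
    exact a.2) (fun _ h' => h h') ⊥ (fun s hs => Submonoid.mem_bot.1 hs ▸ one_mem O)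
    (fun a ha => ⟨1, one_mem _, by simpa using hX a ha⟩)
    (fun a ha => ⟨1, one_mem _, by simpa using hY a ha⟩)
  rwa [Submonoid.mem_bot.1 hs, one_mul] at h1

/-- the Euler vector field -/
noncomputable def euler (ℓ : Fin N → Fin n → ℤ) : Derivation ℂ K K :=
  ∑ i, ((2 * C.mu i) • C.P i - (∑ j, (ℓ j i : K)) • C.ξ i)

theorem euler_mu (i : Fin n) : C.euler ℓ (C.mu i) = ((2 : ℕ) : ℂ) • C.mu i := by
  simp [euler, der_sum, C.P_mu, C.ξ_mu, two_smul, two_mul]

theorem euler_rr (h0 : ∀ j, ℓ j ≠ 0) (α : Fin n → ℤ) : C.euler ℓ (rr C.mu C.t ℓ α) =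
    ((∑ j, (dot (ℓ j) α).natAbs : ℕ) : ℂ) • rr C.mu C.t ℓ α := by
  simp only [euler, der_sum, Derivation.sub_apply, Derivation.smul_apply, C.P_rr h0,
    C.rr_deg α _, smul_eq_mul, Algebra.smul_def, map_intCast, map_natCast, Finset.mul_sum,
    Finset.sum_mul, ← Finset.sum_sub_distrib, Nat.cast_sum, map_sum]
  rw [Finset.sum_comm]
  refine Finset.sum_congr rfl fun j _ => ?_
  have e : ((dot (ℓ j) α).natAbs : K) = 2 * (dot (ℓ j) α).toNat * (lin C.mu (ℓ j) / lin C.mu (ℓ j)) -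
      (dot (ℓ j) α : ℤ) := by
    rw [div_self (C.lin_ne (h0 j)), mul_one]
    rw [← Int.cast_natCast, (by omega : ((dot (ℓ j) α).natAbs : ℤ) =
      2 * (dot (ℓ j) α).toNat - dot (ℓ j) α), Int.cast_sub, Int.cast_mul, Int.cast_natCast,
      Int.cast_ofNat]
  rw [e]
  generalize (dot (ℓ j) α).toNat = a
  nth_rewrite 2 [lin]
  simp only [dot, Int.cast_sum, Finset.sum_div, Finset.mul_sum, Finset.sum_mul,
    ← Finset.sum_sub_distrib]
  exact Finset.sum_congr rfl fun i _ => by push_cast; ring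

theorem conical (h0 : ∀ j, ℓ j ≠ 0)
    (h1 : ∀ j k, (∀ a b, ℓ j a * ℓ k b = ℓ j b * ℓ k a) → j = k)
    (h2 : ∀ α, (∀ j, dot (ℓ j) α = 0) → α = 0) : ∃ 𝒢 : ℕ → Submodule ℂ (hyp C.mu C.t ℓ),
      IsConicalSymplectic (hyp C.mu C.t ℓ) C.ω 𝒢 ∧ ∀ I : Ideal (hyp C.mu C.t ℓ),
        (∀ i, ⟨_, C.mu_hyp i⟩ ∈ I) → (∀ α ≠ 0, ⟨_, rr_mem α⟩ ∈ I) → ∀ d ≠ 0, ∀ f ∈ 𝒢 d, f ∈ I := by
  have hE : ∀ y ∈ hyp C.mu C.t ℓ, C.euler ℓ y ∈ hyp C.mu C.t ℓ := fun y hy =>
    der_adjoin _ Algebra.subset_adjoin (by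
      rintro _ (⟨j, rfl⟩ | ⟨α, rfl⟩)
      · rw [C.euler_mu]; exact Subalgebra.smul_mem _ (C.mu_hyp j) _
      · rw [C.euler_rr h0]; exact Subalgebra.smul_mem _ (rr_mem α) _) hy
  let E : Module.End ℂ (hyp C.mu C.t ℓ) := (C.euler ℓ).toLinearMap.restrict
    (p := Subalgebra.toSubmodule (hyp C.mu C.t ℓ))
    (q := Subalgebra.toSubmodule (hyp C.mu C.t ℓ)) hE
  let 𝒢 : ℕ → Submodule ℂ (hyp C.mu C.t ℓ) := fun d => E.eigenspace d
  have hG : ∀ d f, f ∈ 𝒢 d ↔ C.euler ℓ f = (d : ℂ) • (f : K) := fun d f =>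
    Module.End.mem_eigenspace_iff.trans Subtype.ext_iff
  have hind : iSupIndep 𝒢 := E.eigenspaces_iSupIndep.comp Nat.cast_injective
  have hone : 1 ∈ 𝒢 0 := (hG _ _).2 (by simp)
  have hmul : ∀ {d e : ℕ} {f g}, f ∈ 𝒢 d → g ∈ 𝒢 e → f * g ∈ 𝒢 (d + e) := fun {d e f g} hf hg => by
    rw [hG] at *
    rw [Subalgebra.coe_mul, Derivation.leibniz, hf, hg]
    simp only [smul_eq_mul, Algebra.smul_def, Nat.cast_add, map_add]
    ring
  have key : ∀ I : Ideal (hyp C.mu C.t ℓ), (∀ i, ⟨_, C.mu_hyp i⟩ ∈ I) →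
      (∀ α ≠ 0, ⟨_, rr_mem α⟩ ∈ I) → ⨆ d, 𝒢 d ⊓ (if d = 0 then 1 else I.restrictScalars ℂ) = ⊤ := by
    intro I h3 h4
    set T := ⨆ d, 𝒢 d ⊓ (if d = 0 then 1 else I.restrictScalars ℂ) with hT
    have h5 : ∀ c : ℂ, algebraMap ℂ _ c ∈ T := fun c => Submodule.mem_iSup_of_mem 0
      ⟨by rw [Algebra.algebraMap_eq_smul_one]; exact Submodule.smul_mem _ _ hone,
        by simp⟩
    have h6 : T * T ≤ T := by
      rw [hT, Submodule.iSup_mul]
      refine iSup_le fun d => ?_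
      rw [Submodule.mul_iSup]
      refine iSup_le fun e => le_iSup_of_le (d + e) (Submodule.mul_le.2 fun f hf g hg =>
        ⟨hmul hf.1 hg.1, ?_⟩)
      have h7 := hf.2
      have h8 := hg.2
      by_cases hd : d = 0
      · subst hd
        obtain ⟨c, rfl⟩ := Submodule.mem_one.1 (by simpa using h7)
        rw [← Algebra.smul_def, zero_add]
        exact Submodule.smul_mem _ _ h8
      · rw [if_neg hd] at h7
        rw [if_neg (by omega)]
        exact I.mul_mem_right _ h7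
    refine eq_top_iff.2 fun ⟨y, hy⟩ _ => ?_
    induction hy using Algebra.adjoin_induction with
    | mem _ h =>
      rcases h with ⟨i, rfl⟩ | ⟨α, rfl⟩
      · exact Submodule.mem_iSup_of_mem 2 ⟨(hG _ _).2 (C.euler_mu i), by simpa using h3 i⟩
      · by_cases hα : α = 0
        · subst hα
          convert h5 1 using 1
          exact Subtype.ext (by simp [rr_zero])
        refine Submodule.mem_iSup_of_mem _ ⟨(hG _ _).2 (C.euler_rr h0 α), ?_⟩
        rw [if_neg fun h => hα (h2 α fun j => Int.natAbs_eq_zero.1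
          (Finset.sum_eq_zero_iff.1 h j (Finset.mem_univ j)))]
        exact h4 α hα
    | algebraMap c => exact h5 c
    | add a b ha hb h7 h8 => exact add_mem (h7 trivial) (h8 trivial)
    | mul a b ha hb h7 h8 => exact h6 (Submodule.mul_mem_mul (h7 trivial) (h8 trivial))
  have key2 := fun I h3 h4 => (hind.le_iff_eq_of_iSup_eq_top (key I h3 h4)).1 fun d => inf_le_left
  have hfr : IsFractionRing (hyp C.mu C.t ℓ) K := IsFractionRing.of_field _ K fun y => by
    obtain ⟨a, ha, b, hb, -, e⟩ := C.frac_hyp h0 y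
    exact ⟨⟨a, ha⟩, ⟨b, hb⟩, e⟩
  refine ⟨𝒢, ⟨(Subalgebra.fg_iff_finiteType _).1 (hyp_fg C.t_ne), hfr,
    (isIntegrallyClosed_iff K).2 fun {y} h => ⟨⟨y, C.normal h0 h1 h⟩, rfl⟩, C.symplectic h0 h1,
    C.extend h0, { one_mem := hone, mul_mem := fun _ _ _ _ => hmul },
    (DirectSum.isInternal_submodule_iff_iSupIndep_and_iSup_eq_top _).2 ⟨hind, ?_⟩, fun f hf => ?_,
    2, two_pos, fun c σ hσ X Y X' Y' hX hY => ?_⟩, fun I h3 h4 d hd f hf => ?_⟩
  · rw [← key2 ⊤ (by simp) (by simp)]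
    exact key ⊤ (by simp) (by simp)
  · rw [← key2 ⊤ (by simp) (by simp)] at hf
    obtain ⟨c, rfl⟩ := Submodule.mem_one.1 (by simpa using hf.2)
    exact ⟨c, rfl⟩
  · have hm : ∀ i, σ (C.mu i) = (c : ℂ) ^ 2 • C.mu i := fun i =>
      hσ 2 ⟨_, C.mu_hyp i⟩ ((hG _ _).2 (C.euler_mu i))
    have hz : ∀ l, σ (lin C.mu l) = (c : ℂ) ^ 2 • lin C.mu l := fun l => by
      simp [lin, map_sum, hm, Finset.smul_sum]
    have ht : ∀ i, ∃ k : ℂ, k ≠ 0 ∧ σ (C.t i) = k • C.t i := fun i => by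
      have h3 := hσ _ ⟨_, rr_mem (Pi.single i 1)⟩ ((hG _ _).2 (C.euler_rr h0 _))
      have h4 : σ (zz C.mu ℓ (Pi.single i 1)) =
          (∏ j, ((c : ℂ) ^ 2) ^ (dot (ℓ j) (Pi.single i 1)).toNat) • zz C.mu ℓ (Pi.single i 1) := by
        simp only [zz, map_prod, map_pow, hz, smul_pow, Finset.prod_smul]
      simp only [rr, tpow_single, map_mul, h4] at h3
      have h5 : ∏ j, ((c : ℂ) ^ 2) ^ (dot (ℓ j) (Pi.single i 1)).toNat ≠ 0 :=
        Finset.prod_ne_zero_iff.2 fun j _ => by simp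
      refine ⟨_, div_ne_zero (pow_ne_zero (∑ j, (dot (ℓ j) (Pi.single i 1)).natAbs) c.ne_zero) h5,
        mul_right_cancel₀ (C.zz_ne h0 (Pi.single i 1)) ?_⟩
      rw [mul_smul_comm] at h3
      rw [smul_mul_assoc, div_eq_inv_mul, mul_smul, ← h3, inv_smul_smul₀ h5]
    rw [ω_apply, ω_apply, map_sum, Finset.smul_sum]
    refine Finset.sum_congr rfl fun i _ => ?_
    obtain ⟨k, hk, e⟩ := ht i
    have h3 : algebraMap ℂ K k ≠ 0 := by simpa using hk
    have := C.t_ne i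
    simp only [map_div₀, map_sub, map_mul, ← hX, ← hY, hm, e, Derivation.map_smul]
    simp only [Algebra.smul_def]
    field_simp
  · rw [← key2 I h3 h4] at hf
    simpa [hd] using hf.2

end Coord

end Pool.Agent.MP_51db15_ag

end MrgPart1

-- ======== part 2: formerly Pool.Agent.MP_51db15_ag.DvrDer
section MrgPart2

/-! A discrete valuation ring essentially of finite type has a vector field transverse to the
closed point. -/

namespace Pool.Agent.MP_51db15_ag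

open Polynomial

theorem trunc_der {O : Type} [CommRing O] [IsDomain O] [IsDiscreteValuationRing O] [Algebra ℂ O]
    [Algebra.EssFiniteType ℂ O] {π : O} (hπ : Irreducible π) (N : ℕ) :
    ∃ δ : Derivation ℂ (O ⧸ Ideal.span {π ^ (N + 1)}) (O ⧸ Ideal.span {π ^ (N + 1)}),
      δ (Ideal.Quotient.mk _ π) = Ideal.Quotient.mk _ π ∧ ∀ a, Ideal.Quotient.mk _ π ∣ δ a := by
  set A := O ⧸ Ideal.span {π ^ (N + 1)}
  set p : A := Ideal.Quotient.mk _ π with hp
  have hn : p ^ (N + 1) = 0 := by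
    rw [hp, ← map_pow]; exact Ideal.Quotient.eq_zero_iff_mem.2 (Ideal.mem_span_singleton_self _)
  have hm : IsLocalRing.maximalIdeal O = Ideal.span {π} :=
    (IsDiscreteValuationRing.irreducible_iff_uniformizer π).1 hπ
  let k := IsLocalRing.ResidueField O
  have : Algebra.EssFiniteType ℂ k := .comp _ O _
  have hle : Ideal.span {π ^ (N + 1)} ≤ IsLocalRing.maximalIdeal O := by
    rw [hm, Ideal.span_singleton_le_span_singleton]; exact dvd_pow_self _ N.succ_ne_zero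
  let g : A →ₐ[ℂ] k := Ideal.Quotient.factorₐ ℂ hle
  have hg : Function.Surjective g := Ideal.Quotient.factor_surjective hle
  have hk : ∀ a, g a = 0 → p ∣ a := fun a ha => by
    obtain ⟨a, rfl⟩ := Ideal.Quotient.mk_surjective a
    have : a ∈ IsLocalRing.maximalIdeal O := Ideal.Quotient.eq_zero_iff_mem.1 ha
    rw [hm, Ideal.mem_span_singleton] at this
    exact map_dvd _ this
  have hnil : IsNilpotent (RingHom.ker (g : A →+* k)) := by
    refine ⟨N + 1, le_bot_iff.1 ((Ideal.pow_right_mono (J := Ideal.span {p})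
      (fun a ha => Ideal.mem_span_singleton.2 (hk a ha)) _).trans ?_)⟩
    rw [Ideal.span_singleton_pow, hn]
    simp
  let σ : k →ₐ[ℂ] A := Algebra.FormallySmooth.liftOfSurjective (AlgHom.id ℂ k) g hg hnil
  have hσ : ∀ x, g (σ x) = x := fun x =>
    Algebra.FormallySmooth.liftOfSurjective_apply (AlgHom.id ℂ k) g hg hnil x
  let φ : k[X] →ₐ[ℂ] A := aevalTower σ p
  have h1 : ∀ j, ∀ a : A, ∃ q b, a = φ q + p ^ j * b := fun j => by
    induction j with
    | zero => exact fun a => ⟨0, a, by simp⟩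
    | succ j ih =>
      intro a
      obtain ⟨q, b, rfl⟩ := ih a
      obtain ⟨c, hc⟩ := hk (b - σ (g b)) (by rw [map_sub, hσ, sub_self])
      refine ⟨q + X ^ j * C (g b), c, ?_⟩
      rw [pow_succ p j, mul_assoc, ← hc]
      simp [φ]
      ring
  have h2 : Function.Surjective φ := fun a => by
    obtain ⟨q, b, rfl⟩ := h1 (N + 1) a
    exact ⟨q, by rw [hn, zero_mul, add_zero]⟩
  let d : Derivation ℂ k[X] k[X] := (X : k[X]) • (derivative' (R := k)).restrictScalars ℂ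
  have hd : ∀ q, d q = X * derivative q := fun _ => rfl
  have h3 : ∀ q, φ q = 0 → φ (d q) = 0 := fun q hq => by
    by_cases h0 : q = 0
    · simp [h0]
    obtain ⟨r, e, hr⟩ := exists_eq_pow_rootMultiplicity_mul_and_not_dvd q h0 0
    generalize q.rootMultiplicity 0 = a at e
    rw [map_zero, sub_zero] at e hr
    have hu : IsUnit (φ r) := by
      rw [← r.divX_mul_X_add, map_add]
      refine IsNilpotent.isUnit_add_right_of_commute ⟨N + 1, ?_⟩ ?_ (Commute.all _ _)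
      · simp [φ, mul_pow, hn]
      · simpa [φ] using (Ne.isUnit fun h => hr (X_dvd_iff.2 h)).map σ
    rw [e, map_mul, hu.mul_left_eq_zero] at hq
    have : d (X ^ a * r) = X ^ a * ((a : k[X]) * r + X * derivative r) := by
      rw [hd, derivative_mul, derivative_X_pow]
      obtain _ | a := a
      · simp
      · simp; ring
    rw [e, this, map_mul, hq, zero_mul]
  refine ⟨Derivation.liftOfSurjective h2 h3, ?_, fun a => ?_⟩
  · have := Derivation.liftOfSurjective_apply h2 h3 X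
    simpa [φ, hd] using this
  · obtain ⟨q, rfl⟩ := h2 a
    rw [Derivation.liftOfSurjective_apply, hd]
    simp [φ]

theorem dvr_der {O : Type} [CommRing O] [IsDomain O] [IsDiscreteValuationRing O] [Algebra ℂ O]
    [Algebra.EssFiniteType ℂ O] {π : O} (hπ : Irreducible π) :
    ∃ Y : Derivation ℂ O O, ¬ π ∣ Y π := by
  by_contra hn
  push Not at hn
  let T := Submodule.torsion O Ω[O⁄ℂ]
  let b := Module.Free.chooseBasis O (Ω[O⁄ℂ] ⧸ T)
  choose c hc using fun i => hn (((b.coord i).comp T.mkQ).compDer (KaehlerDifferential.D ℂ O))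
  obtain ⟨w, hw⟩ := T.mkQ_surjective (∑ i, c i • b i)
  have h1 : KaehlerDifferential.D ℂ O π - π • w ∈ T := by
    rw [← Submodule.Quotient.mk_eq_zero, ← T.mkQ_apply, map_sub, map_smul, hw, Finset.smul_sum,
      ← b.sum_repr (T.mkQ _), sub_eq_zero]
    exact Finset.sum_congr rfl fun i _ => by rw [smul_smul, ← hc]; rfl
  obtain ⟨⟨a, ha⟩, h2⟩ := h1
  obtain ⟨M, u, rfl⟩ := IsDiscreteValuationRing.eq_unit_mul_pow_irreducible
    (nonZeroDivisors.ne_zero ha) hπ
  obtain ⟨δ, h3, h4⟩ := trunc_der hπ (M + 1)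
  let ψ := (δ.compAlgebraMap O).liftKaehlerDifferential
  have h5 : ∀ x, Ideal.Quotient.mk _ π ∣ ψ x := fun x => by
    have : x ∈ Submodule.span O (Set.range (KaehlerDifferential.D ℂ O)) := by
      rw [KaehlerDifferential.span_range_derivation]; trivial
    induction this using Submodule.span_induction with
    | mem _ h => obtain ⟨a, rfl⟩ := h; simpa [ψ] using h4 _
    | zero => simp
    | add _ _ _ _ h1 h2 => rw [map_add]; exact dvd_add h1 h2
    | smul a _ _ h => rw [map_smul, Algebra.smul_def]; exact h.mul_left _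
  obtain ⟨e, he⟩ := h5 w
  obtain ⟨e, rfl⟩ := Ideal.Quotient.mk_surjective e
  have h6 := congr(ψ $h2)
  have h7 : ψ (KaehlerDifferential.D ℂ O π) = Ideal.Quotient.mk _ π := by simpa [ψ] using h3
  rw [Submonoid.smul_def, map_smul, map_sub, map_smul, he, h7, map_zero, Algebra.smul_def,
    Algebra.smul_def, Ideal.Quotient.algebraMap_eq, ← map_mul, ← map_mul, ← map_sub, ← map_mul,
    Ideal.Quotient.eq_zero_iff_mem, Ideal.mem_span_singleton] at h6
  have h8 : π ^ (M + 1) * π ∣ π ^ (M + 1) * (u * (1 - π * e)) := by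
    convert h6 using 1 <;> ring
  have h9 := (mul_dvd_mul_iff_left (pow_ne_zero _ hπ.ne_zero)).1 h8
  rw [Units.dvd_mul_left] at h9
  exact hπ.not_isUnit (isUnit_of_dvd_one (by simpa using dvd_add h9 (dvd_mul_right π e)))

end Pool.Agent.MP_51db15_ag

end MrgPart2

-- ======== part 3: formerly Pool.Agent.MP_51db15_ag.Setup
section MrgPart3

/-! From the symplectic form on the regular locus to the Poisson bracket on the function field. -/

set_option linter.unusedSectionVars false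

namespace Pool.Agent.MP_51db15_ag

variable {K : Type} [Field K] [Algebra ℂ K] {n : ℕ} {R : Type} [CommRing R] [IsDomain R]
  [Algebra ℂ R] [Algebra.FiniteType ℂ R] [Algebra R K] [IsFractionRing R K] [IsScalarTower ℂ R K]

theorem card_le_dim {d : ℕ} (hd : ringKrullDim R = d) {ι : Type} [Fintype ι] {x : ι → K}
    (hx : AlgebraicIndependent ℂ x) : Fintype.card ι ≤ d := by
  obtain ⟨s, g, h1, h2⟩ := exists_integral_inj_algHom_of_fg ℂ R
  let P := MvPolynomial (Fin s) ℂ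
  let := g.toRingHom.toAlgebra
  let := ((algebraMap R K).comp g.toRingHom).toAlgebra
  have : IsScalarTower P R K := IsScalarTower.of_algebraMap_eq fun _ => rfl
  have : IsScalarTower ℂ P R := IsScalarTower.of_algebraMap_eq fun c => (g.commutes c).symm
  have : IsScalarTower ℂ P K := IsScalarTower.of_algebraMap_eq fun c => by
    rw [IsScalarTower.algebraMap_apply ℂ R K, IsScalarTower.algebraMap_apply ℂ P R]; rfl
  have : Algebra.IsIntegral P R := ⟨h2⟩
  have : FaithfulSMul P R := (faithfulSMul_iff_algebraMap_injective P R).2 h1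
  have : FaithfulSMul P K := (faithfulSMul_iff_algebraMap_injective P K).2
    ((IsFractionRing.injective R K).comp h1)
  have : Algebra.IsAlgebraic R K := IsLocalization.isAlgebraic K (nonZeroDivisors R)
  have : Algebra.IsAlgebraic P K := Algebra.IsAlgebraic.trans P R K
  have h3 := trdeg_add_eq ℂ P (A := K)
  rw [MvPolynomial.trdeg_of_isDomain, trdeg_eq_zero, add_zero] at h3
  have h4 := hx.cardinalMk_le_trdeg
  rw [← h3] at h4
  have h5 : Fintype.card ι ≤ s := by simpa using h4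
  have h6 : (s : WithBot ℕ∞) ≤ ringKrullDim P := by
    rw [MvPolynomial.ringKrullDim_of_isNoetherianRing, ringKrullDim_eq_zero_of_field]; simp
  obtain ⟨l, hl⟩ := Order.le_krullDim_iff.1 h6
  obtain ⟨Q, hQ⟩ := Ideal.nonempty_primesOver (S := R) l.head.asIdeal
  have := hQ.1
  have := hQ.2
  obtain ⟨L, hL, -⟩ := Ideal.exists_ltSeries_of_hasGoingUp l Q
  have h7 := Order.le_krullDim_iff.2 ⟨L, hL.trans hl⟩
  change _ ≤ ringKrullDim R at h7
  rw [hd] at h7
  exact h5.trans (by exact_mod_cast h7)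

theorem alg_of_dim (hd : ringKrullDim R = (2 * n : ℕ)) {μ t : Fin n → K}
    {P ξ : Fin n → Derivation ℂ K K} (ht : ∀ i, t i ≠ 0)
    (h1 : ∀ i j, P i (μ j) = if i = j then 1 else 0) (h2 : ∀ i j, ξ i (μ j) = 0)
    (h3 : ∀ i j, ξ i (t j) = if i = j then t j else 0) (y : K) (hy : ∀ i, ξ i y = 0) :
    IsAlgebraic (Algebra.adjoin ℂ (Set.range μ)) y := by
  by_contra hn
  have h4 := AlgebraicIndependent.option_iff.2 ⟨algInd μ P h1, hn⟩
  set A := Algebra.adjoin ℂ (Set.range fun o : Option (Fin n) => o.elim y μ)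
  have : CharZero A := charZero_of_injective_algebraMap (algebraMap ℂ A).injective
  have h5 : AlgebraicIndependent A t := by
    rw [algebraicIndependent_iff]
    intro p hp
    by_contra h0
    obtain ⟨c, hc, h⟩ := poly (algebraMap A K) t (fun i => (t i)⁻¹ • ξ i) (fun i c => by
      have : ξ i c = 0 := Derivation.eqOn_adjoin (D1 := ξ i) (D2 := 0)
        (by rintro _ ⟨_ | j, rfl⟩; exacts [hy i, h2 i j]) c.2
      simp [this]) (fun i j => by
        by_cases h : i = j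
        · subst h; simp [h3, ht]
        · simp [h3, h]) {0} (by simp) p h0 hp
    exact hc (Subtype.ext h)
  have := card_le_dim hd (h4.sumElim h5)
  simp at this
  omega

theorem center {v : DV K} (hv : IsDiv (Set.range (algebraMap R K)) v) :
    ∃ (D : Ideal R) (_ : D.IsPrime), IsRegularLocalRing (Localization.AtPrime D) ∧
      (∀ y, y ∈ stalk R D ↔ v.Ge 0 y) ∧ ∃ (π : K) (Y : Derivation ℂ K K), v.Ge 1 π ∧
        (∀ a, v.Ge 0 a → v.Ge 0 (Y a)) ∧ ¬ v.Ge 1 (Y π) := by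
  have : IsNoetherianRing R := Algebra.FiniteType.isNoetherianRing ℂ R
  have h0 : ∀ a : R, v.Ge 0 (algebraMap R K a) := fun a => hv.1 _ ⟨a, rfl⟩
  let D : Ideal R :=
    { carrier := {a | v.Ge 1 (algebraMap R K a)}
      add_mem' := fun ha hb => by simpa using DV.Ge.add ha hb
      zero_mem' := by simp [DV.ge_zero]
      smul_mem' := fun c a ha => by simpa using (h0 c).mul_left ha }
  have hD : D.IsPrime := ⟨(Ideal.ne_top_iff_one D).2 fun h => DV.not_ge_one_one (v := v)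
    (by simpa [D] using h), fun {a b} h => DV.ge_one_mul (h0 a) (h0 b) (by simpa [D] using h)⟩
  have hst : ∀ y, y ∈ stalk R D ↔ v.Ge 0 y := fun y => by
    constructor
    · rintro ⟨a, s, hs, rfl⟩
      obtain ⟨h1, h2⟩ := DV.unit_of_not_ge (h0 s) hs
      exact (h0 a).div_unit h1 h2
    · intro h
      obtain ⟨_, ⟨a, rfl⟩, _, ⟨s, rfl⟩, h1, h2, e⟩ := hv.2 y h
      exact ⟨a, s, DV.not_ge_of_unit h1 h2, e⟩
  have hreg := regular_of_dv v D hv fun _ => Iff.rfl
  refine ⟨D, hD, hreg, hst, ?_⟩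
  let L := Localization.subalgebra.ofField K D.primeCompl D.primeCompl_le_nonZeroDivisors
  have hL : ∀ y, y ∈ L ↔ v.Ge 0 y := fun y => by
    rw [← hst]
    exact ⟨fun ⟨a, s, hs, e⟩ => ⟨a, s, hs, e.trans (div_eq_mul_inv _ _).symm⟩,
      fun ⟨a, s, hs, e⟩ => ⟨a, s, hs, e.trans (div_eq_mul_inv _ _)⟩⟩
  obtain ⟨π, hπ, h1⟩ := v.unif
  let p : L := ⟨π, (hL π).2 (Or.inr (by omega))⟩
  have hdvd : ∀ a : L, p ∣ a ↔ v.Ge 1 (a : K) := fun a => by
    constructor
    · rintro ⟨b, rfl⟩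
      exact DV.Ge.mul_right (Or.inr h1.ge) ((hL _).1 b.2)
    · intro h
      exact ⟨⟨a / π, (hL _).2 (by simpa [h1] using h.div hπ)⟩,
        Subtype.ext (mul_div_cancel₀ (a : K) hπ).symm⟩
  have : IsLocalRing L := IsLocalization.AtPrime.isLocalRing L D
  have : IsNoetherianRing L := IsLocalization.isNoetherianRing D.primeCompl L inferInstance
  have hm : IsLocalRing.maximalIdeal L = Ideal.span {p} := by
    ext a
    rw [Ideal.mem_span_singleton, hdvd, IsLocalRing.mem_maximalIdeal, mem_nonunits_iff]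
    constructor
    · intro h
      by_contra h2
      obtain ⟨h3, h4⟩ := DV.unit_of_not_ge ((hL _).1 a.2) h2
      exact h (IsUnit.of_mul_eq_one ⟨(a : K)⁻¹, (hL _).2 (Or.inr (by rw [v.ord_inv h3, h4]; rfl))⟩
        (Subtype.ext (mul_inv_cancel₀ h3)))
    · intro h hu
      obtain ⟨b, hb⟩ := hu.exists_right_inv
      have := h.mul_right ((hL _).1 b.2)
      rw [show (a : K) * b = 1 from congr(($hb : K))] at this
      exact DV.not_ge_one_one this
  have hp0 : p ≠ 0 := fun h => hπ congr(($h : K))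
  have : IsDiscreteValuationRing L := ((IsDiscreteValuationRing.TFAE L (by
    rw [IsLocalRing.isField_iff_maximalIdeal_eq, hm]; simpa using hp0)).out 0 4).2
      (hm ▸ (inferInstance : (Ideal.span {p}).IsPrincipal))
  have : Algebra.EssFiniteType R L := .of_isLocalization L D.primeCompl
  have : Algebra.EssFiniteType ℂ L := .comp ℂ R L
  obtain ⟨Y, hY⟩ := dvr_der ((IsDiscreteValuationRing.irreducible_iff_uniformizer p).2 hm)
  obtain ⟨X, hX⟩ := exists_extend (K := K) ((Algebra.linearMap L K).compDer Y)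
  refine ⟨π, X, Or.inr h1.ge, fun a ha => ?_, fun h => hY ((hdvd _).2 ?_)⟩
  · have := hX ⟨a, (hL a).2 ha⟩
    exact (show X a = _ from this) ▸ (hL _).1 (Y _).2
  · exact (show X π = (Y p : K) from hX p) ▸ h

theorem exists_br {ω : LinearMap.BilinForm K (Derivation ℂ K K)} (hω : SymplecticOnReg R ω) :
    ∃ br : K → Derivation ℂ K K, (∀ f Y, ω (br f) Y = Y f) ∧
      ∀ X f, (∀ Y, ω X Y = Y f) → X = br f := by
  have : IsRegularLocalRing (Localization.AtPrime (⊥ : Ideal R)) := by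
    have : IsNoetherianRing R := Algebra.FiniteType.isNoetherianRing ℂ R
    have hp := principal_of (L := Localization.AtPrime (⊥ : Ideal R)) (⊥ : Ideal R) (π := 0)
      (zero_mem _) fun d hd => ⟨0, 1, by simp, by simpa using hd⟩
    have : IsPrincipalIdealRing (Localization.AtPrime (⊥ : Ideal R)) :=
      ((tfae_of_isNoetherianRing_of_isLocalRing_of_isDomain _).out 0 4).2 hp
    infer_instance
  choose br h1 h2 using fun f => (hω.2 ⊥ this).2 f (by
    obtain ⟨a, b, hb, rfl⟩ := IsFractionRing.div_surjective (A := R) f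
    exact ⟨a, b, nonZeroDivisors.ne_zero hb, rfl⟩)
  refine ⟨br, h2, fun X f h => Derivation.ext fun g => ?_⟩
  rw [← h2 g, ← h2 g (br f), ← hω.1.1.neg_eq, ← hω.1.1.neg_eq (br f), h, h2]

theorem jacobi {ω : LinearMap.BilinForm K (Derivation ℂ K K)} (hω : IsClosedForm ω)
    {X Y : Derivation ℂ K K} {f g : K} (hX : ∀ Z, ω X Z = Z f) (hY : ∀ Z, ω Y Z = Z g)
    (Z : Derivation ℂ K K) : ω ⁅X, Y⁆ Z = Z (X g) := by
  have := hω.2 X Y Z
  rw [← hω.1.neg_eq Y ⁅X, Z⁆, ← hω.1.neg_eq X ⁅Y, Z⁆] at this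
  simp only [hX, hY, Derivation.commutator_apply] at this
  linear_combination -this

theorem setup [IsIntegrallyClosed R] (hd : ringKrullDim R = (2 * n : ℕ))
    {ω : LinearMap.BilinForm K (Derivation ℂ K K)} (hω : SymplecticOnReg R ω)
    (𝒜 : (Fin n → ℤ) → Submodule ℂ R) [GradedAlgebra 𝒜]
    (he : AddSubgroup.closure {α | 𝒜 α ≠ ⊥} = ⊤) {μ : Fin n → R} (hμ : IsMomentMap 𝒜 ω μ)
    (c : Fin n → ℂ) : ∃ H : Ham K n, Good H (IsScalarTower.toAlgHom ℂ R K).range ∧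
      ∀ i, H.mu i = algebraMap R K (μ i - algebraMap ℂ R (c i)) := by
  classical
  obtain ⟨br, h1, h2⟩ := exists_br hω
  let mu : Fin n → K := fun i => algebraMap R K (μ i - algebraMap ℂ R (c i))
  have h3 : ∀ α, ∀ f ∈ 𝒜 α, algebraMap R K f ∈ eig (fun i => br (mu i)) α := fun α f hf i => by
    obtain ⟨-, ξ, h4, h5⟩ := hμ i
    beta_reduce
    rw [← h2 ξ (mu i) fun Y => by simp [mu, h5, ← IsScalarTower.algebraMap_apply]]
    exact h4 α f hf
  have skew : ∀ f g, br f g = -br g f := fun f g => by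
    rw [← h1 g, ← h1 f, hω.1.1.neg_eq]
  have comm : ∀ i j, br (mu i) (mu j) = 0 := fun i j =>
    eig_zero_iff.1 (h3 0 _ (sub_mem (hμ j).1 (SetLike.algebraMap_mem_graded 𝒜 (c j)))) i
  have h4 : ∀ α, ∃ y, y ≠ 0 ∧ y ∈ eig (fun i => br (mu i)) α := fun α => by
    have : α ∈ AddSubgroup.closure {α | 𝒜 α ≠ ⊥} := he ▸ trivial
    induction this using AddSubgroup.closure_induction with
    | mem α h =>
      obtain ⟨f, hf, h0⟩ := (Submodule.ne_bot_iff _).1 h
      exact ⟨_, by simpa using h0, h3 α f hf⟩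
    | zero => exact ⟨1, one_ne_zero, eig_one⟩
    | add _ _ _ _ ha hb =>
      obtain ⟨a, h5, h6⟩ := ha
      obtain ⟨b, h7, h8⟩ := hb
      exact ⟨_, mul_ne_zero h5 h7, eig_mul h6 h8⟩
    | neg _ _ ha =>
      obtain ⟨a, h5, h6⟩ := ha
      exact ⟨_, inv_ne_zero h5, eig_inv h6⟩
  choose t ht ht1 using fun i => h4 (Pi.single i 1)
  have ht2 : ∀ i j, br (mu i) (t j) = if i = j then t j else 0 := fun i j => by
    rw [show br (mu i) (t j) = _ from ht1 j i]
    by_cases h : i = j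
    · subst h; simp
    · simp [h]
  let H : Ham K n := ⟨br, skew, mu, t, fun i f g => by
      rw [← h2 _ _ (jacobi hω.1 (h1 (mu i)) (h1 f)), Derivation.commutator_apply]; ring,
    comm, ht, ht2, alg_of_dim hd (P := fun i => (-(t i)⁻¹) • br (t i)) ht (fun i j => by
      rw [Derivation.smul_apply, skew, ht2]
      by_cases h : i = j
      · subst h; simp [ht]
      · simp [h, Ne.symm h]) comm ht2⟩
  have hcl : ∀ v : DV K, IsDiv (Set.range (algebraMap R K)) v →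
      ∀ f g, v.Ge 0 f → v.Ge 0 g → v.Ge 0 (br f g) := fun v hv f g hf hg => by
    obtain ⟨D, _, h5, h6, -⟩ := center hv
    obtain ⟨X, h7, h8⟩ := (hω.2 D h5).2 f ((h6 f).2 hf)
    exact h2 X f h8 ▸ (h6 _).1 (h7 g ((h6 g).2 hg))
  refine ⟨H, ⟨?_, fun y => ?_, fun y hy => ?_, fun i => ⟨_, rfl⟩, hcl, fun v hv => ?_⟩,
    fun _ => rfl⟩
  · obtain ⟨s, hs⟩ := Algebra.FiniteType.out (R := ℂ) (A := R)
    refine ⟨(x : s) × (DirectSum.decompose 𝒜 (x : R)).support, inferInstance,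
      fun q => algebraMap R K (DirectSum.decompose 𝒜 (q.1 : R) q.2), fun q => q.2,
      fun q => h3 _ _ (SetLike.coe_mem _), le_antisymm (Algebra.adjoin_le ?_) ?_⟩
    · rintro _ ⟨q, rfl⟩
      exact ⟨_, rfl⟩
    · rw [← Algebra.map_top, ← hs, AlgHom.map_adjoin]
      refine Algebra.adjoin_le ?_
      rintro _ ⟨x, hx, rfl⟩
      rw [← DirectSum.sum_support_decompose 𝒜 x, map_sum]
      exact sum_mem fun α hα => Algebra.subset_adjoin ⟨⟨⟨x, hx⟩, α, hα⟩, rfl⟩
  · obtain ⟨a, b, hb, rfl⟩ := IsFractionRing.div_surjective (A := R) y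
    exact ⟨_, ⟨a, rfl⟩, _, ⟨b, rfl⟩, by simpa using nonZeroDivisors.ne_zero hb, rfl⟩
  · let e := AlgEquiv.ofInjective (IsScalarTower.toAlgHom ℂ R K) (IsFractionRing.injective R K)
    exact IsIntegrallyClosed.isIntegral_iff.1
      (hy.map_of_comp_eq (T := R) e.symm.toRingEquiv.toRingHom (RingHom.id K) (by
        ext x
        obtain ⟨x, rfl⟩ := e.surjective x
        simp [e]))
  · obtain ⟨D, _, h5, h6, π, Y, h7, h8, h9⟩ := center hv
    by_contra hn
    push Not at hn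
    obtain ⟨p, hp, hp1⟩ := v.unif
    have h10 := (h6 _).1 ((hω.2 D h5).1 (p⁻¹ • br p) Y (fun a ha => (h6 _).2 (by
      have := (hn a p ((h6 a).1 ha) (Or.inr hp1.ge)).neg.div hp
      rw [hp1, sub_self] at this
      rw [Derivation.smul_apply, skew, smul_eq_mul, mul_comm]
      exact div_eq_mul_inv _ p ▸ this)) fun a ha => (h6 _).2 (h8 a ((h6 a).1 ha)))
    rw [map_smul, LinearMap.smul_apply, h1, smul_eq_mul, mul_comm, ← div_eq_mul_inv] at h10
    exact h9 (DV.der_ge_of_log hv.const Y h8 hp (by omega) h10 h7)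

end Pool.Agent.MP_51db15_ag

end MrgPart3

-- marker of a merged file
example : 731051 + 740546 = 731051 + 740546 := rfl
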