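import Mathlib.RingTheory.LocalProperties.Reduced
import Mathlib.FieldTheory.PurelyInseparable.Exponent
import Pool.Agent.MP_51db15_ag.Local
import Pool.Agent.MP_51db15_ag.Setup

/-! The main theorem. -/

namespace Pool.Agent.MP_51db15_ag

theorem main (R : Type) [CommRing R] [IsDomain R] [Algebra ℂ R] [Algebra.FiniteType ℂ R]
    [IsIntegrallyClosed R] (n : ℕ) (hd : ringKrullDim R = (2 * n : ℕ))
    (ω : LinearMap.BilinForm (FractionRing R) (Derivation ℂ (FractionRing R) (FractionRing R)))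
    (hω : SymplecticOnReg R ω) (𝒜 : (Fin n → ℤ) → Submodule ℂ R) [GradedAlgebra 𝒜]
    (he : AddSubgroup.closure {α | 𝒜 α ≠ ⊥} = ⊤) (μ : Fin n → R) (hμ : IsMomentMap 𝒜 ω μ)
    (m : Ideal R) [hm : m.IsMaximal] :
    ∃ (N : ℕ) (ℓ : Fin N → Fin n → ℤ)
      (ω₀ : LinearMap.BilinForm (K0 n) (Derivation ℂ (K0 n) (K0 n)))
      (𝒢 : ℕ → Submodule ℂ (hypertoric ℓ)), IsConicalSymplectic (hypertoric ℓ) ω₀ 𝒢 ∧
      ∃ s ∉ m, ∃ φ : hypertoric ℓ →ₐ[ℂ] Localization.Away s, φ.toRingHom.Etale ∧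
        ∀ d ≠ 0, ∀ f ∈ 𝒢 d, φ f ∈ m.map (algebraMap R (Localization.Away s)) := by
  set K := FractionRing R
  have hinj := IsFractionRing.injective R K
  have hres : ∀ r : R, ∃ c, r - algebraMap ℂ R c ∈ m := fun r => by
    let := Ideal.Quotient.field m
    have : Module.Finite ℂ (R ⧸ m) := finite_of_finite_type_of_isJacobsonRing ℂ (R ⧸ m)
    obtain ⟨c, hc⟩ := (IsAlgClosed.algebraMap_bijective_of_isIntegral (k := ℂ) (K := R ⧸ m)).2
      (Ideal.Quotient.mk m r)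
    exact ⟨c, Ideal.Quotient.eq.1 hc.symm⟩
  choose c hc using fun i => hres (μ i)
  obtain ⟨H, G, hH⟩ := setup hd hω 𝒜 he hμ c
  let m' : Submodule ℂ K := (m.restrictScalars ℂ).map (IsScalarTower.toAlgHom ℂ R K).toLinearMap
  have hm' : ∀ a, algebraMap R K a ∈ m' ↔ a ∈ m := fun a =>
    ⟨fun ⟨b, hb, e⟩ => hinj e ▸ hb, fun h => ⟨a, h, rfl⟩⟩
  have P : Pt H (IsScalarTower.toAlgHom ℂ R K).range m' := by
    refine ⟨?_, ?_, fun h => hm.ne_top ((Ideal.eq_top_iff_one m).2 ((hm' 1).1 (by simpa using h))),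
      fun i => hH i ▸ (hm' _).2 (hc i)⟩
    · rintro _ ⟨r, rfl⟩ _ ⟨x, hx, rfl⟩
      exact ⟨r * x, m.mul_mem_left r hx, map_mul (algebraMap R K) r x⟩
    · rintro _ ⟨a, rfl⟩ _ ⟨b, rfl⟩ h
      exact (hm.isPrime.mem_or_mem ((hm' _).1 (map_mul (algebraMap R K) a b ▸ h))).imp
        (hm' a).2 (hm' b).2
  obtain ⟨_, ⟨s, rfl⟩, hs, R', hR', μ', t, N, ℓ, hind, h0, h1, h2, ⟨hle, het⟩, h3, h4⟩ :=
    G.local P (by
      rintro _ ⟨r, rfl⟩
      obtain ⟨d, hd⟩ := hres r
      exact ⟨d, by simpa [← IsScalarTower.algebraMap_apply] using (hm' _).2 hd⟩)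
  change algebraMap R K s ∉ m' at hs
  have hs0 : algebraMap R K s ≠ 0 := fun h => hs (h ▸ m'.zero_mem)
  obtain ⟨⟨x, y, X, Y, c1, c2, c3, c4, c5, c6⟩, rfl, rfl⟩ := exists_coord n
  obtain ⟨𝒢, hc1, hc2⟩ := Coord.conical ⟨_, _, X, Y, c1, c2, c3, c4, c5, c6⟩ h0 h1 h2
  let Φ : K0 n →ₐ[ℂ] K := IsFractionRing.liftAlgHom (algebraicIndependent_iff_injective_aeval.1 hind)
  have hΦ : ∀ a, Φ (var a) = Sum.elim μ' t a := fun a => by simp [Φ, var]
  have hrr : ∀ a, Φ (rr (fun i => var (.inl i)) (fun i => var (.inr i)) ℓ a) = rr μ' t ℓ a :=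
    fun a => by simp [rr, tpow, zz, lin, hΦ]
  have hmap : (hypertoric ℓ).map Φ = hyp μ' t ℓ := by
    change (hyp (fun i => var (.inl i)) (fun i => var (.inr i)) ℓ).map Φ = _
    rw [hyp, hyp, AlgHom.map_adjoin, Set.image_union, ← Set.range_comp, ← Set.range_comp]
    congr 3
    · exact funext fun i => hΦ _
    · exact funext hrr
  let ψ := ((hypertoric ℓ).equivMapOfInjective Φ Φ.toRingHom.injective).trans
    (Subalgebra.equivOfEq _ _ hmap)
  let Λ : Localization.Away s →ₐ[ℂ] K := IsLocalization.Away.liftAlgHom s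
    (f := IsScalarTower.toAlgHom ℂ R K) hs0.isUnit
  have hΛ : ∀ a, Λ (algebraMap R _ a) = algebraMap R K a := fun a => by simp [Λ]
  have hu : IsUnit (algebraMap R (Localization.Away s) s) := IsLocalization.Away.algebraMap_isUnit s
  have hΛi : Function.Injective Λ := by
    rw [injective_iff_map_eq_zero]
    intro x hx
    obtain ⟨k, a, e⟩ := IsLocalization.Away.surj s x
    have := congr(Λ $e)
    rw [map_mul, hx, zero_mul, hΛ, eq_comm, map_eq_zero_iff _ hinj] at this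
    rwa [this, map_zero, (hu.pow k).mul_left_eq_zero] at e
  have hΛr : Λ.range = R' := by
    ext y
    rw [hR']
    constructor
    · rintro ⟨x, rfl⟩
      obtain ⟨k, a, e⟩ := IsLocalization.Away.surj s x
      have := congr(Λ $e)
      rw [map_mul, map_pow, hΛ, hΛ, mul_comm] at this
      exact ⟨k, a, this.symm⟩
    · rintro ⟨k, a, e⟩
      obtain ⟨w, hw⟩ := (hu.pow k).exists_left_inv
      refine ⟨w * algebraMap R _ a, mul_left_cancel₀ (pow_ne_zero k hs0) ?_⟩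
      have := congr(Λ $hw)
      rw [map_mul, map_pow, hΛ, map_one] at this
      change _ * Λ _ = _
      rw [map_mul, hΛ, ← mul_assoc, mul_comm _ (Λ w), this, one_mul]
      exact e
  let e := (AlgEquiv.ofInjective Λ hΛi).trans (Subalgebra.equivOfEq _ _ hΛr)
  have he : ∀ y : R', Λ (e.symm y) = y := fun y => congr(($(e.apply_symm_apply y) : K))
  let φ := (e.symm.toAlgHom.comp (Subalgebra.inclusion hle)).comp ψ.toAlgHom
  have hφ : ∀ f, Λ (φ f) = Φ f := fun f => he _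
  have h5 : ∀ f : hypertoric ℓ, (∃ k : ℕ, algebraMap R K s ^ k * Φ f ∈ m') →
      f ∈ (m.map (algebraMap R (Localization.Away s))).comap φ := by
    rintro f ⟨k, a, ha, e⟩
    rw [Ideal.mem_comap, ← Ideal.unit_mul_mem_iff_mem _ (hu.pow k),
      show _ * φ f = algebraMap R _ a from hΛi (by rw [map_mul, map_pow, hΛ, hΛ, hφ]; exact e.symm)]
    exact Ideal.mem_map_of_mem _ ha
  refine ⟨N, ℓ, _, 𝒢, hc1, s, fun h => hs ((hm' s).2 h), φ, ?_,
    hc2 ((m.map (algebraMap R (Localization.Away s))).comap φ)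
      (fun i => h5 _ ((h3 i).imp fun k hk => (hΦ (.inl i)).symm ▸ hk))
      fun a ha => h5 _ ((h4 a ha).imp fun k hk => (hrr a).symm ▸ hk)⟩
  exact RingHom.Etale.stableUnderComposition _ _
    (RingHom.Etale.of_bijective (f := ψ.toAlgHom.toRingHom) ψ.bijective)
    (RingHom.Etale.stableUnderComposition _ _ het
      (RingHom.Etale.of_bijective (f := e.symm.toAlgHom.toRingHom) e.symm.bijective))

end Pool.Agent.MP_51db15_ag
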